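import Mathlib

/-! The determinantal measure of a projection `K = (1 + R) / 2` on a finite set. -/

namespace Pool.Agent.P.MP_039ae7_nt

open Matrix Finset

set_option linter.unusedSectionVars false

variable {Λ : Type*} [Fintype Λ] [DecidableEq Λ]

/-- The spin at `x`. -/
def sg (S : Finset Λ) (x : Λ) : ℝ := if x ∈ S then 1 else -1

/-- The occupation number at `x`. -/
def ind (S : Finset Λ) (x : Λ) : ℝ := if x ∈ S then 1 else 0

/-- The weight of the configuration `S`. -/
noncomputable def muC (R : Matrix Λ Λ ℂ) (S : Finset Λ) : ℂ :=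
  (Matrix.of fun x y => ((1 : Matrix Λ Λ ℂ) x y + sg S x * R x y) / 2).det

/-- `K = (1 + R) / 2`. -/
noncomputable def Kp (R : Matrix Λ Λ ℂ) : Matrix Λ Λ ℂ := (1 / 2 : ℂ) • (1 + R)

/-- `1 - K = (1 - R) / 2`. -/
noncomputable def Km (R : Matrix Λ Λ ℂ) : Matrix Λ Λ ℂ := (1 / 2 : ℂ) • (1 - R)

lemma mu_gen (R : Matrix Λ Λ ℂ) (v : Λ → ℂ) :
    ∑ S : Finset Λ, (∏ x, if x ∈ S then 1 else v x) * muC R S =
      (1 - diagonal (fun x => 1 - v x) * Km R).det := by
  have h := (detRowAlternating (n := Λ) (R := ℂ)).toMultilinearMap.map_add_univ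
    (fun x y => ((1 : Matrix Λ Λ ℂ) x y + R x y) / 2)
    (fun x y => v x * (((1 : Matrix Λ Λ ℂ) x y - R x y) / 2))
  have e1 : (1 - diagonal (fun x => 1 - v x) * Km R) = Matrix.of
      ((fun x y => ((1 : Matrix Λ Λ ℂ) x y + R x y) / 2) +
        fun x y => v x * (((1 : Matrix Λ Λ ℂ) x y - R x y) / 2)) := by
    ext x y
    simp [Km, diagonal_mul]; ring
  rw [e1]
  refine Eq.trans ?_ h.symm
  refine Finset.sum_congr rfl fun S _ => ?_
  have h2 := (detRowAlternating (n := Λ) (R := ℂ)).toMultilinearMap.map_smul_univ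
    (fun x => if x ∈ S then 1 else v x)
    (fun x y => ((1 : Matrix Λ Λ ℂ) x y + sg S x * R x y) / 2)
  refine Eq.trans h2.symm (congrArg _ ?_)
  funext x y
  by_cases hx : x ∈ S <;> simp [hx, sg, Finset.piecewise, sub_eq_add_neg]

lemma mu_nonneg (R : Matrix Λ Λ ℂ) (h1 : Rᴴ = R) (h2 : R * R = 1) (S : Finset Λ) :
    (muC R S).im = 0 ∧ 0 ≤ (muC R S).re := by
  let J : Matrix Λ Λ ℂ := diagonal fun x => (sg S x : ℂ)
  have hJ1 : Jᴴ = J := by
    simp only [J, diagonal_conjTranspose]; congr 1; funext x; simp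
  have hJ2 : J * J = 1 := by
    simp only [J, diagonal_mul_diagonal, ← diagonal_one]; congr 1; funext x
    unfold sg; split_ifs <;> simp
  let φ : ℝ → ℂ := fun s => (1 + (s : ℂ) • (J * R)).det
  have hreal : ∀ s, (φ s).im = 0 := by
    intro s
    rw [← Complex.conj_eq_iff_im]
    have := det_conjTranspose (1 + (s : ℂ) • (J * R))
    rw [conjTranspose_add, conjTranspose_one, conjTranspose_smul, conjTranspose_mul, h1, hJ1,
      ← smul_mul_assoc, det_one_add_mul_comm, mul_smul_comm] at this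
    simpa [φ] using this.symm
  have hne : ∀ s, 0 ≤ s → s < 1 → φ s ≠ 0 := by
    intro s hs0 hs1 h0
    obtain ⟨v, hv, hv0⟩ := exists_mulVec_eq_zero_iff.2 h0
    rw [add_mulVec, one_mulVec, smul_mulVec] at hv0
    have e : v = -(s : ℂ) • ((J * R) *ᵥ v) := by
      rw [neg_smul]; exact eq_neg_of_add_eq_zero_left hv0
    have hq : star ((J * R) *ᵥ v) ⬝ᵥ ((J * R) *ᵥ v) = star v ⬝ᵥ v := by
      rw [star_mulVec, dotProduct_mulVec, vecMul_vecMul, conjTranspose_mul, h1, hJ1,
        mul_assoc, ← mul_assoc J, hJ2, one_mul, h2, vecMul_one]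
    have e2 : star v ⬝ᵥ v = (s : ℂ) ^ 2 * (star v ⬝ᵥ v) := by
      conv_lhs => rw [e]
      rw [star_smul, smul_dotProduct, dotProduct_smul, hq]
      simp; ring
    have e3 : ((1 - s ^ 2 : ℝ) : ℂ) * (star v ⬝ᵥ v) = 0 := by
      push_cast; linear_combination e2
    rcases mul_eq_zero.1 e3 with h | h
    · have : 1 - s ^ 2 = 0 := by exact_mod_cast h
      nlinarith
    · open ComplexOrder in exact hv (dotProduct_star_self_eq_zero.1 h)
  have hcont : Continuous fun s => (φ s).re := by
    refine Complex.continuous_re.comp (Continuous.matrix_det ?_)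
    fun_prop
  have hpos : 0 ≤ (φ 1).re := by
    by_contra hneg
    push Not at hneg
    have h0 : (φ 0).re = 1 := by simp [φ]
    obtain ⟨s, hs, hs0⟩ := intermediate_value_Ico' (zero_le_one' ℝ) hcont.continuousOn
      (show (0 : ℝ) ∈ Set.Ioc (φ 1).re (φ 0).re from ⟨hneg, by rw [h0]; norm_num⟩)
    exact hne s hs.1 hs.2 (Complex.ext hs0 (hreal s))
  have e : muC R S = ((1 / 2 : ℝ) ^ Fintype.card Λ : ℝ) * φ 1 := by
    have : (Matrix.of fun x y => ((1 : Matrix Λ Λ ℂ) x y + sg S x * R x y) / 2) =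
        (1 / 2 : ℂ) • (1 + ((1 : ℝ) : ℂ) • (J * R)) := by
      ext x y; simp [J, diagonal_mul]; ring
    rw [muC, this, det_smul]; simp [φ]
  rw [e, Complex.im_ofReal_mul, Complex.re_ofReal_mul, hreal]
  exact ⟨by simp, by positivity⟩

/-- The block matrix computing mixed spin and occupation moments. -/
noncomputable def blk (R : Matrix Λ Λ ℂ) {X Y : Type*} (x : X → Λ) (y : Y → Λ) :
    Matrix (X ⊕ Y) (X ⊕ Y) ℂ :=
  fromBlocks ((Kp R).submatrix x x) (-(Km R).submatrix x y) ((2 : ℂ) • (Kp R).submatrix y x) 0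

theorem mu_moment (R : Matrix Λ Λ ℂ) {X Y : Type*} [Fintype X] [DecidableEq X] [Fintype Y]
    [DecidableEq Y] (x : X → Λ) (y : Y → Λ) (hx : Function.Injective x)
    (hy : Function.Injective y) (hR : ∀ j j', R (y j) (y j') = 0) :
    ∑ S : Finset Λ, muC R S * ((∏ j, sg S (y j) : ℝ) * (∏ i, ind S (x i) : ℝ)) =
      (blk R x y).det := by
  let v : Λ → ℂ := fun l => (∏ i, if x i = l then 0 else 1) * ∏ j, if y j = l then -1 else 1
  have h1 : ∀ S : Finset Λ, (∏ l, if l ∈ S then 1 else v l) =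
      ((∏ j, sg S (y j) : ℝ) * (∏ i, ind S (x i) : ℝ) : ℂ) := by
    intro S
    have : ∀ l, (if l ∈ S then 1 else v l) = (∏ i, if x i = l then (ind S l : ℂ) else 1) *
        ∏ j, if y j = l then (sg S l : ℂ) else 1 := by
      intro l
      by_cases hl : l ∈ S <;> simp [hl, v, ind, sg]
    simp only [this, Finset.prod_mul_distrib]
    rw [Finset.prod_comm, Finset.prod_comm (s := univ) (t := univ)
      (f := fun l j => if y j = l then (sg S l : ℂ) else 1)]
    simp [mul_comm]
  have h2 := mu_gen R v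
  simp only [h1] at h2
  rw [Finset.sum_congr rfl fun S _ => mul_comm _ _, h2]
  let u : X ⊕ Y → Λ := Sum.elim x y
  let c : X ⊕ Y → ℂ := Sum.elim (fun _ => 1) fun j => if ∃ i, x i = y j then 0 else 2
  let P : Matrix Λ (X ⊕ Y) ℂ := Matrix.of fun l a => if u a = l then 1 else 0
  let C : Matrix (X ⊕ Y) Λ ℂ := Matrix.of fun a l => c a * Km R (u a) l
  have h3 : diagonal (fun l => 1 - v l) * Km R = P * C := by
    ext l k
    rw [diagonal_mul, mul_apply]
    have : ∀ a, P l a * C a k = (if u a = l then c a else 0) * Km R l k := by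
      intro a
      by_cases h : u a = l <;> simp [P, C, h]
    simp only [this, ← Finset.sum_mul]
    congr 1
    rw [Fintype.sum_sum_type]
    simp only [u, c, Sum.elim_inl, Sum.elim_inr, v]
    by_cases hl : ∃ i, x i = l
    · obtain ⟨i, rfl⟩ := hl
      rw [Finset.prod_eq_zero (Finset.mem_univ i) (by simp), Finset.sum_eq_single i
        (fun i' _ h => by simp [hx.ne h]) (by simp), Finset.sum_eq_zero]
      · simp
      · intro j _
        by_cases h : y j = x i
        · simp [h]
        · simp [h]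
    · push Not at hl
      simp only [hl, if_false, Finset.prod_const_one, Finset.sum_const_zero, one_mul, zero_add]
      by_cases hl' : ∃ j, y j = l
      · obtain ⟨j, rfl⟩ := hl'
        rw [Finset.prod_eq_single j (fun j' _ h => by simp [hy.ne h]) (by simp),
          Finset.sum_eq_single j (fun j' _ h => by simp [hy.ne h]) (by simp)]
        simp [hl]; norm_num
      · push Not at hl'
        simp [hl']
  rw [h3, det_one_sub_mul_comm]
  let D : Matrix Y X ℂ := Matrix.of fun j i => if x i = y j then -2 else 0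
  have h4 : 1 - C * P = fromBlocks 1 0 D 1 * blk R x y := by
    have hCP : ∀ a b, (C * P) a b = c a * Km R (u a) (u b) := by
      intro a b
      simp [mul_apply, C, P]
    have hD : ∀ (j : Y) (F : X → ℂ) (i : X), x i = y j → ∑ i', D j i' * F i' = -2 * F i := by
      intro j F i h
      rw [Finset.sum_eq_single i (fun i' _ h' => by
        have : x i' ≠ y j := h ▸ hx.ne h'
        simp [D, this]) (by simp)]
      simp [D, h]
    have hD' : ∀ (j : Y) (F : X → ℂ), (¬ ∃ i, x i = y j) → ∑ i', D j i' * F i' = 0 := by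
      intro j F h
      push Not at h
      simp [D, h]
    rw [blk, fromBlocks_multiply]
    ext a b
    rw [Matrix.sub_apply, hCP]
    rcases a with i | j <;> rcases b with i' | j'
    · simp [c, u, Km, Kp, one_apply, hx.eq_iff]; split_ifs <;> ring
    · simp [c, u, Km, Kp, one_apply]
    · simp only [fromBlocks_apply₂₁, Matrix.one_mul, Matrix.add_apply, mul_apply]
      by_cases h : ∃ i, x i = y j
      · obtain ⟨i, hi⟩ := h
        rw [hD j _ i hi]
        simp [c, u, ← hi]
      · rw [hD' j _ h]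
        have : y j ≠ x i' := fun e => h ⟨i', e.symm⟩
        simp [c, u, h, Km, Kp, one_apply, this]
    · simp only [fromBlocks_apply₂₂, Matrix.mul_zero, Matrix.add_apply, mul_apply]
      by_cases h : ∃ i, x i = y j
      · obtain ⟨i, hi⟩ := h
        rw [hD j _ i hi]
        have : ∃ i, x i = y j := ⟨i, hi⟩
        simp [c, u, hi, this, Km, hR, one_apply, hy.eq_iff]
        split_ifs <;> simp
      · rw [hD' j _ h]
        simp [c, u, h, Km, hR, one_apply, hy.eq_iff]
  rw [h4, det_mul, det_fromBlocks_zero₁₂]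
  simp

lemma blk_det_eq_zero_of_card (R : Matrix Λ Λ ℂ) {X Y : Type*} [Fintype X] [DecidableEq X]
    [Fintype Y] [DecidableEq Y] (x : X → Λ) (y : Y → Λ) (h : Fintype.card X < Fintype.card Y) :
    (blk R x y).det = 0 := by
  rw [det_apply]
  refine Finset.sum_eq_zero fun π _ => ?_
  by_contra hne
  have h1 : ∀ a, blk R x y (π a) a ≠ 0 := fun a h0 =>
    hne (by rw [Finset.prod_eq_zero (f := fun i => blk R x y (π i) i) (Finset.mem_univ a) h0,
      smul_zero])
  have h2 : ∀ j : Y, ∃ i : X, π (Sum.inr j) = Sum.inl i := by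
    intro j
    have := h1 (Sum.inr j)
    rcases e : π (Sum.inr j) with i | j'
    · exact ⟨i, rfl⟩
    · rw [e] at this; simp [blk] at this
  choose F hF using h2
  have : Function.Injective F := fun j j' e =>
    Sum.inr_injective (π.injective (by rw [hF, hF, e]))
  exact absurd (Fintype.card_le_of_injective F this) (by omega)

lemma blk_det_eq_zero_left (R : Matrix Λ Λ ℂ) {X Y : Type*} [Fintype X] [DecidableEq X]
    [Fintype Y] [DecidableEq Y] (x : X → Λ) (y : Y → Λ) (h : ¬ Function.Injective x) :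
    (blk R x y).det = 0 := by
  simp only [Function.Injective, not_forall] at h
  obtain ⟨i, i', e, hne⟩ := h
  refine det_zero_of_row_eq (i := Sum.inl i) (j := Sum.inl i') (by simpa using hne) ?_
  funext b
  rcases b with b | b <;> simp [blk, e]

lemma blk_det_eq_zero_right (R : Matrix Λ Λ ℂ) {X Y : Type*} [Fintype X] [DecidableEq X]
    [Fintype Y] [DecidableEq Y] (x : X → Λ) (y : Y → Λ) (h : ¬ Function.Injective y) :
    (blk R x y).det = 0 := by
  simp only [Function.Injective, not_forall] at h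
  obtain ⟨i, i', e, hne⟩ := h
  refine det_zero_of_row_eq (i := Sum.inr i) (j := Sum.inr i') (by simpa using hne) ?_
  funext b
  rcases b with b | b <;> simp [blk, e]

lemma blk_det_square (R : Matrix Λ Λ ℂ) {X : Type*} [Fintype X] [DecidableEq X] (x y : X → Λ) :
    (blk R x y).det = ((Km R).submatrix x y).det * ((2 : ℂ) • (Kp R).submatrix y x).det := by
  have h1 : (fromBlocks 0 1 (-1) 0 : Matrix (X ⊕ X) (X ⊕ X) ℂ) =
      fromBlocks 1 1 0 1 * fromBlocks 1 0 (-1) 1 * fromBlocks 1 1 0 1 := by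
    simp [fromBlocks_multiply]
  have h2 : (fromBlocks 0 1 (-1) 0 : Matrix (X ⊕ X) (X ⊕ X) ℂ).det = 1 := by
    rw [h1, det_mul, det_mul, det_fromBlocks_zero₂₁, det_fromBlocks_zero₁₂]; simp
  have h3 := det_mul (blk R x y) (fromBlocks 0 1 (-1) 0)
  rw [h2, mul_one, blk, fromBlocks_multiply] at h3
  simp only [Matrix.mul_zero, Matrix.mul_neg, Matrix.mul_one, neg_neg, zero_add, add_zero,
    neg_zero] at h3
  rw [det_fromBlocks_zero₂₁] at h3
  exact h3.symm

lemma blk_det_empty (R : Matrix Λ Λ ℂ) {X Y : Type*} [Fintype X] [DecidableEq X]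
    [Fintype Y] [DecidableEq Y] [IsEmpty Y] (x : X → Λ) (y : Y → Λ) :
    (blk R x y).det = ((Kp R).submatrix x x).det := by
  rw [blk, Subsingleton.elim ((2 : ℂ) • (Kp R).submatrix y x) 0, det_fromBlocks_zero₂₁]
  simp

end Pool.Agent.P.MP_039ae7_nt
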