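import Pool.Agent.P.MP_039ae7_nt.Poisson
import Pool.Agent.P.MP_039ae7_nt.Fermi

/-! Circulant matrices on `ZMod M` given by their symbols. -/

namespace Pool.Agent.P.MP_039ae7_nt

open Matrix Finset

variable {M : ℕ} [NeZero M]

/-- The standard additive character. -/
noncomputable def ch (a : ZMod M) : ℂ := ZMod.stdAddChar a

lemma ch_add (a b : ZMod M) : ch (a + b) = ch a * ch b := AddChar.map_add_eq_mul _ a b

@[simp] lemma ch_zero : ch (0 : ZMod M) = 1 := AddChar.map_zero_eq_one _

lemma ch_sum {ι : Type*} (s : Finset ι) (t : ι → ZMod M) :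
    ch (∑ i ∈ s, t i) = ∏ i ∈ s, ch (t i) := by
  classical
  induction s using Finset.induction_on with
  | empty => simp
  | insert a s ha ih => rw [Finset.sum_insert ha, Finset.prod_insert ha, ch_add, ih]

lemma ch_int (j : ℤ) : ch (j : ZMod M) = ee (j / M) := by
  rw [ch, ZMod.stdAddChar_coe, ee]; congr 1; push_cast; ring

lemma ch_neg (a : ZMod M) : ch (-a) = star (ch a) := by
  obtain ⟨j, rfl⟩ := ZMod.intCast_surjective a
  rw [← Int.cast_neg, ch_int, ch_int, ee, ee, Complex.star_def, ← Complex.exp_conj]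
  congr 1
  simp only [map_mul, Complex.conj_ofReal, Complex.conj_I, map_ofNat]
  push_cast; ring

lemma ch_eq_one {a : ZMod M} (h : ch a = 1) : a = 0 :=
  ZMod.injective_stdAddChar (h.trans (AddChar.map_zero_eq_one _).symm)

lemma sum_ch (b : ZMod M) : ∑ x : ZMod M, ch (x * b) = if b = 0 then (M : ℂ) else 0 := by
  have := AddChar.sum_mulShift b (ZMod.isPrimitive_stdAddChar M)
  simp only [ZMod.card] at this
  simp only [ch, this]
  split_ifs <;> simp

lemma norm_ch (a : ZMod M) : ‖ch a‖ = 1 := by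
  obtain ⟨j, rfl⟩ := ZMod.intCast_surjective a
  rw [ch_int, norm_ee]

/-- The circulant matrix with symbol `φ`. -/
noncomputable def circ (φ : ZMod M → ℂ) : Matrix (ZMod M) (ZMod M) ℂ :=
  Matrix.of fun x y => (M : ℂ)⁻¹ * ∑ p, φ p * ch (p * (x - y))

lemma circ_apply (φ : ZMod M → ℂ) (x y : ZMod M) :
    circ φ x y = (M : ℂ)⁻¹ * ∑ p, φ p * ch (p * (x - y)) := rfl

lemma circ_one : circ (fun _ : ZMod M => 1) = 1 := by
  ext x y
  have hM : (M : ℂ) ≠ 0 := Nat.cast_ne_zero.2 (NeZero.ne M)
  simp only [circ_apply, one_mul, sum_ch, sub_eq_zero, one_apply]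
  split_ifs <;> simp [hM]

lemma circ_mul (φ ψ : ZMod M → ℂ) : circ φ * circ ψ = circ fun p => φ p * ψ p := by
  ext x z
  have hM : (M : ℂ) ≠ 0 := Nat.cast_ne_zero.2 (NeZero.ne M)
  simp only [mul_apply, circ_apply]
  have h1 : ∀ y, ((M : ℂ)⁻¹ * ∑ p, φ p * ch (p * (x - y))) *
      ((M : ℂ)⁻¹ * ∑ q, ψ q * ch (q * (y - z))) = ∑ p, ∑ q, ((M : ℂ)⁻¹ * (M : ℂ)⁻¹ *
        (φ p * ψ q) * ch (p * x - q * z)) * ch (y * (q - p)) := by
    intro y
    rw [mul_mul_mul_comm, Finset.sum_mul_sum, Finset.mul_sum]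
    refine Finset.sum_congr rfl fun p _ => ?_
    rw [Finset.mul_sum]
    refine Finset.sum_congr rfl fun q _ => ?_
    have : ch (p * (x - y)) * ch (q * (y - z)) = ch (p * x - q * z) * ch (y * (q - p)) := by
      rw [← ch_add, ← ch_add]; congr 1; ring
    linear_combination ((M : ℂ)⁻¹ * (M : ℂ)⁻¹ * (φ p * ψ q)) * this
  simp only [h1]
  rw [Finset.sum_comm, Finset.mul_sum]
  refine Finset.sum_congr rfl fun p _ => ?_
  rw [Finset.sum_comm]
  simp only [← Finset.mul_sum, sum_ch, sub_eq_zero, mul_ite, mul_zero, Finset.sum_ite_eq',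
    Finset.mem_univ, if_true]
  rw [← mul_sub]; field_simp

lemma circ_conjTranspose (φ : ZMod M → ℂ) : (circ φ)ᴴ = circ fun p => star (φ p) := by
  ext x y
  simp only [conjTranspose_apply, circ_apply, star_mul', star_sum, ← ch_neg, star_inv₀,
    star_natCast]
  congr 1
  refine Finset.sum_congr rfl fun p _ => ?_
  congr 2; ring

lemma circ_lin (a b : ℂ) (φ ψ : ZMod M → ℂ) :
    circ (fun p => a * φ p + b * ψ p) = a • circ φ + b • circ ψ := by
  ext x y
  simp only [circ_apply, Matrix.add_apply, Matrix.smul_apply, smul_eq_mul, add_mul,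
    Finset.sum_add_distrib, mul_assoc, ← Finset.mul_sum]
  ring

lemma circ_shift (φ : ZMod M → ℂ) (x y b : ZMod M) : circ φ (x + b) (y + b) = circ φ x y := by
  simp [circ_apply]

lemma ch_mul_circ (φ : ZMod M → ℂ) (s x y : ZMod M) :
    ch (s * x) * circ φ x y = circ (fun p => φ (p - s)) x y * ch (s * y) := by
  simp only [circ_apply]
  rw [← Equiv.sum_comp (Equiv.addRight s) (fun p => φ (p - s) * ch (p * (x - y))), mul_left_comm,
    mul_assoc, Finset.mul_sum, Finset.sum_mul]
  congr 1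
  refine Finset.sum_congr rfl fun p _ => ?_
  simp only [Equiv.coe_addRight, add_sub_cancel_right]
  have : ch (s * x) * ch (p * (x - y)) = ch ((p + s) * (x - y)) * ch (s * y) := by
    rw [← ch_add, ← ch_add]; congr 1; ring
  linear_combination φ p * this

lemma sum_zmod {β : Type*} [AddCommMonoid β] (F : ZMod M → β) :
    ∑ p, F p = ∑ k ∈ range M, F (k : ZMod M) := by
  refine Finset.sum_nbij' (fun p => p.val) (fun k => (k : ZMod M)) ?_ ?_ ?_ ?_ ?_
  · intro p _; simpa using ZMod.val_lt p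
  · intro k _; simp
  · intro p _; simp
  · intro k hk; exact ZMod.val_cast_of_lt (by simpa using hk)
  · intro p _; simp

/-- Riemann sums of the exponential. -/
noncomputable def Phi (M k : ℕ) (u : ℝ) : ℂ := (M : ℂ)⁻¹ * ∑ p ∈ range k, ee (p * u / M)

lemma circ_lt {k : ℕ} (hk : k ≤ M) (x y : ℤ) :
    circ (fun p : ZMod M => if p.val < k then 1 else 0) x y = Phi M k (x - y) := by
  rw [circ_apply, Phi, sum_zmod]
  congr 1
  rw [← Finset.sum_subset (Finset.range_subset_range.2 hk)]
  · refine Finset.sum_congr rfl fun p hp => ?_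
    have h1 : p < k := by simpa using hp
    rw [ZMod.val_cast_of_lt (h1.trans_le hk), if_pos h1, one_mul]
    have := ch_int (M := M) (p * (x - y))
    push_cast at this
    exact this
  · intro p hp hp'
    rw [ZMod.val_cast_of_lt (by simpa using hp), if_neg (by simpa using hp'), zero_mul]

lemma val_sub_nat (p : ZMod M) {s : ℕ} (hs : s ≤ M) :
    (p - s).val = if s ≤ p.val then p.val - s else p.val + M - s := by
  have hp := ZMod.val_lt p
  split_ifs with h
  · have : p - s = ((p.val - s : ℕ) : ZMod M) := by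
      rw [Nat.cast_sub h]; simp
    rw [this, ZMod.val_cast_of_lt (by omega)]
  · have : p - s = ((p.val + M - s : ℕ) : ZMod M) := by
      rw [Nat.cast_sub (by omega)]; simp
    rw [this, ZMod.val_cast_of_lt (by omega)]

end Pool.Agent.P.MP_039ae7_nt
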