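import Mathlib

/-!
Definitions for the statement: the class of sequences satisfying (a), (b), (c), and the
empirical neighbor spacing frequency.
-/

namespace Pool.Agent.P.MP_039ae7_nt

open Filter Topology MeasureTheory FourierTransform

/-- The sine kernel `S(x) = sin (pi x) / (pi x)`, `S(0) = 1`. -/
noncomputable def sineKer (x : ℝ) : ℝ :=
  if x = 0 then 1 else Real.sin (Real.pi * x) / (Real.pi * x)

/-- `W_n(x) = det [S(x_i - x_k)]`. -/
noncomputable def corrW {n : ℕ} (x : Fin n → ℝ) : ℝ :=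
  (Matrix.of fun i k => sineKer (x i - x k)).det

/-- The hyperplane `H = {sum x_i = 0}` of Euclidean `n`-space. -/
def hyper (n : ℕ) : Submodule ℝ (EuclideanSpace ℝ (Fin n)) where
  carrier := {x | ∑ i, x i = 0}
  add_mem' := by
    intro a b ha hb
    simp only [Set.mem_ofPred_eq, PiLp.add_apply, Finset.sum_add_distrib] at *
    rw [ha, hb, add_zero]
  zero_mem' := by simp
  smul_mem' := by
    intro c a ha
    simp only [Set.mem_ofPred_eq, PiLp.smul_apply, smul_eq_mul, ← Finset.mul_sum] at *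
    rw [ha, mul_zero]

/-- The coordinates of a point of `H`. -/
def coords {n : ℕ} (h : hyper n) : Fin n → ℝ := fun i => h.1 i

/-- `F` is a Schwartz function on the Euclidean space `V` whose Fourier transform vanishes
outside the set `U`. -/
def SchwartzBand (V : Type) [NormedAddCommGroup V] [InnerProductSpace ℝ V]
    [FiniteDimensional ℝ V] [MeasurableSpace V] [BorelSpace V] (F : V → ℝ) (U : Set V) : Prop :=
  ∃ g : SchwartzMap V ℂ, (∀ h, g h = (F h : ℂ)) ∧ ∀ ξ, 𝓕 (fun h => g h) ξ ≠ 0 → ξ ∈ U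

/-- Test functions of condition (c): symmetric, translation invariant, Schwartz on `H`, with
Fourier transform on `H` vanishing outside `{sum |xi_i| < 2}`. -/
def IsTest (n : ℕ) (f : (Fin n → ℝ) → ℝ) : Prop :=
  (∀ (σ : Equiv.Perm (Fin n)) (x : Fin n → ℝ), f (fun i => x (σ i)) = f x) ∧
  (∀ (t : ℝ) (x : Fin n → ℝ), f (fun i => x i + t) = f x) ∧
  SchwartzBand (hyper n) (fun h => f (coords h)) {ξ | ∑ i, |coords ξ i| < 2}

/-- The class of sequences satisfying (a), (b), (c); the index starts at `0`. -/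
structure InS (x : ℕ → ℝ) : Prop where
  mono : Monotone x
  count : Tendsto (fun X : ℝ => (Set.ncard {j | x j ≤ X} : ℝ) / X) atTop (𝓝 1)
  ah : Tendsto (fun j => Metric.infDist (x (j + 1) - x j) {t | ∃ k : ℤ, k ≠ 0 ∧ t = k / 2})
    atTop (𝓝 0)
  corr : ∀ m : ℕ, 1 ≤ m → ∀ f : (Fin (m + 1) → ℝ) → ℝ, IsTest (m + 1) f →
    ∃ s : ℕ → ℝ,
      (∀ N, HasSum (fun j : {j : Fin (m + 1) → ℕ // Function.Injective j ∧ j 0 < N} =>
        f (fun i => x (j.1 i))) (s N)) ∧
      Tendsto (fun N : ℕ => s N / N) atTop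
        (𝓝 (∫ y : Fin m → ℝ, f (Fin.cons 0 y) * corrW (Fin.cons 0 y : Fin (m + 1) → ℝ)))

/-- The proportion of `j < N` with `|x_{j+1} - x_j - d| < 1/4`. -/
noncomputable def gapFreq (x : ℕ → ℝ) (d : ℝ) (N : ℕ) : ℝ :=
  (Set.ncard {j | j < N ∧ |x (j + 1) - x j - d| < 1 / 4} : ℝ) / N

end Pool.Agent.P.MP_039ae7_nt
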