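import Mathlib

/-! Two explicit determinants. -/

namespace Pool.Agent.P.MP_039ae7_nt

open Matrix Complex

lemma det6_gen (p i : ℂ) (hi : i ^ 2 = -1) :
    (!![p, -2 * i, 0, -2 / 3 * i, 0, -2 / 5 * i;
   -2 * i, 0, -2 * i, -2, 2 / 3 * i, 0;
   0, -2 * i, -p, 2 * i, 0, 2 / 3 * i;
   -2 / 3 * i, -2, 2 * i, 0, 2 * i, 2;
   0, 2 / 3 * i, 0, 2 * i, p, -2 * i;
   -2 / 5 * i, 0, 2 / 3 * i, 2, -2 * i, 0] : Matrix (Fin 6) (Fin 6) ℂ).det =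
    (24 * p / 5 - 2048 / 135) ^ 2 := by
  simp [Matrix.det_succ_row_zero, Fin.sum_univ_succ, Fin.succAbove]
  have h4 : i ^ 4 = 1 := by rw [show i ^ 4 = (i ^ 2) ^ 2 by ring, hi]; norm_num
  have h6 : i ^ 6 = -1 := by rw [show i ^ 6 = (i ^ 2) ^ 3 by ring, hi]; norm_num
  ring_nf
  simp only [hi, h4, h6]
  ring

lemma det6_gen' (p i : ℂ) (hi : i ^ 2 = -1) :
    (!![0, -2 * i, -2, 2 / 3 * i, 0, -2 / 5 * i;
   -2 * i, -p, 2 * i, 0, 2 / 3 * i, 0;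
   -2, 2 * i, 0, 2 * i, 2, -2 / 3 * i;
   2 / 3 * i, 0, 2 * i, p, -2 * i, 0;
   0, 2 / 3 * i, 2, -2 * i, 0, -2 * i;
   -2 / 5 * i, 0, -2 / 3 * i, 0, -2 * i, -p] : Matrix (Fin 6) (Fin 6) ℂ).det =
    (24 * p / 5 - 2048 / 135) ^ 2 := by
  simp [Matrix.det_succ_row_zero, Fin.sum_univ_succ, Fin.succAbove]
  have h4 : i ^ 4 = 1 := by rw [show i ^ 4 = (i ^ 2) ^ 2 by ring, hi]; norm_num
  have h6 : i ^ 6 = -1 := by rw [show i ^ 6 = (i ^ 2) ^ 3 by ring, hi]; norm_num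
  ring_nf
  simp only [hi, h4, h6]
  ring

end Pool.Agent.P.MP_039ae7_nt
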