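import Pool.Agent.P.MP_039ae7_nt.Limit

/-! A uniform positive lower bound for the first-order term. -/

namespace Pool.Agent.P.MP_039ae7_nt

open Matrix Finset Filter Topology MeasureTheory

/-- The limit of the modulated overlap kernel. -/
noncomputable def GI (τ : ℝ) (x x' : ℤ) : ℂ := (1 / 2) *
  ((JJ (1 / 2 + τ) (x - x') - JJ (1 / 2) (x - x')) * ee (τ * x') +
    (JJ 1 (x - x') - JJ (1 / 2 + τ) (x - x')) * ee ((τ + 1 / 2) * x'))

lemma continuous_GI (x x' : ℤ) : Continuous fun τ => GI τ x x' := by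
  have h1 := continuous_JJ (x - x')
  have h2 := continuous_ee
  unfold GI
  fun_prop

lemma GG_approx {l : ℕ} [NeZero l] {n : ℕ} (hn : n ≤ 2 * l) (x x' : ℤ) :
    ‖GG (n : ZMod (4 * l)) x x' - GI (n / (4 * l : ℕ)) x x'‖ ≤
      2 * (2 * Real.pi * |(x - x' : ℝ)| / (4 * l : ℕ)) := by
  have hl : 0 < l := NeZero.pos l
  have hl' : (l : ℝ) ≠ 0 := by positivity
  have h1 := Phi_approx' (M := 4 * l) (k := 2 * l + n) (by omega) (by omega) (x - x')
  have h2 := Phi_approx' (M := 4 * l) (k := 2 * l) (by omega) (by omega) (x - x')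
  have h3 := Phi_approx' (M := 4 * l) (k := 4 * l) (by omega) (by omega) (x - x')
  rw [show ((2 * l + n : ℕ) : ℝ) / (4 * l : ℕ) = 1 / 2 + n / (4 * l : ℕ) by
    push_cast; field_simp; ring] at h1
  rw [show ((2 * l : ℕ) : ℝ) / (4 * l : ℕ) = 1 / 2 by push_cast; field_simp; norm_num] at h2
  rw [show ((4 * l : ℕ) : ℝ) / (4 * l : ℕ) = 1 by push_cast; field_simp] at h3
  rw [GG_nat hn, GI, show ((n : ℝ) + 2 * l) * x' / (4 * l : ℕ) =
    (n / (4 * l : ℕ) + 1 / 2) * x' by push_cast; field_simp; ring, mul_div_right_comm]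
  generalize Phi (4 * l) (2 * l + n) (x - x') = a1 at *
  generalize Phi (4 * l) (2 * l) (x - x') = a2 at *
  generalize Phi (4 * l) (4 * l) (x - x') = a3 at *
  generalize JJ (1 / 2 + n / (4 * l : ℕ)) (x - x') = b1 at *
  generalize JJ (1 / 2) (x - x') = b2 at *
  generalize JJ 1 (x - x') = b3 at *
  have e1 := norm_ee ((n : ℝ) / (4 * l : ℕ) * x')
  have e2 := norm_ee (((n : ℝ) / (4 * l : ℕ) + 1 / 2) * x')
  generalize ee ((n : ℝ) / (4 * l : ℕ) * x') = c1 at *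
  generalize ee (((n : ℝ) / (4 * l : ℕ) + 1 / 2) * x') = c2 at *
  rw [show 1 / 2 * ((a1 - a2) * c1 + (a3 - a1) * c2) - 1 / 2 * ((b1 - b2) * c1 + (b3 - b1) * c2)
    = 1 / 2 * (((a1 - b1) - (a2 - b2)) * c1 + ((a3 - b3) - (a1 - b1)) * c2) by ring, norm_mul]
  have h4 := norm_add_le (((a1 - b1) - (a2 - b2)) * c1) (((a3 - b3) - (a1 - b1)) * c2)
  rw [norm_mul, norm_mul, e1, e2] at h4
  have h5 := norm_sub_le (a1 - b1) (a2 - b2)
  have h6 := norm_sub_le (a3 - b3) (a1 - b1)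
  rw [show ‖(1 / 2 : ℂ)‖ = 1 / 2 by simp]
  linarith

/-- Powers of `i`. -/
noncomputable def i4 (k : ℤ) : ℂ :=
  if k % 4 = 0 then 1 else if k % 4 = 1 then Complex.I else if k % 4 = 2 then -1 else -Complex.I

lemma ee_int (k : ℤ) : ee k = 1 := by
  unfold ee
  rw [show (2 * Real.pi * Complex.I * (k : ℝ) : ℂ) = k * (2 * Real.pi * Complex.I) by
    push_cast; ring, Complex.exp_int_mul_two_pi_mul_I]

lemma ee_quarter (k : ℤ) : ee (k / 4) = i4 k := by
  have h1 : ee (1 / 4) = Complex.I := by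
    unfold ee
    rw [show (2 * Real.pi * Complex.I * (1 / 4 : ℝ) : ℂ) = Real.pi / 2 * Complex.I by
      push_cast; ring, Complex.exp_pi_div_two_mul_I]
  have h2 : ee (2 / 4) = -1 := by
    rw [show (2 / 4 : ℝ) = 1 / 4 + 1 / 4 by norm_num, ee_add, h1]; simp
  have h3 : ee (3 / 4) = -Complex.I := by
    rw [show (3 / 4 : ℝ) = 2 / 4 + 1 / 4 by norm_num, ee_add, h1, h2]; simp
  have h : ee (k / 4) = ee ((k % 4 : ℤ) / 4) := by
    conv_lhs => rw [← Int.emod_add_mul_ediv k 4]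
    push_cast
    rw [add_div, ee_add, show 4 * ((k / 4 : ℤ) : ℝ) / 4 = (k / 4 : ℤ) by ring, ee_int, mul_one]
  rw [h, i4]
  rcases (by omega : k % 4 = 0 ∨ k % 4 = 1 ∨ k % 4 = 2 ∨ k % 4 = 3) with h | h | h | h <;>
    simp [h, h2, h3, ← h1]

/-- The scaled entries at a quarter. -/
noncomputable def E4 (x x' : ℤ) : ℂ := if x = x' then Real.pi / 2 * (i4 x' + i4 (3 * x')) else
  ((i4 (3 * (x - x')) - i4 (2 * (x - x'))) * i4 x' +
    (i4 (4 * (x - x')) - i4 (3 * (x - x'))) * i4 (3 * x')) * (-Complex.I) / (x - x')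

lemma GI_quarter (x x' : ℤ) : GI (1 / 4) x x' = (4 * Real.pi : ℂ)⁻¹ * E4 x x' := by
  have hp : (Real.pi : ℂ) ≠ 0 := by simp [Real.pi_ne_zero]
  rw [GI, E4, show (1 / 4 : ℝ) * x' = x' / 4 by ring,
    show (1 / 4 + 1 / 2 : ℝ) * x' = (3 * x' : ℤ) / 4 by push_cast; ring, ee_quarter, ee_quarter]
  split_ifs with h
  · simp only [h, sub_self, JJ_zero]; push_cast; field_simp; ring
  · have hu : (x - x' : ℝ) ≠ 0 := by
      rw [sub_ne_zero]; exact_mod_cast h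
    have hu' : (x - x' : ℂ) ≠ 0 := by exact_mod_cast hu
    rw [JJ_ne _ hu, JJ_ne _ hu, JJ_ne _ hu,
      show (1 / 2 + 1 / 4 : ℝ) * (x - x') = (3 * (x - x') : ℤ) / 4 by push_cast; ring,
      show (1 / 2 : ℝ) * (x - x') = (2 * (x - x') : ℤ) / 4 by push_cast; ring,
      show (1 : ℝ) * (x - x') = (4 * (x - x') : ℤ) / 4 by push_cast; ring,
      ee_quarter, ee_quarter, ee_quarter]
    push_cast
    field_simp
    linear_combination (4 * ((i4 (3 * (x - x')) - i4 (2 * (x - x'))) * i4 x' +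
      (i4 (4 * (x - x')) - i4 (3 * (x - x'))) * i4 (3 * x'))) * Complex.I_sq

lemma det_E4 (a : ℤ) (ha : a = 0 ∨ a = 1) :
    (Matrix.of fun i j : Fin 6 => E4 (a + (i : ℕ)) (a + (j : ℕ))).det =
      (24 * Real.pi / 5 - 2048 / 135) ^ 2 := by
  rcases ha with rfl | rfl
  · rw [← det6_gen Real.pi Complex.I Complex.I_sq]
    congr 1
    ext i j
    fin_cases i <;> fin_cases j <;> simp [E4, i4] <;> ring_nf <;> simp <;> ring
  · rw [← det6_gen' Real.pi Complex.I Complex.I_sq]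
    congr 1
    ext i j
    fin_cases i <;> fin_cases j <;> simp [E4, i4] <;> ring_nf <;> simp <;> ring

lemma det_GI_pos (a : ℤ) (ha : a = 0 ∨ a = 1) :
    (Matrix.of fun i j : Fin 6 => GI (1 / 4) (a + (i : ℕ)) (a + (j : ℕ))).det =
      (((4 * Real.pi)⁻¹ ^ 6 * (24 * Real.pi / 5 - 2048 / 135) ^ 2 : ℝ) : ℂ) := by
  have : (Matrix.of fun i j : Fin 6 => GI (1 / 4) (a + (i : ℕ)) (a + (j : ℕ))) =
      (4 * Real.pi : ℂ)⁻¹ • Matrix.of fun i j : Fin 6 => E4 (a + (i : ℕ)) (a + (j : ℕ)) := by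
    ext i j; simp only [of_apply, GI_quarter, Matrix.smul_apply, smul_eq_mul]
  rw [this, det_smul, det_E4 a ha]
  simp

theorem exists_params : ∃ δ : ℝ, 0 < δ ∧ ∃ b B0 : ℕ, 3 ≤ b ∧ ∀ (B l : ℕ) [NeZero l], B0 ≤ B →
    l = b * B → ∀ a : ℤ, a = 0 ∨ a = 1 → ∀ w : Fin 6 → ℤ, (∀ i, |w i| < B) →
      δ ≤ (Matrix.of fun i j : Fin 6 => GG ((l + w i : ℤ) : ZMod (4 * l))
        ((a + (i : ℕ) : ℤ) : ZMod (4 * l)) ((a + (j : ℕ) : ℤ) : ZMod (4 * l))).det.re := by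
  set δ : ℝ := (4 * Real.pi)⁻¹ ^ 6 * (24 * Real.pi / 5 - 2048 / 135) ^ 2 with hδ
  have hδ0 : 0 < δ := by
    have h1 := Real.pi_pos
    have h2 := Real.pi_lt_d2
    have : 24 * Real.pi / 5 - 2048 / 135 ≠ 0 := by intro h; linarith
    positivity
  have key : ∀ a : ℤ, a = 0 ∨ a = 1 → ∃ η > 0, ∀ (τ : Fin 6 → ℝ) (E : Fin 6 → Fin 6 → ℂ),
      (∀ i, |τ i - 1 / 4| < η) → (∀ i j, ‖E i j‖ < η) → δ / 2 ≤
      (Matrix.of fun i j : Fin 6 => GI (τ i) (a + (i : ℕ)) (a + (j : ℕ)) + E i j).det.re := by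
    intro a ha
    have hc : Continuous fun q : (Fin 6 → ℝ) × (Fin 6 → Fin 6 → ℂ) =>
        (Matrix.of fun i j : Fin 6 => GI (q.1 i) (a + (i : ℕ)) (a + (j : ℕ)) + q.2 i j).det.re := by
      refine Complex.continuous_re.comp (Continuous.matrix_det ?_)
      refine continuous_pi fun i => continuous_pi fun j => ?_
      exact ((continuous_GI _ _).comp (by fun_prop)).add (by fun_prop)
    obtain ⟨η, hη, h⟩ := Metric.continuousAt_iff.1
      (hc.continuousAt (x := (fun _ => 1 / 4, 0))) (δ / 2) (by positivity)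
    refine ⟨η, hη, fun τ E h1 h2 => ?_⟩
    have := @h (τ, E) (by
      rw [Prod.dist_eq, max_lt_iff, dist_pi_lt_iff hη, dist_pi_lt_iff hη]
      refine ⟨h1, fun i => ?_⟩
      rw [dist_pi_lt_iff hη]
      simpa using h2 i)
    simp only [Pi.zero_apply, add_zero, det_GI_pos a ha, Complex.ofReal_re, Real.dist_eq,
      abs_lt] at this
    linarith [this.1]
  obtain ⟨η0, hη0, h0⟩ := key 0 (Or.inl rfl)
  obtain ⟨η1, hη1, h1⟩ := key 1 (Or.inr rfl)
  set η := min η0 η1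
  have hη : 0 < η := lt_min hη0 hη1
  obtain ⟨b, hb⟩ := exists_nat_gt (max 3 η⁻¹)
  obtain ⟨B0, hB0⟩ := exists_nat_gt (24 * Real.pi / η)
  have hb3 : (3 : ℝ) < b := (le_max_left _ _).trans_lt hb
  have hb4 : η⁻¹ < b := (le_max_right _ _).trans_lt hb
  refine ⟨δ / 2, by positivity, b, B0, by exact_mod_cast hb3.le, fun B l _ hB hl a ha w hw => ?_⟩
  have hl0 : (0 : ℝ) < l := by exact_mod_cast NeZero.pos l
  have hBl : B ≤ l := by rw [hl]; exact Nat.le_mul_of_pos_left _ (by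
    have : (0 : ℝ) < b := by linarith
    exact_mod_cast this)
  have hn : ∀ i, ∃ n : ℕ, (n : ℤ) = l + w i ∧ n ≤ 2 * l := fun i => by
    have := abs_lt.1 (hw i)
    exact ⟨(l + w i).toNat, by omega, by omega⟩
  choose n hn1 hn2 using hn
  have e : (Matrix.of fun i j : Fin 6 => GG ((l + w i : ℤ) : ZMod (4 * l))
        ((a + (i : ℕ) : ℤ) : ZMod (4 * l)) ((a + (j : ℕ) : ℤ) : ZMod (4 * l))) =
      Matrix.of fun i j : Fin 6 => GI (n i / (4 * l : ℕ)) (a + (i : ℕ)) (a + (j : ℕ)) +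
        (GG (n i : ZMod (4 * l)) ((a + (i : ℕ) : ℤ) : ZMod (4 * l))
          ((a + (j : ℕ) : ℤ) : ZMod (4 * l)) -
          GI (n i / (4 * l : ℕ)) (a + (i : ℕ)) (a + (j : ℕ))) := by
    ext i j
    simp only [of_apply, ← hn1, Int.cast_natCast, add_sub_cancel]
  have t1 : ∀ i, |(n i : ℝ) / (4 * l : ℕ) - 1 / 4| < η := by
    intro i
    have h2 : (n i : ℝ) = l + w i := by exact_mod_cast hn1 i
    have h3 : |(w i : ℝ)| < B := by exact_mod_cast hw i
    have h4 : (l : ℝ) = b * B := by exact_mod_cast hl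
    rw [show (n i : ℝ) / (4 * l : ℕ) - 1 / 4 = w i / (4 * l) by
      rw [h2]; push_cast; field_simp; ring, abs_div, abs_of_pos (by positivity : (0 : ℝ) < 4 * l),
      div_lt_iff₀ (by positivity)]
    have h5 : 1 < η * b := by rwa [inv_lt_iff_one_lt_mul₀' hη] at hb4
    have h6 : (0 : ℝ) ≤ B := by positivity
    rw [h4]; nlinarith
  have t2 : ∀ i j : Fin 6, ‖GG (n i : ZMod (4 * l)) ((a + (i : ℕ) : ℤ) : ZMod (4 * l))
      ((a + (j : ℕ) : ℤ) : ZMod (4 * l)) -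
      GI (n i / (4 * l : ℕ)) (a + (i : ℕ)) (a + (j : ℕ))‖ < η := by
    intro i j
    refine (GG_approx (hn2 i) _ _).trans_lt ?_
    have h2 : |((a + (i : ℕ) : ℤ) : ℝ) - (a + (j : ℕ) : ℤ)| ≤ 6 := by
      have h3 : ((i : ℕ) : ℝ) ≤ 6 := by exact_mod_cast i.2.le
      have h4 : ((j : ℕ) : ℝ) ≤ 6 := by exact_mod_cast j.2.le
      have h5 : (0 : ℝ) ≤ (i : ℕ) := by positivity
      have h6 : (0 : ℝ) ≤ (j : ℕ) := by positivity
      push_cast
      rw [abs_le]; constructor <;> linarith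
    have h3 : (B0 : ℝ) ≤ l := by exact_mod_cast hB.trans hBl
    rw [div_lt_iff₀ hη] at hB0
    push_cast
    rw [← mul_div_assoc, div_lt_iff₀ (by positivity)]
    push_cast at h2
    have := Real.pi_pos
    nlinarith
  rw [e]
  rcases ha with rfl | rfl
  · exact h0 _ _ (fun i => (t1 i).trans_le (min_le_left _ _))
      fun i j => (t2 i j).trans_le (min_le_left _ _)
  · exact h1 _ _ (fun i => (t1 i).trans_le (min_le_right _ _))
      fun i j => (t2 i j).trans_le (min_le_right _ _)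

end Pool.Agent.P.MP_039ae7_nt
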