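import Pool.Agent.P.MP_039ae7_nt.Spectral

/-! The first-order change of the six-point function. -/

namespace Pool.Agent.P.MP_039ae7_nt

open Matrix Finset

lemma det_mul_expand {k : ℕ} {ι : Type*} [Fintype ι] [DecidableEq ι] (V : Matrix (Fin k) ι ℂ)
    (G : Matrix ι (Fin k) ℂ) :
    (V * G).det = ∑ f : Fin k → ι, (∏ b, G (f b) b) * (V.submatrix id f).det := by
  simp only [det_apply', mul_apply, Finset.prod_univ_sum, Finset.mul_sum, Fintype.piFinset_univ]
  rw [Finset.sum_comm]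
  refine Finset.sum_congr rfl fun f _ => Finset.sum_congr rfl fun σ _ => ?_
  simp only [Finset.prod_mul_distrib, submatrix_apply, id]
  ring

lemma cauchy_binet {k : ℕ} {ι : Type*} [Fintype ι] [DecidableEq ι] (V : Matrix (Fin k) ι ℂ)
    (G : Matrix ι (Fin k) ℂ) :
    (k.factorial : ℂ) * (V * G).det
      = ∑ f : Fin k → ι, (G.submatrix f id).det * (V.submatrix id f).det := by
  have h1 : ∀ τ : Equiv.Perm (Fin k), (V * G).det = ∑ f : Fin k → ι,
      ((Equiv.Perm.sign τ : ℤ) * ∏ b, G (f (τ b)) b) * (V.submatrix id f).det := by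
    intro τ
    rw [det_mul_expand]
    rw [← (Equiv.arrowCongr τ.symm (Equiv.refl ι)).sum_comp]
    refine Finset.sum_congr rfl fun f _ => ?_
    have e : (Equiv.arrowCongr τ.symm (Equiv.refl ι)) f = f ∘ τ := by
      funext b; simp
    rw [e]
    have : V.submatrix id (f ∘ τ) = (V.submatrix id f).submatrix id τ := rfl
    rw [this, det_permute']
    simp only [Function.comp]
    ring
  have h2 : (k.factorial : ℂ) * (V * G).det = ∑ _τ : Equiv.Perm (Fin k), (V * G).det := by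
    simp [Fintype.card_perm]
  rw [h2, Finset.sum_congr rfl fun τ _ => h1 τ, Finset.sum_comm]
  refine Finset.sum_congr rfl fun f _ => ?_
  rw [← Finset.sum_mul, det_apply' (G.submatrix f id)]
  rfl

lemma det_sum_rows {n ι : Type*} [Fintype n] [DecidableEq n] [Fintype ι] (c : ι → ℂ)
    (g : ι → n → n → ℂ) : (Matrix.of fun i j => ∑ ω, c ω * g ω i j).det =
      ∑ r : n → ι, (∏ i, c (r i)) * (Matrix.of fun i j => g (r i) i j).det := by
  have := (detRowAlternating (n := n) (R := ℂ)).toMultilinearMap.map_sum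
    (fun (i : n) (ω : ι) (j : n) => c ω * g ω i j)
  refine Eq.trans (congrArg det ?_) (this.trans (Finset.sum_congr rfl fun r _ =>
    det_mul_column (fun i => c (r i)) (Matrix.of fun i j => g (r i) i j)))
  ext i j
  simp only [of_apply, Finset.sum_apply]

variable {l : ℕ} [NeZero l]

/-- The modulated overlap kernel. -/
noncomputable def GG (s x x' : ZMod (4 * l)) : ℂ :=
  ∑ t : Ev l, Km (RR l) x t.1 * ch (s * t.1) * Kp (RR l) t.1 x'

/-- Its symbol. -/
def sym (s p : ZMod (4 * l)) : ℂ :=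
  (if p.val < 2 * l then 0 else 1) * if (p - s).val < 2 * l then 1 else 0

lemma GG_eq (s x x' : ZMod (4 * l)) : GG s x x' = (1 / 2) * (circ (sym s) x x' * ch (s * x') +
    circ (sym (s + ((2 * l : ℕ) : ZMod (4 * l)))) x x' *
      ch ((s + ((2 * l : ℕ) : ZMod (4 * l))) * x')) := by
  have h : ∀ s : ZMod (4 * l), ∑ t, Km (RR l) x t * ch (s * t) * Kp (RR l) t x' =
      circ (sym s) x x' * ch (s * x') := by
    intro s
    simp only [mul_assoc, Kp_RR, Km_RR, ch_mul_circ]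
    simp only [← mul_assoc, ← Finset.sum_mul]
    rw [← mul_apply, circ_mul]; rfl
  rw [GG, sum_ev l fun t => Km (RR l) x t * ch (s * t) * Kp (RR l) t x', ← h, ← h,
    ← Finset.sum_add_distrib, Finset.mul_sum]
  refine Finset.sum_congr rfl fun t _ => ?_
  rw [add_mul s, ch_add]; ring

lemma GG_shift (s x x' : ZMod (4 * l)) (b : Ev l) :
    GG s (x + b.1) (x' + b.1) = ch (s * b.1) * GG s x x' := by
  have : (s + (2 * l : ℕ)) * (x' + b.1) = (s + (2 * l : ℕ)) * x' + s * b.1 := by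
    linear_combination b.2
  rw [GG_eq, GG_eq, circ_shift, circ_shift, this, mul_add s, ch_add, ch_add]; ring

lemma GG_nat {n : ℕ} (hn : n ≤ 2 * l) (x x' : ℤ) : GG (n : ZMod (4 * l)) x x' = (1 / 2) *
    ((Phi (4 * l) (2 * l + n) (x - x') - Phi (4 * l) (2 * l) (x - x')) *
      ee (n * x' / (4 * l : ℕ)) +
    (Phi (4 * l) (4 * l) (x - x') - Phi (4 * l) (2 * l + n) (x - x')) *
      ee ((n + 2 * l) * x' / (4 * l : ℕ))) := by
  have h1 : sym (n : ZMod (4 * l)) = fun p => 1 * (if p.val < 2 * l + n then 1 else 0) +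
      (-1) * if p.val < 2 * l then 1 else 0 := by
    funext p
    have hp := ZMod.val_lt p
    rw [sym, val_sub_nat p (by omega)]
    split_ifs <;> first | omega | simp
  have h2 : sym ((n : ZMod (4 * l)) + ((2 * l : ℕ) : ZMod (4 * l))) = fun p =>
      1 * (if p.val < 4 * l then 1 else 0) + (-1) * if p.val < 2 * l + n then 1 else 0 := by
    funext p
    have hp := ZMod.val_lt p
    rw [sym, ← Nat.cast_add, val_sub_nat p (by omega)]
    split_ifs <;> first | omega | simp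
  have h3 := ch_int (M := 4 * l) (n * x')
  have h4 := ch_int (M := 4 * l) ((n + (2 * l : ℕ)) * x')
  rw [Int.cast_mul, Int.cast_natCast] at h3
  rw [Int.cast_mul, Int.cast_add, Int.cast_natCast, Int.cast_natCast] at h4
  rw [GG_eq, h1, h2, circ_lin, circ_lin, h3, h4]
  simp only [Matrix.add_apply, Matrix.smul_apply, smul_eq_mul]
  rw [circ_lt (by omega), circ_lt (by omega), circ_lt le_rfl]
  push_cast; ring

lemma sum_y_det (h : Ev l → ℝ) (x : Fin 6 → ZMod (4 * l)) :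
    ∑ y : Fin 6 → Ev l, (∏ i, h (y i) : ℝ) * (blk (RR l) x fun i => (y i).1).det =
      46080 * (Matrix.of fun i j =>
        ∑ t : Ev l, Km (RR l) (x i) t.1 * h t * Kp (RR l) t.1 (x j)).det := by
  have h1 := cauchy_binet (Matrix.of fun i (t : Ev l) => h t * Km (RR l) (x i) t.1)
    (Matrix.of fun (t : Ev l) j => Kp (RR l) t.1 (x j))
  have h2 : (Matrix.of fun i (t : Ev l) => (h t : ℂ) * Km (RR l) (x i) t.1) *
      (Matrix.of fun (t : Ev l) j => Kp (RR l) t.1 (x j)) = Matrix.of fun i j =>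
        ∑ t : Ev l, Km (RR l) (x i) t.1 * h t * Kp (RR l) t.1 (x j) := by
    ext i j; simp [mul_apply, mul_comm]
  rw [h2] at h1
  rw [show (46080 : ℂ) = 2 ^ 6 * (Nat.factorial 6 : ℕ) by norm_num [Nat.factorial], mul_assoc,
    h1, Finset.mul_sum]
  refine Finset.sum_congr rfl fun y _ => ?_
  have h3 := det_mul_row (fun i => (h (y i) : ℂ)) ((Km (RR l)).submatrix x fun i => (y i).1)
  rw [blk_det_square, det_smul, Fintype.card_fin]
  have h4 : (Matrix.of fun i (t : Ev l) => (h t : ℂ) * Km (RR l) (x i) t.1).submatrix id y =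
    Matrix.of fun i j => (h (y j) : ℂ) * (Km (RR l)).submatrix x (fun i => (y i).1) i j := rfl
  have h5 : (Matrix.of fun (t : Ev l) j => Kp (RR l) t.1 (x j)).submatrix y id =
    (Kp (RR l)).submatrix (fun i => (y i).1) x := rfl
  rw [h4, h3, h5]
  push_cast; ring

theorem gap_lower {B : ℕ} (hB : 0 < B) {δ : ℝ} (hδ0 : 0 ≤ δ)
    (hδ : ∀ a : ℤ, a = 0 ∨ a = 1 → ∀ w : Fin 6 → ℤ, (∀ i, |w i| < B) →
      δ ≤ (Matrix.of fun i j : Fin 6 => GG ((l + w i : ℤ) : ZMod (4 * l))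
        ((a + (i : ℕ) : ℤ) : ZMod (4 * l)) ((a + (j : ℕ) : ℤ) : ZMod (4 * l))).det.re)
    (a : ZMod (4 * l)) :
    46080 * δ ≤ (∑ c, ∑ y : Fin 6 → Ev l, ((∏ i, hh B c (y i) : ℝ) : ℂ) *
      (blk (RR l) (fun i : Fin 6 => a + (i : ℕ)) fun i => (y i).1).det).re := by
  let a0 : ℤ := (a.val % 2 : ℕ)
  have ha0 : a0 = 0 ∨ a0 = 1 := by omega
  let b : Ev l := ⟨a - a0, by
    have : a - a0 = ((2 * (a.val / 2) : ℕ) : ZMod (4 * l)) := by
      conv_lhs => rw [← ZMod.natCast_zmod_val a, ← Nat.div_add_mod a.val 2]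
      simp only [a0, Int.cast_natCast, Nat.cast_add, add_sub_cancel_right]
    rw [this, ← Nat.cast_mul, show 2 * l * (2 * (a.val / 2)) = 4 * l * (a.val / 2) by ring]
    rw [Nat.cast_mul, ZMod.natCast_self, zero_mul]⟩
  have hb : ∀ i : Fin 6, a + (i : ℕ) = ((a0 + (i : ℕ) : ℤ) : ZMod (4 * l)) + b.1 := by
    intro i; simp only [b]; push_cast; ring
  let κ : (Fin 6 → Fin B × Fin B) → ℝ := fun ω =>
    if ∑ i, ((om (ω i) : ℤ) : ZMod (4 * l)) = 0 then (((B : ℝ) ^ 2)⁻¹) ^ 6 * (4 * l : ℕ) else 0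
  have hκ : ∀ ω, ∑ c : ZMod (4 * l), ∏ i, (((B : ℂ) ^ 2)⁻¹ *
      ch (-((om (ω i) : ℤ) : ZMod (4 * l)) * c)) = κ ω := by
    intro ω
    simp only [Finset.prod_mul_distrib, ← ch_sum, ← Finset.sum_mul, ← Finset.mul_sum,
      Finset.sum_neg_distrib, mul_comm (-_ : ZMod (4 * l)), sum_ch, neg_eq_zero, κ]
    split_ifs <;> simp
  have hκ1 : 1 ≤ ∑ ω, κ ω := by
    have : ((∑ ω, κ ω : ℝ) : ℂ) = ((∑ c : ZMod (4 * l), aR B c ^ 6 : ℝ) : ℂ) := by
      push_cast
      simp only [← hκ]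
      rw [Finset.sum_comm, ← Equiv.sum_comp (Equiv.neg _)]
      refine Finset.sum_congr rfl fun c _ => ?_
      rw [← Fin.prod_const 6 (aR B c : ℂ), aR_coe, Finset.prod_univ_sum, Fintype.piFinset_univ]
      simp
    rw [Complex.ofReal_injective this]
    calc (1 : ℝ) = aR B (0 : ZMod (4 * l)) ^ 6 := by rw [aR_zero hB, one_pow]
      _ ≤ _ := Finset.single_le_sum (f := fun c : ZMod (4 * l) => aR B c ^ 6)
        (fun c _ => pow_nonneg (aR_nonneg _ _) _) (Finset.mem_univ _)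
  have h1 : ∀ c, (Matrix.of fun i j : Fin 6 => ∑ t : Ev l, Km (RR l) (a + (i : ℕ)) t.1 *
      hh B c t * Kp (RR l) t.1 (a + (j : ℕ))).det = ∑ ω : Fin 6 → Fin B × Fin B,
      (∏ i, (((B : ℂ) ^ 2)⁻¹ * ch (-((om (ω i) : ℤ) : ZMod (4 * l)) * c))) *
      (Matrix.of fun i j : Fin 6 => GG ((l + om (ω i) : ℤ) : ZMod (4 * l))
        (a + (i : ℕ)) (a + (j : ℕ))).det := by
    intro c
    refine Eq.trans (congrArg det ?_) (det_sum_rows
      (fun ω : Fin B × Fin B => ((B : ℂ) ^ 2)⁻¹ * ch (-((om ω : ℤ) : ZMod (4 * l)) * c))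
      fun ω (i j : Fin 6) => GG ((l + om ω : ℤ) : ZMod (4 * l)) (a + (i : ℕ)) (a + (j : ℕ)))
    ext i j
    simp only [of_apply, hh_coe, GG, Finset.mul_sum, Finset.sum_mul]
    rw [Finset.sum_comm]
    exact Finset.sum_congr rfl fun ω _ => Finset.sum_congr rfl fun t _ => by ring
  simp only [sum_y_det, h1, ← Finset.mul_sum]
  rw [Finset.sum_comm]
  simp only [← Finset.sum_mul, hκ]
  rw [show (46080 : ℂ) = ((46080 : ℝ) : ℂ) by norm_num, Complex.re_ofReal_mul, Complex.re_sum]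
  refine mul_le_mul_of_nonneg_left ?_ (by norm_num)
  calc δ ≤ (∑ ω, κ ω) * δ := le_mul_of_one_le_left hδ0 hκ1
    _ = ∑ ω, κ ω * δ := Finset.sum_mul _ _ _
    _ ≤ _ := Finset.sum_le_sum fun ω _ => ?_
  rw [Complex.re_ofReal_mul]
  by_cases h0 : ∑ i, ((om (ω i) : ℤ) : ZMod (4 * l)) = 0
  · refine mul_le_mul_of_nonneg_left ?_ (by simp only [κ, h0, if_true]; positivity)
    simp only [hb, GG_shift]
    have h2 := det_mul_column (fun i => ch (((l + om (ω i) : ℤ) : ZMod (4 * l)) * b.1))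
      (Matrix.of fun i j : Fin 6 => GG ((l + om (ω i) : ℤ) : ZMod (4 * l))
        ((a0 + (i : ℕ) : ℤ) : ZMod (4 * l)) ((a0 + (j : ℕ) : ℤ) : ZMod (4 * l)))
    have h3 : ∑ i, ((l + om (ω i) : ℤ) : ZMod (4 * l)) * b.1 = 0 := by
      have := b.2
      push_cast at this ⊢
      rw [← Finset.sum_mul, Finset.sum_add_distrib, h0]
      simp only [Finset.sum_const, Finset.card_univ, Fintype.card_fin, nsmul_eq_mul]
      push_cast
      linear_combination 3 * this
    rw [← ch_sum, h3, ch_zero, one_mul] at h2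
    simp only [of_apply] at h2
    rw [h2]
    exact hδ a0 ha0 _ fun i => abs_om _
  · simp [κ, h0]

end Pool.Agent.P.MP_039ae7_nt
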