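import Pool.Agent.P.MP_039ae7_nt.Poisson

/-! Test functions in the chart `y ↦ (0, y)`. -/

namespace Pool.Agent.P.MP_039ae7_nt

open Filter Topology MeasureTheory FourierTransform

/-- What is used about a test function. -/
structure Nice (m : ℕ) (g : (Fin m → ℝ) → ℂ) : Prop where
  summ : Summable fun z : Fin m → ℤ => ‖g fun i => (z i : ℝ) / 2‖
  intg : Integrable g
  pois : ∀ θ : Fin m → ℝ, (∀ i, |θ i| ≤ 1 / 2) →
    HasSum (fun z : Fin m → ℤ => g (fun i => (z i : ℝ) / 2) * ee (∑ i, θ i * z i))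
      (2 ^ m * ∫ y, g y * ee (∑ i, θ i * (2 * y i)))
  supp : ∀ θ : Fin m → ℝ, ∫ y, g y * ee (∑ i, θ i * (2 * y i)) ≠ 0 →
    |∑ i, θ i| + ∑ i, |θ i| < 1

lemma nice_of_schwartz {m : ℕ} (g : SchwartzMap (EuclideanSpace ℝ (Fin m)) ℂ)
    (hs : ∀ ξ : Fin m → ℝ, 𝓕 (fun y => g y) (WithLp.toLp 2 ξ) ≠ 0 →
      |∑ i, ξ i| + ∑ i, |ξ i| < 2) : Nice m fun y => g (WithLp.toLp 2 y) := by
  have key : ∀ θ : Fin m → ℝ, 𝓕 (fun y => g y) (WithLp.toLp 2 fun i => -2 * θ i) =
      ∫ y : Fin m → ℝ, g (WithLp.toLp 2 y) * ee (∑ i, θ i * (2 * y i)) := by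
    intro θ
    rw [fourier_eq_ee]
    refine integral_congr_ae (Eventually.of_forall fun y => ?_)
    simp only
    congr 2
    rw [← Finset.sum_neg_distrib]
    exact Finset.sum_congr rfl fun i _ => by ring
  refine ⟨summable_lattice g, ?_, fun θ hθ => ?_, fun θ h => ?_⟩
  · exact ((PiLp.volume_preserving_toLp (Fin m)).integrable_comp_emb
      (MeasurableEquiv.toLp 2 (Fin m → ℝ)).measurableEmbedding).2 g.integrable
  · rw [← key]
    refine poisson g (fun ξ h i => ?_) θ hθ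
    have h1 := hs ξ h
    have h2 : ξ i = ∑ j, ξ j - ∑ j ∈ Finset.univ.erase i, ξ j := by
      rw [← Finset.add_sum_erase _ _ (Finset.mem_univ i)]; ring
    have h3 : ∑ j, |ξ j| = |ξ i| + ∑ j ∈ Finset.univ.erase i, |ξ j| :=
      (Finset.add_sum_erase _ (fun j => |ξ j|) (Finset.mem_univ i)).symm
    have h4 := Finset.abs_sum_le_sum_abs ξ (Finset.univ.erase i)
    have h5 : |ξ i| ≤ |∑ j, ξ j| + |∑ j ∈ Finset.univ.erase i, ξ j| := by
      conv_lhs => rw [h2]
      exact abs_sub _ _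
    linarith
  · rw [← key] at h
    have := hs _ h
    simp only [← Finset.mul_sum, abs_mul] at this
    norm_num at this
    linarith

/-- The chart of the hyperplane. -/
noncomputable def chart (m : ℕ) : EuclideanSpace ℝ (Fin m) ≃ₗ[ℝ] hyper (m + 1) where
  toFun y := ⟨WithLp.toLp 2 fun i =>
      (Fin.cons 0 (fun j => y j) : Fin (m + 1) → ℝ) i - (∑ j, y j) / (m + 1), by
    change ∑ i, _ = _
    simp only [Finset.sum_sub_distrib, Fin.sum_univ_succ, Fin.cons_zero, Fin.cons_succ,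
      Finset.sum_const, Finset.card_univ, Fintype.card_fin, nsmul_eq_mul]
    push_cast; field_simp; ring⟩
  invFun h := WithLp.toLp 2 fun j => h.1 j.succ - h.1 0
  map_add' x y := by
    ext i
    refine Fin.cases ?_ (fun j => ?_) i <;> simp [Finset.sum_add_distrib] <;> ring
  map_smul' c x := by
    ext i
    refine Fin.cases ?_ (fun j => ?_) i <;> simp [← Finset.mul_sum] <;> ring
  left_inv y := by ext j; simp
  right_inv h := by
    have h0 : ∑ i, h.1 i = 0 := h.2
    rw [Fin.sum_univ_succ] at h0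
    have h1 : (∑ j : Fin m, (h.1 j.succ - h.1 0)) / (m + 1) = -h.1 0 := by
      rw [Finset.sum_sub_distrib]
      simp only [Finset.sum_const, Finset.card_univ, Fintype.card_fin, nsmul_eq_mul]
      field_simp; linarith
    ext i
    refine Fin.cases ?_ (fun j => ?_) i <;> simp only [h1] <;> simp

theorem nice_of_test {m : ℕ} {f : (Fin (m + 1) → ℝ) → ℝ} (hf : IsTest (m + 1) f) :
    Nice m fun y => (f (Fin.cons 0 y) : ℂ) := by
  obtain ⟨-, htr, G, hG, hs⟩ := hf
  let Φ := (chart m).toContinuousLinearEquiv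
  let g : SchwartzMap (EuclideanSpace ℝ (Fin m)) ℂ :=
    SchwartzMap.compCLMOfContinuousLinearEquiv ℂ Φ G
  have hg : ∀ y, g y = G (Φ y) := fun y => rfl
  have hg' : ∀ y : Fin m → ℝ, g (WithLp.toLp 2 y) = (f (Fin.cons 0 y) : ℂ) := by
    intro y
    rw [hg, hG, ← htr (-((∑ j, y j) / (m + 1))) (Fin.cons 0 y)]
    rfl
  rw [← funext hg']
  refine nice_of_schwartz g fun ξ hξ => ?_
  let η : hyper (m + 1) := ⟨WithLp.toLp 2 (Fin.cons (-∑ i, ξ i) ξ : Fin (m + 1) → ℝ), by
    change ∑ i, _ = _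
    simp [Fin.sum_univ_succ]⟩
  have hη := hs η
  have h1 : ∑ i, |coords η i| = |∑ i, ξ i| + ∑ i, |ξ i| := by
    simp [coords, η, Fin.sum_univ_succ]
  rw [Set.mem_ofPred_eq, h1] at hη
  refine hη fun h0 => hξ ?_
  have hin : ∀ y : EuclideanSpace ℝ (Fin m),
      inner ℝ y (WithLp.toLp 2 ξ) = inner ℝ (Φ y) η := by
    intro y
    change _ = inner ℝ (chart m y).1 η.1
    simp only [PiLp.inner_apply, RCLike.inner_apply, conj_trivial, chart, η, Fin.sum_univ_succ,
      LinearEquiv.coe_mk, LinearMap.coe_mk, AddHom.coe_mk, Fin.cons_zero, Fin.cons_succ, mul_sub,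
      Finset.sum_sub_distrib, ← Finset.sum_mul]
    ring
  rw [Real.fourier_eq] at h0 ⊢
  simp only [hin, hg]
  have h2 := integral_map_equiv (μ := (volume : Measure (EuclideanSpace ℝ (Fin m))))
    Φ.toHomeomorph.toMeasurableEquiv (fun v => Real.fourierChar (-inner ℝ v η) • G v)
  have h3 : Measure.map Φ.toHomeomorph.toMeasurableEquiv
      (volume : Measure (EuclideanSpace ℝ (Fin m))) = Measure.map Φ volume := rfl
  rw [h3, Measure.isAddLeftInvariant_eq_smul (Measure.map Φ volume) volume,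
    integral_smul_nnreal_measure, h0, smul_zero] at h2
  exact h2.symm

end Pool.Agent.P.MP_039ae7_nt
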