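import Pool.Agent.P.MP_039ae7_nt.Gap
import Pool.Agent.P.MP_039ae7_nt.Det6
import Pool.Agent.P.MP_039ae7_nt.Nice

/-! Limits of the finite kernels. -/

namespace Pool.Agent.P.MP_039ae7_nt

open Matrix Finset Filter Topology MeasureTheory

lemma norm_ee_sub (s t : ℝ) : ‖ee s - ee t‖ ≤ 2 * Real.pi * |s - t| := by
  have h : ee s - ee t = ee t * (Complex.exp (Complex.I * (2 * Real.pi * (s - t) : ℝ)) - 1) := by
    have : ee s = ee t * ee (s - t) := by rw [← ee_add]; congr 1; ring
    rw [this, mul_sub, mul_one]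
    congr 2
    unfold ee; congr 1; push_cast; ring
  rw [h, norm_mul, norm_ee, one_mul]
  refine Real.norm_exp_I_mul_ofReal_sub_one_le.trans (le_of_eq ?_)
  rw [Real.norm_eq_abs, abs_mul, abs_of_pos Real.two_pi_pos]

/-- The limiting kernel. -/
noncomputable def JJ (τ u : ℝ) : ℂ := ∫ t in (0 : ℝ)..τ, ee (t * u)

lemma JJ_int (u a b : ℝ) : IntervalIntegrable (fun t => ee (t * u)) volume a b :=
  (continuous_ee.comp (by fun_prop)).intervalIntegrable _ _

lemma continuous_JJ (u : ℝ) : Continuous fun τ => JJ τ u :=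
  intervalIntegral.continuous_primitive (JJ_int u) 0

lemma JJ_zero (τ : ℝ) : JJ τ 0 = τ := by simp [JJ]

lemma JJ_ne (τ : ℝ) {u : ℝ} (hu : u ≠ 0) :
    JJ τ u = (ee (τ * u) - 1) / (2 * Real.pi * Complex.I * u) := by
  have hc : (2 * Real.pi * Complex.I * u : ℂ) ≠ 0 := by simp [hu, Real.pi_ne_zero]
  have := integral_exp_mul_complex (a := 0) (b := τ) hc
  simp only [Complex.ofReal_zero, mul_zero, Complex.exp_zero] at this
  unfold JJ ee
  push_cast
  simp only [mul_comm (_ : ℂ) (u : ℂ), ← mul_assoc] at this ⊢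
  exact this

lemma Phi_approx {M : ℕ} (hM : 0 < M) (k : ℕ) (u : ℝ) :
    ‖Phi M k u - JJ (k / M) u‖ ≤ k * (2 * Real.pi * |u| / M ^ 2) := by
  have hM' : (0 : ℝ) < M := by exact_mod_cast hM
  induction k with
  | zero => simp [Phi, JJ]
  | succ k ih =>
    have h1 : Phi M (k + 1) u - JJ ((k + 1 : ℕ) / M) u = (Phi M k u - JJ (k / M) u) +
        ∫ t in (k / M : ℝ)..((k + 1 : ℕ) / M), (ee (k * u / M) - ee (t * u)) := by
      rw [intervalIntegral.integral_sub intervalIntegrable_const (JJ_int _ _ _), JJ, JJ,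
        ← intervalIntegral.integral_add_adjacent_intervals (JJ_int u 0 (k / M))
          (JJ_int u _ ((k + 1 : ℕ) / M)), Phi, Phi, Finset.sum_range_succ]
      simp only [intervalIntegral.integral_const, Complex.real_smul]
      push_cast; ring
    have h2 : ‖∫ t in (k / M : ℝ)..((k + 1 : ℕ) / M), (ee (k * u / M) - ee (t * u))‖ ≤
        (2 * Real.pi * |u| / M) * |((k + 1 : ℕ) / M : ℝ) - k / M| := by
      refine intervalIntegral.norm_integral_le_of_norm_le_const fun t ht => ?_
      have hle : (k / M : ℝ) ≤ (k + 1 : ℕ) / M := by gcongr; omega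
      rw [Set.uIoc_of_le hle] at ht
      refine (norm_ee_sub _ _).trans ?_
      rw [show k * u / M - t * u = u * (k / M - t) by ring, abs_mul, mul_div_assoc]
      have h3 : |k / M - t| ≤ 1 / M := by
        have := ht.2
        push_cast at this
        rw [add_div] at this
        rw [abs_le]; constructor <;> linarith [ht.1, one_div_pos.2 hM']
      have : |u| * |k / M - t| ≤ |u| / M := by
        rw [div_eq_mul_one_div |u|]; gcongr
      gcongr
    have h3 : |((k + 1 : ℕ) / M : ℝ) - k / M| = 1 / M := by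
      push_cast; rw [add_div, add_sub_cancel_left, abs_of_pos (by positivity)]
    rw [h1]
    refine (norm_add_le _ _).trans ((add_le_add ih h2).trans (le_of_eq ?_))
    rw [h3]; push_cast; field_simp

lemma Phi_approx' {M k : ℕ} (hM : 0 < M) (hk : k ≤ M) (u : ℝ) :
    ‖Phi M k u - JJ (k / M) u‖ ≤ 2 * Real.pi * |u| / M := by
  have hM' : (0 : ℝ) < M := by exact_mod_cast hM
  refine (Phi_approx hM k u).trans ?_
  calc (k : ℝ) * (2 * Real.pi * |u| / M ^ 2) ≤ M * (2 * Real.pi * |u| / M ^ 2) := by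
        gcongr
    _ = _ := by field_simp

lemma norm_Phi_le {M k : ℕ} (hk : k ≤ M) (u : ℝ) : ‖Phi M k u‖ ≤ 1 := by
  rw [Phi, norm_mul, norm_inv, Complex.norm_natCast]
  have : ‖∑ p ∈ range k, ee (p * u / M)‖ ≤ M :=
    (norm_sum_le _ _).trans (by simpa using hk)
  calc _ ≤ (M : ℝ)⁻¹ * M := by gcongr
    _ ≤ 1 := inv_mul_le_one_of_le₀ le_rfl (by positivity)

lemma JJ_half (y : ℝ) : JJ (1 / 2) (2 * y) = 1 / 2 * ee (y / 2) * sineKer y := by
  by_cases hy : y = 0
  · simp [hy, JJ_zero, sineKer]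
  · rw [JJ_ne _ (mul_ne_zero two_ne_zero hy), sineKer, if_neg hy]
    have h1 : ee (1 / 2 * (2 * y)) = ee (y / 2) * ee (y / 2) := by
      rw [← ee_add]; congr 1; ring
    have h2 : ee (y / 2) * ee (-(y / 2)) = 1 := by rw [← ee_add]; simp
    have h3 : (Real.sin (Real.pi * y) : ℂ) = (ee (-(y / 2)) - ee (y / 2)) * Complex.I / 2 := by
      rw [Complex.ofReal_sin, Complex.sin]
      unfold ee
      congr 4 <;> push_cast <;> ring
    have hp : (Real.pi : ℂ) ≠ 0 := by simp [Real.pi_ne_zero]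
    have hy' : (y : ℂ) ≠ 0 := by simpa using hy
    rw [Complex.ofReal_div, h3, h1]
    push_cast
    field_simp
    linear_combination (-ee (y / 2) * (ee (-(y / 2)) - ee (y / 2))) * Complex.I_sq + h2

/-- The finite-volume correlation determinant at real positions. -/
noncomputable def Theta (M k : ℕ) {n : ℕ} (u : Fin n → ℝ) : ℂ :=
  (Matrix.of fun i j => Phi M k (u i - u j)).det

lemma norm_Theta_le {M k : ℕ} (hk : k ≤ M) {n : ℕ} (u : Fin n → ℝ) :
    ‖Theta M k u‖ ≤ n.factorial := by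
  rw [Theta, det_apply']
  refine (norm_sum_le _ _).trans ?_
  calc _ ≤ ∑ _σ : Equiv.Perm (Fin n), (1 : ℝ) := Finset.sum_le_sum fun σ _ => ?_
    _ = _ := by simp [Fintype.card_perm]
  rw [norm_mul, norm_prod]
  refine mul_le_one₀ ?_ (Finset.prod_nonneg fun _ _ => norm_nonneg _)
    (Finset.prod_le_one (fun _ _ => norm_nonneg _) fun i _ => norm_Phi_le hk _)
  rcases Int.units_eq_one_or (Equiv.Perm.sign σ) with h | h <;> simp [h]

lemma tendsto_Theta {l : ℕ → ℕ} (hl : Tendsto l atTop atTop) {n : ℕ} (y : Fin n → ℝ) :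
    Tendsto (fun s => Theta (4 * l s) (2 * l s) fun i => 2 * y i) atTop
      (𝓝 ((1 / 2) ^ n * corrW y)) := by
  have h1 : ∀ u : ℝ, Tendsto (fun s => Phi (4 * l s) (2 * l s) u) atTop (𝓝 (JJ (1 / 2) u)) := by
    intro u
    rw [tendsto_iff_norm_sub_tendsto_zero]
    have h2 : Tendsto (fun s => 2 * Real.pi * |u| / ((4 * l s : ℕ) : ℝ)) atTop (𝓝 0) :=
      tendsto_const_nhds.div_atTop (tendsto_natCast_atTop_atTop.comp
        (tendsto_atTop_mono (fun s => by omega) hl))
    refine squeeze_zero' (Eventually.of_forall fun _ => norm_nonneg _) ?_ h2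
    filter_upwards [hl.eventually_gt_atTop 0] with s hs
    have := Phi_approx' (M := 4 * l s) (k := 2 * l s) (by omega) (by omega) u
    rwa [show ((2 * l s : ℕ) : ℝ) / ((4 * l s : ℕ) : ℝ) = 1 / 2 by
      have : (l s : ℝ) ≠ 0 := by positivity
      push_cast; field_simp; norm_num] at this
  have h2 : (Matrix.of fun i j => JJ (1 / 2) (2 * y i - 2 * y j)).det =
      (1 / 2) ^ n * corrW y := by
    have e : (Matrix.of fun i j => JJ (1 / 2) (2 * y i - 2 * y j)) = Matrix.of fun i j =>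
        (1 / 2 * ee (y i / 2)) * (Matrix.of fun i j => ee (-(y j / 2)) *
          (Matrix.of fun i k => (sineKer (y i - y k) : ℂ)) i j) i j := by
      ext i j
      simp only [of_apply]
      rw [← mul_sub, JJ_half, sub_div, sub_eq_add_neg, ee_add]; ring
    rw [e, det_mul_column, det_mul_row, ← mul_assoc, ← Finset.prod_mul_distrib, corrW]
    congr 1
    · rw [← Fin.prod_const]
      refine Finset.prod_congr rfl fun i _ => ?_
      rw [mul_assoc, ← ee_add]; simp
    · exact (Complex.ofRealHom.map_det _).symm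
  rw [← h2]
  refine (Continuous.matrix_det continuous_id).continuousAt.tendsto.comp ?_
  exact tendsto_pi_nhds.2 fun i => tendsto_pi_nhds.2 fun j => h1 _

lemma Theta_expand (M k : ℕ) {n : ℕ} (u : Fin n → ℝ) :
    Theta M k u = ∑ π : Equiv.Perm (Fin n), ∑ p : Fin n → Fin k,
      ((Equiv.Perm.sign π : ℤ) * ((M : ℂ)⁻¹) ^ n) *
        ee (∑ b, (((p (π.symm b) : ℕ) - (p b : ℕ) : ℝ) / M) * u b) := by
  rw [Theta, det_apply']
  refine Finset.sum_congr rfl fun π _ => ?_
  simp only [of_apply, Phi, Finset.prod_mul_distrib, Finset.sum_range, Fin.prod_const]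
  rw [Finset.prod_univ_sum, Fintype.piFinset_univ, Finset.mul_sum, Finset.mul_sum]
  refine Finset.sum_congr rfl fun p _ => ?_
  rw [mul_assoc, ← ee_sum]
  congr 3
  simp only [mul_sub, sub_div, sub_mul, Finset.sum_sub_distrib]
  congr 1
  · rw [← Equiv.sum_comp π (fun b => ((p (π.symm b) : ℕ) : ℝ) / M * u b)]
    exact Finset.sum_congr rfl fun b _ => by rw [Equiv.symm_apply_apply]; ring
  · exact Finset.sum_congr rfl fun b _ => by ring

lemma hasSum_Theta {m : ℕ} {g : (Fin m → ℝ) → ℂ} (hg : Nice m g) {M k : ℕ} (hM : 0 < M)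
    (hk : 2 * k ≤ M) :
    HasSum (fun z : Fin m → ℤ => g (fun i => (z i : ℝ) / 2) *
      Theta M k (Fin.cons 0 (fun i => (z i : ℝ)) : Fin (m + 1) → ℝ))
      (2 ^ m * ∫ y, g y * Theta M k fun i => 2 * (Fin.cons 0 y : Fin (m + 1) → ℝ) i) := by
  have hM' : (0 : ℝ) < M := by exact_mod_cast hM
  simp only [Theta_expand, Fin.sum_univ_succ, Fin.cons_zero, Fin.cons_succ, mul_zero, zero_add,
    Finset.mul_sum]
  have hint : ∀ θ : Fin m → ℝ, Integrable fun y => g y * ee (∑ i, θ i * (2 * y i)) := fun θ =>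
    hg.intg.mul_bdd (c := 1) (continuous_ee.comp (by fun_prop)).aestronglyMeasurable
      (Eventually.of_forall fun y => (norm_ee _).le)
  simp only [mul_left_comm (g _)]
  rw [integral_finsetSum _ fun π _ => integrable_finsetSum _ fun p _ => (hint _).const_mul _,
    Finset.mul_sum]
  refine hasSum_sum fun π _ => ?_
  rw [integral_finsetSum _ fun p _ => (hint _).const_mul _, Finset.mul_sum]
  refine hasSum_sum fun p _ => ?_
  rw [integral_const_mul, mul_left_comm]
  refine (hg.pois _ fun i => ?_).mul_left _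
  have h1 : ((p (π.symm i.succ) : ℕ) : ℝ) ≤ k := by exact_mod_cast (p _).2.le
  have h2 : ((p i.succ : ℕ) : ℝ) ≤ k := by exact_mod_cast (p _).2.le
  have h3 : (2 * k : ℝ) ≤ M := by exact_mod_cast hk
  have h4 : (0 : ℝ) ≤ (p (π.symm i.succ) : ℕ) := by positivity
  have h5 : (0 : ℝ) ≤ (p i.succ : ℕ) := by positivity
  rw [abs_div, abs_of_pos hM', div_le_iff₀ hM', abs_le]
  constructor <;> linarith

lemma tendsto_int_Theta {m : ℕ} {g : (Fin m → ℝ) → ℂ} (hg : Nice m g) {l : ℕ → ℕ}
    (hl : Tendsto l atTop atTop) :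
    Tendsto (fun s => 2 ^ m * ∫ y, g y * Theta (4 * l s) (2 * l s)
      fun i => 2 * (Fin.cons 0 y : Fin (m + 1) → ℝ) i) atTop
      (𝓝 (1 / 2 * ∫ y, g y * corrW (Fin.cons 0 y : Fin (m + 1) → ℝ))) := by
  have h := tendsto_integral_of_dominated_convergence (μ := (volume : Measure (Fin m → ℝ)))
    (F := fun s y => g y * Theta (4 * l s) (2 * l s)
      fun i => 2 * (Fin.cons 0 y : Fin (m + 1) → ℝ) i)
    (f := fun y => g y * ((1 / 2) ^ (m + 1) * corrW (Fin.cons 0 y : Fin (m + 1) → ℝ)))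
    (fun y => ‖g y‖ * (m + 1).factorial) (fun s => ?_) (hg.intg.norm.mul_const _)
    (fun s => Eventually.of_forall fun y => ?_)
    (Eventually.of_forall fun y => (tendsto_Theta hl _).const_mul _)
  · have h2 := h.const_mul ((2 : ℂ) ^ m)
    simp only [mul_left_comm (g _), integral_const_mul] at h2
    rwa [← mul_assoc, show (2 : ℂ) ^ m * (1 / 2) ^ (m + 1) = 1 / 2 by
      rw [pow_succ, ← mul_assoc, ← mul_pow]; norm_num] at h2
  · refine hg.intg.aestronglyMeasurable.mul (Continuous.aestronglyMeasurable ?_)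
    simp only [Theta_expand, Fin.sum_univ_succ, Fin.cons_zero, Fin.cons_succ]
    refine continuous_finsetSum _ fun π _ => continuous_finsetSum _ fun p _ =>
      continuous_const.mul (continuous_ee.comp ?_)
    fun_prop
  · rw [norm_mul]
    exact mul_le_mul_of_nonneg_left (norm_Theta_le (by omega) _) (norm_nonneg _)

end Pool.Agent.P.MP_039ae7_nt
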