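import Pool.Agent.P.MP_039ae7_nt.Points

/-! Two sequences in the class with different frequencies of the spacing `5 / 2`. -/

namespace Pool.Agent.P.MP_039ae7_nt

open Finset Filter Topology MeasureTheory

theorem main : ∃ x y : ℕ → ℝ, InS x ∧ InS y ∧ ∃ p q : ℝ, p ≠ q ∧
    Tendsto (gapFreq x (5 / 2)) atTop (𝓝 p) ∧ Tendsto (gapFreq y (5 / 2)) atTop (𝓝 q) := by
  obtain ⟨δ, hδ, l, hl0, hl, r, h1, h2, h3, h4, h5⟩ := model
  obtain ⟨ρ, -, φ, hφ, hρ⟩ := (isCompact_univ_pi fun _ : Bool × Finset ℤ =>
    isCompact_Icc (a := (0 : ℝ)) (b := 1)).tendsto_subseq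
    (x := fun n q => r q.1 n q.2) fun n q _ => (h1 q.1 n).mem q.2
  have hρ' : ∀ e A, Tendsto (fun n => r e (φ n) A) atTop (𝓝 (ρ (e, A))) := fun e A =>
    tendsto_pi_nhds.1 hρ (e, A)
  have hl' : Tendsto (fun n => l (φ n)) atTop atTop := hl.comp hφ.tendsto_atTop
  have hM : Tendsto (fun n => 4 * l (φ n)) atTop atTop :=
    tendsto_atTop_mono (fun n => by omega) hl'
  have key : ∀ e, ∃ x : ℕ → ℝ, InS x ∧
      Tendsto (gapFreq x (5 / 2)) atTop (𝓝 (2 * gapVal fun A => ρ (e, A))) := by
    intro e
    obtain ⟨η, a1, a2, a3⟩ := exists_seq (fun n => 4 * l (φ n))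
      (fun n => by have := hl0 (φ n); omega) hM (fun n => r e (φ n)) (fun n => h1 e _)
      (fun A => ρ (e, A)) (hρ' e)
    have a0 : ρ (e, {0}) = 1 / 2 :=
      tendsto_nhds_unique (hρ' e {0}) (by simp only [h2]; exact tendsto_const_nhds)
    refine ⟨_, inS_site a1 a2 a0 a3 fun m g hg => ?_, tendsto_gap a1 a0 a3⟩
    refine tendsto_nhds_unique ?_ (tendsto_int_Theta hg hl')
    simp only [← fun n => (h3 e (φ n) m g hg).tsum_eq]
    refine tendsto_tsum_of_dominated_convergence hg.summ (fun z => Tendsto.const_mul _ ?_)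
      (Eventually.of_forall fun n z => ?_)
    · split_ifs with hz
      · refine ((Complex.continuous_ofReal.tendsto _).comp (hρ' e _)).congr' ?_
        filter_upwards [hM.eventually_gt_atTop (univ.sup fun q : Fin (m + 1) × Fin (m + 1) =>
          (pts z q.2 - pts z q.1).natAbs)] with n hn
        rw [if_pos]; · rfl
        intro i j e
        rw [ZMod.intCast_eq_intCast_iff_dvd_sub] at e
        have a := Finset.le_sup (f := fun q : Fin (m + 1) × Fin (m + 1) =>
          (pts z q.2 - pts z q.1).natAbs) (Finset.mem_univ (i, j))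
        have b := Int.eq_zero_of_abs_lt_dvd e (by
          rw [Int.abs_eq_natAbs]; exact_mod_cast a.trans_lt hn)
        exact hz (by omega)
      · refine tendsto_const_nhds.congr fun n => (if_neg fun c => hz fun i j e => c ?_).symm
        simp only [e]
    · rw [norm_mul]
      refine mul_le_of_le_one_right (norm_nonneg _) ?_
      have := (h1 e (φ n)).mem (univ.image (pts z))
      split_ifs
      · rw [Complex.norm_real, Real.norm_eq_abs, abs_of_nonneg this.1]; exact this.2
      · simp
  obtain ⟨x, hx, hx'⟩ := key true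
  obtain ⟨y, hy, hy'⟩ := key false
  refine ⟨x, y, hx, hy, _, _, ?_, hx', hy'⟩
  have a : ∀ A : Finset ℤ, (∀ t ∈ A, 0 ≤ t ∧ t < 6) → A.card < 6 → ρ (true, A) = ρ (false, A) :=
    fun A hA hA' => tendsto_nhds_unique (hρ' true A) (by
      simp only [h4 _ A hA hA']; exact hρ' false A)
  have b := le_of_tendsto_of_tendsto' ((hρ' false _).add_const δ) (hρ' true _) fun n => h5 (φ n)
  have c : (univ.image fun i : Fin 6 => ((i : ℕ) : ℤ)) = insert 0 (insert 5 {1, 2, 3, 4}) := by
    decide
  rw [c] at b
  have d : (gapVal fun A => ρ (true, A)) - (gapVal fun A => ρ (false, A)) =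
      ρ (true, insert 0 (insert 5 {1, 2, 3, 4})) - ρ (false, insert 0 (insert 5 {1, 2, 3, 4})) := by
    rw [gapVal, gapVal, ← Finset.sum_sub_distrib, Finset.sum_eq_single {1, 2, 3, 4}]
    · rw [show #({1, 2, 3, 4} : Finset ℤ) = 4 by decide]; ring
    · intro B hB hne
      have hB' := Finset.mem_powerset.1 hB
      rw [a, sub_self]
      · intro t ht
        simp only [Finset.mem_insert] at ht
        rcases ht with rfl | rfl | ht
        · omega
        · omega
        · have := hB' ht
          simp only [Finset.mem_insert, Finset.mem_singleton] at this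
          omega
      · have e1 := Finset.card_lt_card (Finset.ssubset_iff_subset_ne.2 ⟨hB', hne⟩)
        rw [show #({1, 2, 3, 4} : Finset ℤ) = 4 by decide] at e1
        have e2 := Finset.card_insert_le (0 : ℤ) (insert 5 B)
        have e3 := Finset.card_insert_le (5 : ℤ) B
        omega
    · simp
  intro h
  linarith

end Pool.Agent.P.MP_039ae7_nt
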