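import Mathlib

/-! Hard-core polymer weights and their positivity under the Dobrushin condition. -/

namespace Pool.Agent.P.MP_039ae7_nt

open Finset

set_option linter.unusedSectionVars false

variable {O ι : Type*} [Fintype O] [DecidableEq O] [Fintype ι] (U : ι → Finset O) (v : ι → ℝ)

/-- Total weight of the partitions of `T` into `n` polymers. -/
noncomputable def Wn : ℕ → Finset O → ℝ
  | 0, T => if T = ∅ then 1 else 0
  | n + 1, T => (1 / (n + 1)) * ∑ y, if U y ⊆ T then v y * Wn n (T \ U y) else 0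

lemma Wn_succ (n : ℕ) (T : Finset O) :
    ((n : ℝ) + 1) * Wn U v (n + 1) T = ∑ y, if U y ⊆ T then v y * Wn U v n (T \ U y) else 0 := by
  rw [Wn]; field_simp

lemma Wn_deriv (n : ℕ) : ∀ (T : Finset O) (j : O), j ∈ T →
    Wn U v (n + 1) T = ∑ y, if j ∈ U y ∧ U y ⊆ T then v y * Wn U v n (T \ U y) else 0 := by
  induction n with
  | zero =>
    intro T j hj
    rw [Wn]
    simp only [Nat.cast_zero, zero_add, div_one, one_mul]
    refine Finset.sum_congr rfl fun y _ => ?_
    by_cases h : j ∈ U y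
    · simp [h]
    · have : T \ U y ≠ ∅ := Finset.ne_empty_of_mem (Finset.mem_sdiff.2 ⟨hj, h⟩)
      simp only [h, false_and, if_false, Wn, this, mul_zero, ite_self]
  | succ n ih =>
    intro T j hj
    have h1 := Wn_succ U v (n + 1) T
    have h2 : ∀ y, (if U y ⊆ T then v y * Wn U v (n + 1) (T \ U y) else 0) =
        (if j ∈ U y ∧ U y ⊆ T then v y * Wn U v (n + 1) (T \ U y) else 0) +
        ∑ y', if j ∈ U y' ∧ U y' ⊆ T ∧ U y ⊆ T \ U y' then
          v y' * (v y * Wn U v n ((T \ U y') \ U y)) else 0 := by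
      intro y
      by_cases hT : U y ⊆ T
      · by_cases h : j ∈ U y
        · rw [Finset.sum_eq_zero]
          · simp [h, hT]
          · intro y' _
            rw [if_neg]
            rintro ⟨a, -, c⟩
            exact (Finset.mem_sdiff.1 (c h)).2 a
        · simp only [hT, h, if_true, false_and, if_false, zero_add]
          rw [ih _ j (Finset.mem_sdiff.2 ⟨hj, h⟩), Finset.mul_sum]
          refine Finset.sum_congr rfl fun y' _ => ?_
          have e : (j ∈ U y' ∧ U y' ⊆ T \ U y) ↔ (j ∈ U y' ∧ U y' ⊆ T ∧ U y ⊆ T \ U y') := by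
            simp only [Finset.subset_sdiff, hT, true_and, disjoint_comm (a := U y)]
          simp only [e]
          split_ifs
          · rw [sdiff_right_comm]; ring
          · simp
      · rw [Finset.sum_eq_zero]
        · simp [hT]
        · intro y' _
          rw [if_neg]
          rintro ⟨-, -, c⟩
          exact hT (c.trans Finset.sdiff_subset)
    simp only [h2, Finset.sum_add_distrib] at h1
    rw [Finset.sum_comm] at h1
    have h3 : ∀ y', (∑ y, if j ∈ U y' ∧ U y' ⊆ T ∧ U y ⊆ T \ U y' then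
          v y' * (v y * Wn U v n ((T \ U y') \ U y)) else 0) =
        ((n : ℝ) + 1) * if j ∈ U y' ∧ U y' ⊆ T then v y' * Wn U v (n + 1) (T \ U y') else 0 := by
      intro y'
      by_cases h : j ∈ U y' ∧ U y' ⊆ T
      · rw [if_pos h, mul_left_comm, Wn_succ, Finset.mul_sum]
        refine Finset.sum_congr rfl fun y _ => ?_
        simp [h.1, h.2]
      · rw [if_neg h, mul_zero]
        exact Finset.sum_eq_zero fun y _ => if_neg fun c => h ⟨c.1, c.2.1⟩
    simp only [h3, ← Finset.mul_sum] at h1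
    push_cast at h1
    have h4 : ((n : ℝ) + 1 + 1) ≠ 0 := by positivity
    apply mul_left_cancel₀ h4
    rw [h1]; ring

variable {U v}

lemma Wn_eq_zero (hU : ∀ y, v y ≠ 0 → (U y).Nonempty) (n : ℕ) :
    ∀ T : Finset O, T.card < n → Wn U v n T = 0 := by
  induction n with
  | zero => intro T h; omega
  | succ n ih =>
    intro T h
    rw [Wn, Finset.sum_eq_zero, mul_zero]
    intro y _
    split_ifs with hT
    · by_cases hv : v y = 0
      · simp [hv]
      · rw [ih, mul_zero]
        have := (hU y hv).card_pos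
        have := Finset.card_le_card hT
        rw [Finset.card_sdiff_of_subset hT]; omega
    · rfl

/-- Total weight of all partitions of `T` into polymers. -/
noncomputable def WW (U : ι → Finset O) (v : ι → ℝ) (T : Finset O) : ℝ :=
  ∑ n ∈ range (Fintype.card O + 1), Wn U v n T

lemma WW_deriv (hU : ∀ y, v y ≠ 0 → (U y).Nonempty) (T : Finset O) (j : O) (hj : j ∈ T) :
    WW U v T = ∑ y, if j ∈ U y ∧ U y ⊆ T then v y * WW U v (T \ U y) else 0 := by
  have h0 : Wn U v 0 T = 0 := by simp [Wn, Finset.ne_empty_of_mem hj]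
  rw [WW, Finset.sum_range_succ', h0, add_zero]
  simp only [Wn_deriv U v _ T j hj]
  rw [Finset.sum_comm]
  refine Finset.sum_congr rfl fun y _ => ?_
  split_ifs with h
  · rw [← Finset.mul_sum, WW, Finset.sum_range_succ, Wn_eq_zero hU, add_zero]
    refine lt_of_lt_of_le (Finset.card_lt_card ⟨Finset.sdiff_subset, fun c => ?_⟩)
      (Finset.card_le_univ T)
    exact (Finset.mem_sdiff.1 (c hj)).2 h.1
  · simp

lemma Wn_succ_empty (hU : ∀ y, v y ≠ 0 → (U y).Nonempty) (n : ℕ) : Wn U v (n + 1) ∅ = 0 :=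
  Wn_eq_zero hU _ _ (by simp)

lemma WW_empty (hU : ∀ y, v y ≠ 0 → (U y).Nonempty) : WW U v ∅ = 1 := by
  rw [WW, Finset.sum_range_succ']
  simp only [Wn_succ_empty hU]; simp [Wn]

lemma sum_sdiff_reindex {M : Type*} [AddCommMonoid M] (A V : Finset O) (F : Finset O → M) :
    (∑ T ∈ A.powerset, if V ⊆ T then F T else 0) =
      if V ⊆ A then ∑ T ∈ (A \ V).powerset, F (V ∪ T) else 0 := by
  split_ifs with h
  · rw [← Finset.sum_filter]
    refine Finset.sum_nbij' (fun T => T \ V) (fun T => V ∪ T) ?_ ?_ ?_ ?_ ?_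
    · intro T hT
      simp only [Finset.mem_filter, Finset.mem_powerset] at hT ⊢
      exact Finset.sdiff_subset_sdiff hT.1 subset_rfl
    · intro T hT
      simp only [Finset.mem_filter, Finset.mem_powerset] at hT ⊢
      exact ⟨Finset.union_subset h (hT.trans Finset.sdiff_subset), Finset.subset_union_left⟩
    · intro T hT
      exact Finset.union_sdiff_of_subset (Finset.mem_filter.1 hT).2
    · intro T hT
      exact Finset.union_sdiff_cancel_left
        (Finset.subset_sdiff.1 (Finset.mem_powerset.1 hT)).2.symm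
    · intro T hT
      rw [Finset.union_sdiff_of_subset (Finset.mem_filter.1 hT).2]
  · exact Finset.sum_eq_zero fun T hT => if_neg fun c => h (c.trans (Finset.mem_powerset.1 hT))

/-- The partition function of the volume `A`. -/
noncomputable def ZZ (U : ι → Finset O) (v : ι → ℝ) (τ : O → ℝ) (A : Finset O) : ℝ :=
  ∑ T ∈ A.powerset, WW U v T * ∏ j ∈ T, τ j

lemma ZZ_rec (hU : ∀ y, v y ≠ 0 → (U y).Nonempty) (τ : O → ℝ) (A : Finset O) (j : O)
    (_hj : j ∈ A) : ZZ U v τ A = ZZ U v τ (A.erase j) + ∑ y, if j ∈ U y ∧ U y ⊆ A then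
      v y * (∏ i ∈ U y, τ i) * ZZ U v τ (A \ U y) else 0 := by
  have h1 : ZZ U v τ A = ZZ U v τ (A.erase j) +
      ∑ T ∈ A.powerset, if j ∈ T then WW U v T * ∏ j ∈ T, τ j else 0 := by
    rw [ZZ, ZZ, ← Finset.sum_filter, ← Finset.sum_filter_not_add_sum_filter _ (fun T => j ∈ T)]
    congr 2
    ext T
    simp [Finset.subset_erase]
  rw [h1]
  congr 1
  have h2 : ∀ T : Finset O, (if j ∈ T then WW U v T * ∏ j ∈ T, τ j else 0) =
      ∑ y, if U y ⊆ T then (if j ∈ U y then v y * WW U v (T \ U y) * ∏ j ∈ T, τ j else 0)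
        else 0 := by
    intro T
    by_cases hT : j ∈ T
    · rw [if_pos hT, WW_deriv hU T j hT, Finset.sum_mul]
      refine Finset.sum_congr rfl fun y _ => ?_
      by_cases a : j ∈ U y <;> by_cases b : U y ⊆ T <;> simp [a, b]
    · rw [if_neg hT]
      refine (Finset.sum_eq_zero fun y _ => ?_).symm
      split_ifs with a b
      · exact absurd (a b) hT
      · rfl
      · rfl
  simp only [h2]
  rw [Finset.sum_comm]
  refine Finset.sum_congr rfl fun y _ => ?_
  rw [sum_sdiff_reindex]
  by_cases a : j ∈ U y <;> by_cases b : U y ⊆ A <;> simp only [a, b, if_true, if_false,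
    and_self, and_true, and_false, Finset.sum_const_zero]
  rw [ZZ, Finset.mul_sum]
  refine Finset.sum_congr rfl fun T hT => ?_
  have hd : Disjoint (U y) T := (Finset.subset_sdiff.1 (Finset.mem_powerset.1 hT)).2.symm
  rw [Finset.union_sdiff_cancel_left hd, Finset.prod_union hd]; ring

lemma ZZ_pos (hU : ∀ y, v y ≠ 0 → (U y).Nonempty) {k : ℕ} (hk : ∀ y, (U y).card ≤ k)
    (hb : ∀ j, 2 ^ k * (∑ y, if j ∈ U y then |v y| else 0) ≤ 1 / 2) (τ : O → ℝ)
    (hτ : ∀ j, |τ j| ≤ 1) (A : Finset O) :
    0 < ZZ U v τ A ∧ ∀ D : Finset O, ZZ U v τ (A \ D) ≤ 2 ^ D.card * ZZ U v τ A := by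
  induction A using Finset.strongInduction with
  | H A ih =>
  have step : ∀ j ∈ A, 0 < ZZ U v τ (A.erase j) ∧ ZZ U v τ (A.erase j) ≤ 2 * ZZ U v τ A := by
    intro j hj
    obtain ⟨hp, hD⟩ := ih _ (Finset.erase_ssubset hj)
    refine ⟨hp, ?_⟩
    have h1 := ZZ_rec hU τ A j hj
    have h2 : |∑ y, if j ∈ U y ∧ U y ⊆ A then
        v y * (∏ i ∈ U y, τ i) * ZZ U v τ (A \ U y) else 0| ≤
        2 ^ k * (∑ y, if j ∈ U y then |v y| else 0) * ZZ U v τ (A.erase j) := by
      refine (Finset.abs_sum_le_sum_abs _ _).trans ?_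
      rw [Finset.mul_sum, Finset.sum_mul]
      refine Finset.sum_le_sum fun y _ => ?_
      by_cases h : j ∈ U y ∧ U y ⊆ A
      · rw [if_pos h, if_pos h.1, abs_mul, abs_mul]
        have e : A \ U y = A.erase j \ U y := by
          ext i
          simp only [Finset.mem_sdiff, Finset.mem_erase]
          exact ⟨fun c => ⟨⟨fun e => c.2 (e ▸ h.1), c.1⟩, c.2⟩, fun c => ⟨c.1.2, c.2⟩⟩
        have h3 : 0 < ZZ U v τ (A \ U y) := (ih _ (by
          rw [e]; exact Finset.ssubset_of_subset_of_ssubset Finset.sdiff_subset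
            (Finset.erase_ssubset hj))).1
        have h4 : ZZ U v τ (A \ U y) ≤ 2 ^ k * ZZ U v τ (A.erase j) := by
          rw [e]
          exact (hD _).trans (mul_le_mul_of_nonneg_right
            (pow_le_pow_right₀ (by norm_num) (hk y)) hp.le)
        have h5 : |∏ i ∈ U y, τ i| ≤ 1 := by
          rw [Finset.abs_prod]
          exact Finset.prod_le_one (fun i _ => abs_nonneg _) fun i _ => hτ i
        rw [abs_of_pos h3]
        calc |v y| * |∏ i ∈ U y, τ i| * ZZ U v τ (A \ U y)
            ≤ |v y| * 1 * (2 ^ k * ZZ U v τ (A.erase j)) := by gcongr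
          _ = _ := by ring
      · rw [if_neg h, abs_zero]
        have : (0 : ℝ) ≤ if j ∈ U y then |v y| else 0 := by split_ifs <;> positivity
        positivity
    have h3 := (abs_le.1 (h2.trans (mul_le_mul_of_nonneg_right (hb j) hp.le))).1
    linarith
  have hpos : 0 < ZZ U v τ A := by
    rcases A.eq_empty_or_nonempty with rfl | ⟨j, hj⟩
    · simp [ZZ, WW_empty hU]
    · linarith [(step j hj).1, (step j hj).2]
  refine ⟨hpos, fun D => ?_⟩
  by_cases h : Disjoint A D
  · rw [Finset.sdiff_eq_self_of_disjoint h]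
    exact le_mul_of_one_le_left hpos.le (one_le_pow₀ (by norm_num))
  · obtain ⟨j, hjA, hjD⟩ := Finset.not_disjoint_iff.1 h
    have e : A \ D = A.erase j \ D.erase j := by
      ext i
      simp only [Finset.mem_sdiff, Finset.mem_erase]
      constructor
      · exact fun c => ⟨⟨fun e => c.2 (e ▸ hjD), c.1⟩, fun d => c.2 d.2⟩
      · exact fun c => ⟨c.1.2, fun d => c.2 ⟨c.1.1, d⟩⟩
    rw [e]
    refine ((ih _ (Finset.erase_ssubset hjA)).2 _).trans ?_
    rw [← Finset.card_erase_add_one hjD, pow_succ, mul_assoc]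
    exact mul_le_mul_of_nonneg_left (step j hjA).2 (by positivity)

theorem polymer (hU : ∀ y, v y ≠ 0 → (U y).Nonempty) {k : ℕ} (hk : ∀ y, (U y).card ≤ k)
    (hb : ∀ j, 2 ^ k * (∑ y, if j ∈ U y then |v y| else 0) ≤ 1 / 2) :
    ∃ W c : Finset O → ℝ, (∀ τ : O → ℝ, (∀ j, |τ j| ≤ 1) → 0 ≤ ∑ T, W T * ∏ j ∈ T, τ j) ∧
      (Nonempty O → c ∅ = 1) ∧ ∀ Φ : Finset O → ℂ, ∑ T, W T * Φ T = Φ ∅ +
        ∑ T, c T * ∑ y, if Disjoint (U y) T then v y * Φ (U y ∪ T) else 0 := by
  refine ⟨WW U v, fun T => ∑ n ∈ range (Fintype.card O), (1 / (n + 1)) * Wn U v n T,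
    fun τ hτ => ?_, fun hO => ?_, fun Φ => ?_⟩
  · have := (ZZ_pos hU hk hb τ hτ univ).1.le
    rwa [ZZ, Finset.powerset_univ] at this
  · obtain ⟨n, hn⟩ := Nat.exists_eq_succ_of_ne_zero (Fintype.card_pos (α := O)).ne'
    simp only [hn]
    rw [Finset.sum_range_succ']
    simp only [Wn_succ_empty hU]; simp [Wn]
  · simp only [WW, Finset.sum_range_succ']
    push_cast
    simp only [add_mul, Finset.sum_add_distrib, Finset.sum_mul]
    rw [add_comm]
    congr 1
    · rw [Finset.sum_eq_single ∅ (fun T _ h => by simp [Wn, h]) (by simp)]; simp [Wn]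
    · rw [Finset.sum_comm, Finset.sum_comm (s := univ)]
      refine Finset.sum_congr rfl fun n _ => ?_
      simp only [Wn, Finset.mul_sum]
      push_cast
      simp only [Finset.sum_mul]
      rw [Finset.sum_comm, Finset.sum_comm (s := (univ : Finset (Finset O)))]
      refine Finset.sum_congr rfl fun y _ => ?_
      have h1 := sum_sdiff_reindex univ (U y)
        (fun T => (1 / ((n : ℂ) + 1)) * (v y * Wn U v n (T \ U y)) * Φ T)
      rw [Finset.powerset_univ, if_pos (Finset.subset_univ _)] at h1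
      refine Eq.trans (Finset.sum_congr rfl fun T _ => ?_) (h1.trans ?_)
      · split_ifs <;> simp
      · have e : (univ \ U y).powerset = univ.filter fun T => Disjoint (U y) T := by
          ext T; simp [Finset.subset_sdiff, disjoint_comm]
        rw [e, Finset.sum_filter]
        refine Finset.sum_congr rfl fun T _ => ?_
        split_ifs with hd
        · rw [Finset.union_sdiff_cancel_left hd]; ring
        · simp

end Pool.Agent.P.MP_039ae7_nt
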