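import Pool.Agent.P.MP_039ae7_nt.GLimit
import Pool.Agent.P.MP_039ae7_nt.Polymer

/-! The perturbed measure and its correlation functions. -/

namespace Pool.Agent.P.MP_039ae7_nt

open Matrix Finset Filter Topology MeasureTheory

variable {l : ℕ} [NeZero l]

lemma abs_hh (B : ℕ) (c : ZMod (4 * l)) (t : Ev l) : |hh B c t| ≤ aR B (t.1 - c) := by
  rw [hh, abs_mul, abs_of_nonneg (aR_nonneg _ _)]
  exact mul_le_of_le_one_left (aR_nonneg _ _) (abs_sR t)

lemma sum_aR_ev {B : ℕ} (hB : 0 < B) (hB' : B ≤ 4 * l) (c : ZMod (4 * l)) :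
    ∑ t : Ev l, aR B (t.1 - c) ≤ 4 * l / B := by
  rw [← sum_aR hB hB', ← Equiv.sum_comp (Equiv.subRight c),
    ← Finset.sum_subtype (univ.filter fun t => ((2 * l : ℕ) : ZMod (4 * l)) * t = 0) (by simp)
      (fun t => aR B (t - c))]
  exact Finset.sum_le_sum_of_subset_of_nonneg (Finset.subset_univ _) fun _ _ _ => aR_nonneg _ _

lemma weight_bound {B : ℕ} (hB : 0 < B) (hB' : B ≤ 4 * l) (j : Ev l) :
    (∑ y : Fin 6 → Ev l, if j ∈ univ.image y then |∑ c, ∏ i, hh B c (y i)| else 0) ≤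
      6 * (4 * l / B) ^ 6 := by
  have h1 : ∀ y : Fin 6 → Ev l, (if j ∈ univ.image y then |∑ c, ∏ i, hh B c (y i)| else 0) ≤
      ∑ i0 : Fin 6, ∑ c, ∏ i, if i = i0 then (if y i = j then aR B (j.1 - c) else 0)
        else aR B ((y i).1 - c) := by
    intro y
    have h0 : ∀ i0 : Fin 6, 0 ≤ ∑ c, ∏ i, if i = i0 then (if y i = j then aR B (j.1 - c) else 0)
        else aR B ((y i).1 - c) := fun i0 => Finset.sum_nonneg fun c _ =>
      Finset.prod_nonneg fun i _ => by split_ifs <;> first | exact aR_nonneg _ _ | rfl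
    split_ifs with h
    · obtain ⟨i0, -, hi0⟩ := Finset.mem_image.1 h
      refine le_trans ?_ (Finset.single_le_sum (fun i _ => h0 i) (Finset.mem_univ i0))
      refine (Finset.abs_sum_le_sum_abs _ _).trans (Finset.sum_le_sum fun c _ => ?_)
      rw [Finset.abs_prod]
      refine Finset.prod_le_prod (fun i _ => abs_nonneg _) fun i _ => ?_
      by_cases e : i = i0
      · subst e; simpa [hi0] using abs_hh B c j
      · simpa [e] using abs_hh B c (y i)
    · exact Finset.sum_nonneg fun i _ => h0 i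
  refine (Finset.sum_le_sum fun y _ => h1 y).trans ?_
  rw [Finset.sum_comm]
  calc _ ≤ ∑ _i0 : Fin 6, ((4 * l / B : ℝ)) ^ 6 := Finset.sum_le_sum fun i0 _ => ?_
    _ = _ := by simp
  rw [Finset.sum_comm]
  calc _ ≤ ∑ c, aR B (j.1 - c) * (4 * l / B : ℝ) ^ 5 := Finset.sum_le_sum fun c _ => ?_
    _ = _ := by
      rw [← Finset.sum_mul, ← Equiv.sum_comp (Equiv.subLeft j.1)]
      simp only [Equiv.subLeft_apply, sub_sub_cancel, sum_aR hB hB']
      ring
  have h2 := Finset.prod_univ_sum (fun _ : Fin 6 => (univ : Finset (Ev l)))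
    (fun i t => if i = i0 then (if t = j then aR B (j.1 - c) else 0) else aR B (t.1 - c))
  rw [Fintype.piFinset_univ] at h2
  rw [← h2, ← Finset.mul_prod_erase _ _ (Finset.mem_univ i0)]
  simp only [if_true, Finset.sum_ite_eq', Finset.mem_univ]
  refine mul_le_mul_of_nonneg_left ?_ (aR_nonneg _ _)
  calc _ ≤ ∏ _i ∈ univ.erase i0, (4 * l / B : ℝ) := Finset.prod_le_prod
        (fun i _ => Finset.sum_nonneg fun t _ => by
          split_ifs <;> first | exact aR_nonneg _ _ | rfl)
        fun i hi => by simpa [(Finset.mem_erase.1 hi).1] using sum_aR_ev hB hB' c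
    _ = _ := by
      rw [Finset.prod_const, Finset.card_erase_of_mem (Finset.mem_univ _)]; rfl

/-- The perturbation term of the correlation functions. -/
noncomputable def pert (B : ℕ) (cc : Finset (Ev l) → ℝ) {X : Type} [Fintype X] [DecidableEq X]
    (x : X → ZMod (4 * l)) : ℂ :=
  ∑ T, cc T * ∑ c, ∑ y : Fin 6 → Ev l, (∏ i, hh B c (y i) : ℝ) *
    (blk (RR l) x (Sum.elim (fun i => (y i).1) fun t : T => t.1.1)).det

theorem exists_measure {B : ℕ} (hB : 0 < B) (hB' : B ≤ 4 * l) {ε : ℝ} (hε : 0 ≤ ε)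
    (hε' : 2 ^ 6 * (ε * (6 * (4 * l / B) ^ 6)) ≤ 1 / 2) :
    ∃ ν : Finset (ZMod (4 * l)) → ℝ, (∀ S, 0 ≤ ν S) ∧ ∃ cc : Finset (Ev l) → ℝ, cc ∅ = 1 ∧
      ∀ (X : Type) [Fintype X] [DecidableEq X] (x : X → ZMod (4 * l)), Function.Injective x →
        ((∑ S, ν S * ∏ i, ind S (x i) : ℝ) : ℂ) =
          ((Kp (RR l)).submatrix x x).det + ε * pert B cc x := by
  obtain ⟨W, cc, hW, hc, hΦ⟩ := polymer (U := fun y : Fin 6 → Ev l => univ.image y)
    (v := fun y => if Function.Injective y then ε * ∑ c, ∏ i, hh B c (y i) else 0)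
    (fun y _ => by simp) (k := 6) (fun y => Finset.card_image_le.trans (by simp)) (fun j => by
      refine le_trans (mul_le_mul_of_nonneg_left ?_ (by positivity)) hε'
      refine le_trans ?_ (mul_le_mul_of_nonneg_left (weight_bound hB hB' j) hε)
      rw [Finset.mul_sum]
      refine Finset.sum_le_sum fun y _ => ?_
      split_ifs
      · rw [abs_mul, abs_of_nonneg hε]
      · simp only [abs_zero]; positivity
      · simp)
  have hμ := mu_nonneg (RR l) (RR_herm l) (RR_sq l)
  refine ⟨fun S => (muC (RR l) S).re * ∑ T, W T * ∏ j ∈ T, sg S j.1, fun S =>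
    mul_nonneg (hμ S).2 (hW _ fun j => by unfold sg; split_ifs <;> simp), cc, hc ⟨⟨0, by simp⟩⟩,
    fun X _ _ x hx => ?_⟩
  have hre : ∀ S, ((muC (RR l) S).re : ℂ) = muC (RR l) S := fun S =>
    Complex.ext (by simp) (by simp [(hμ S).1])
  let Φ : Finset (Ev l) → ℂ := fun T => ∑ S : Finset (ZMod (4 * l)),
    muC (RR l) S * ((∏ j ∈ T, sg S j.1 : ℝ) * (∏ i, ind S (x i) : ℝ))
  have h1 : ((∑ S, ((muC (RR l) S).re * ∑ T, W T * ∏ j ∈ T, sg S j.1) * ∏ i, ind S (x i) : ℝ) : ℂ)
      = ∑ T, W T * Φ T := by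
    simp only [Φ, Finset.mul_sum, Finset.sum_mul]
    rw [Finset.sum_comm]
    push_cast
    simp only [hre]
    exact Finset.sum_congr rfl fun T _ => Finset.sum_congr rfl fun S _ => by ring
  rw [h1, hΦ]
  congr 1
  · have := mu_moment (RR l) x (Empty.elim : Empty → ZMod (4 * l)) hx (fun a => a.elim)
      fun a => a.elim
    rw [blk_det_empty] at this
    simpa [Φ] using this
  · rw [pert, Finset.mul_sum]
    refine Finset.sum_congr rfl fun T _ => ?_
    rw [mul_left_comm, Finset.sum_comm]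
    congr 1
    rw [Finset.mul_sum]
    refine Finset.sum_congr rfl fun y _ => ?_
    rw [← Finset.sum_mul]
    by_cases h : Function.Injective (Sum.elim (fun i => (y i).1) fun t : T => t.1.1)
    · have hy : Function.Injective y := fun i i' e =>
        Sum.inl_injective (h (a₁ := .inl i) (a₂ := .inl i') (congrArg Subtype.val e))
      have hd : Disjoint (univ.image y) T := by
        rw [Finset.disjoint_left]
        intro t ht ht'
        obtain ⟨i, -, rfl⟩ := Finset.mem_image.1 ht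
        exact absurd (h (a₁ := .inl i) (a₂ := .inr ⟨y i, ht'⟩) rfl) (by simp)
      rw [if_pos hd, if_pos hy, ← mu_moment (RR l) x _ hx h (by
        rintro (a | a) (b | b) <;> exact RR_ev l _ _)]
      have : ∀ S, ∏ j ∈ univ.image y ∪ T, sg S j.1 =
          ∏ j, sg S (Sum.elim (fun i => (y i).1) (fun t : T => t.1.1) j) := by
        intro S
        rw [Finset.prod_union hd, Finset.prod_image fun i _ i' _ e => hy e, Fintype.prod_sum_type,
          ← Finset.prod_coe_sort T]
        rfl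
      simp only [Φ, this]
      push_cast; ring
    · rw [blk_det_eq_zero_right _ _ _ h]
      split_ifs with hd hy
      · refine absurd ?_ h
        rintro (a | a) (b | b) e
        · exact congrArg _ (hy (Subtype.ext e))
        · exact absurd (Subtype.ext e ▸ b.2 : y a ∈ T)
            (Finset.disjoint_left.1 hd (Finset.mem_image_of_mem _ (Finset.mem_univ a)))
        · exact absurd (Subtype.ext e ▸ a.2 : y b ∈ T)
            (Finset.disjoint_left.1 hd (Finset.mem_image_of_mem _ (Finset.mem_univ b)))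
        · exact congrArg _ (Subtype.ext (Subtype.ext e))
      · simp
      · simp

lemma pert_small (B : ℕ) (cc : Finset (Ev l) → ℝ) {X : Type} [Fintype X] [DecidableEq X]
    (x : X → ZMod (4 * l)) (h : Fintype.card X < 6) : pert B cc x = 0 := by
  refine Finset.sum_eq_zero fun T _ => ?_
  simp only [blk_det_eq_zero_of_card (RR l) x (Y := Fin 6 ⊕ T) _ (by simp; omega), mul_zero,
    Finset.sum_const_zero]

lemma pert_not_inj (B : ℕ) (cc : Finset (Ev l) → ℝ) {X : Type} [Fintype X] [DecidableEq X]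
    (x : X → ZMod (4 * l)) (h : ¬ Function.Injective x) : pert B cc x = 0 := by
  simp only [pert, blk_det_eq_zero_left (RR l) x _ h, mul_zero, Finset.sum_const_zero]

lemma blk_det_sum_empty {Λ X Y Z : Type*} [Fintype Λ] [DecidableEq Λ] [Fintype X] [DecidableEq X]
    [Fintype Y] [DecidableEq Y] [Fintype Z] [DecidableEq Z] [IsEmpty Z] (R : Matrix Λ Λ ℂ)
    (x : X → Λ) (y : Y → Λ) (z : Z → Λ) : (blk R x (Sum.elim y z)).det = (blk R x y).det := by
  rw [← det_submatrix_equiv_self (Equiv.sumCongr (Equiv.refl X) (Equiv.sumEmpty Y Z).symm)]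
  congr 1
  ext (a | a) (b | b) <;> simp [blk]

lemma pert_six (B : ℕ) (cc : Finset (Ev l) → ℝ) (hc : cc ∅ = 1) (x : Fin 6 → ZMod (4 * l)) :
    pert B cc x = ∑ c, ∑ y : Fin 6 → Ev l, ((∏ i, hh B c (y i) : ℝ) : ℂ) *
      (blk (RR l) x fun i => (y i).1).det := by
  rw [pert, Finset.sum_eq_single ∅, hc, Complex.ofReal_one, one_mul]
  · refine Finset.sum_congr rfl fun c _ => Finset.sum_congr rfl fun y _ => ?_
    rw [blk_det_sum_empty]
  · intro T _ hT
    have := (Finset.nonempty_iff_ne_empty.2 hT).card_pos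
    simp only [blk_det_eq_zero_of_card (RR l) x (Y := Fin 6 ⊕ T) _ (by simpa using this),
      mul_zero, Finset.sum_const_zero]
  · simp

/-- The positions `a, a + z_1, ..., a + z_m` modulo the period. -/
def pos {m : ℕ} (a : ZMod (4 * l)) (z : Fin m → ℤ) : Fin (m + 1) → ZMod (4 * l) :=
  fun i => a + ((Fin.cons 0 z : Fin (m + 1) → ℤ) i : ℤ)

lemma exists_F {m : ℕ} {g : (Fin m → ℝ) → ℂ} (hg : Nice m g) :
    ∃ F : (Fin (m + 1) → ZMod (4 * l)) → ℂ, ∀ Ψ : (Fin (m + 1) → ZMod (4 * l)) → ℂ,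
      HasSum (fun z : Fin m → ℤ => g (fun i => (z i : ℝ) / 2) * ∑ a, Ψ (pos a z))
        (∑ x, F x * Ψ x) := by
  refine ⟨fun x => ∑' z : Fin m → ℤ, g (fun i => (z i : ℝ) / 2) *
    ∑ a, if pos a z = x then 1 else 0, fun Ψ => ?_⟩
  have h1 : ∀ z : Fin m → ℤ, g (fun i => (z i : ℝ) / 2) * ∑ a, Ψ (pos a z) =
      ∑ x, (g (fun i => (z i : ℝ) / 2) * ∑ a, if pos a z = x then 1 else 0) * Ψ x := by
    intro z
    simp only [mul_assoc, ← Finset.mul_sum, Finset.sum_mul]
    rw [Finset.sum_comm]; simp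
  simp only [h1]
  refine hasSum_sum fun x _ => (Summable.hasSum ?_).mul_right _
  refine Summable.of_norm_bounded (hg.summ.mul_right (Fintype.card (ZMod (4 * l)) : ℝ)) fun z => ?_
  rw [norm_mul]
  refine mul_le_mul_of_nonneg_left ((norm_sum_le _ _).trans ?_) (norm_nonneg _)
  calc _ ≤ ∑ _a : ZMod (4 * l), (1 : ℝ) := Finset.sum_le_sum fun a _ => by split_ifs <;> simp
    _ = _ := by simp

lemma hasSum_pert {B : ℕ} (hB : 3 * B ≤ l) (cc : Finset (Ev l) → ℝ) {m : ℕ}
    {g : (Fin m → ℝ) → ℂ} (hg : Nice m g) :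
    HasSum (fun z : Fin m → ℤ => g (fun i => (z i : ℝ) / 2) * ∑ a, pert B cc (pos a z)) 0 := by
  obtain ⟨F, hF⟩ := exists_F (l := l) hg
  have hM : (0 : ℝ) < (4 * l : ℕ) := by exact_mod_cast NeZero.pos (4 * l)
  have hspec : ∀ θ : Fin (m + 1) → ZMod (4 * l), ∑ x, F x * ∏ i, ch (x i * θ i) ≠ 0 →
      ∃ k : Fin (m + 1) → ℤ, (∀ i, (k i : ZMod (4 * l)) = θ i) ∧ ∑ i, |k i| < 4 * l := by
    intro θ hθ
    have h1 := hF fun x => ∏ i, ch (x i * θ i)
    let k : Fin m → ℤ := fun j => (θ j.succ).valMinAbs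
    have hk : ∀ j, |(k j : ℝ) / (4 * l : ℕ)| ≤ 1 / 2 := by
      intro j
      have := ZMod.valMinAbs_mem_Ioc (θ j.succ)
      have h2 : -((4 * l : ℕ) : ℝ) < k j * 2 := by exact_mod_cast this.1
      have h3 : (k j : ℝ) * 2 ≤ (4 * l : ℕ) := by exact_mod_cast this.2
      rw [abs_div, abs_of_pos hM, div_le_iff₀ hM, abs_le]
      constructor <;> linarith
    have h2 : ∀ z : Fin m → ℤ, g (fun i => (z i : ℝ) / 2) * ∑ a, ∏ i, ch (pos a z i * θ i) =
        (if ∑ i, θ i = 0 then ((4 * l : ℕ) : ℂ) else 0) *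
          (g (fun i => (z i : ℝ) / 2) * ee (∑ j, (k j : ℝ) / (4 * l : ℕ) * z j)) := by
      intro z
      simp only [pos, add_mul, ch_add, Finset.prod_mul_distrib, ← Finset.sum_mul]
      simp only [← ch_sum, ← Finset.mul_sum, sum_ch]
      rw [mul_left_comm]
      congr 2
      have := ch_int (M := 4 * l) (∑ j, k j * z j)
      simp only [Int.cast_sum, Int.cast_mul, k, ZMod.coe_valMinAbs] at this
      simp only [Fin.sum_univ_succ, Fin.cons_zero, Fin.cons_succ, Int.cast_zero, mul_zero,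
        zero_add, mul_comm (_ : ZMod (4 * l)) (θ _), this, Finset.sum_div]
      congr 1
      exact Finset.sum_congr rfl fun j _ => by ring
    simp only [h2] at h1
    rw [h1.unique ((hg.pois _ hk).mul_left _)] at hθ
    have h3 : ∑ i, θ i = 0 := by
      by_contra c; simp [c] at hθ
    have h4 := hg.supp _ (right_ne_zero_of_mul (right_ne_zero_of_mul hθ))
    refine ⟨Fin.cons (-∑ j, k j) k, fun i => ?_, ?_⟩
    · refine Fin.cases ?_ (fun j => ?_) i
      · rw [Fin.sum_univ_succ] at h3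
        simp only [Fin.cons_zero, k, Int.cast_neg, Int.cast_sum, ZMod.coe_valMinAbs]
        linear_combination -h3
      · simp [k]
    · simp only [abs_div, abs_of_pos hM, ← Finset.sum_div, ← add_div, div_lt_one hM] at h4
      simp only [Fin.sum_univ_succ, Fin.cons_zero, Fin.cons_succ, abs_neg]
      exact_mod_cast h4
  have h := hF (pert B cc)
  have h0 : ∑ x, F x * pert B cc x = 0 := by
    simp only [pert, Finset.mul_sum]
    rw [Finset.sum_comm]
    refine Finset.sum_eq_zero fun T _ => ?_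
    rw [Finset.sum_comm]
    refine Finset.sum_eq_zero fun c _ => ?_
    have := spectral hB F hspec c fun t : T => t.1.1
    simp only [mul_left_comm (F _) (cc T : ℂ), ← Finset.mul_sum]
    rw [this, mul_zero]
  rwa [h0] at h

end Pool.Agent.P.MP_039ae7_nt
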