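import Pool.Agent.P.MP_039ae7_nt.Stage

/-! From an occupation sequence to a point sequence in the class. -/

namespace Pool.Agent.P.MP_039ae7_nt

open Finset Filter Topology MeasureTheory

variable {η : ℤ → ℝ} {ρ : Finset ℤ → ℝ}

/-- The occupied sites, in increasing order. -/
noncomputable def site (η : ℤ → ℝ) (j : ℕ) : ℕ := Nat.nth (fun n : ℕ => η n = 1) j

open Classical in
lemma count_eq (h01 : ∀ x, η x = 0 ∨ η x = 1) (X : ℕ) :
    (Nat.count (fun n : ℕ => η n = 1) X : ℝ) = ∑ a ∈ range X, η a := by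
  rw [Nat.count_eq_card_filter_range, Finset.card_filter]
  push_cast
  exact Finset.sum_congr rfl fun a _ => by rcases h01 a with h | h <;> simp [h]

lemma infinite_occ (h01 : ∀ x, η x = 0 ∨ η x = 1)
    (h : Tendsto (fun X : ℕ => (X : ℝ)⁻¹ * ∑ a ∈ range X, η a) atTop (𝓝 (1 / 2))) :
    (Set.ofPred fun n : ℕ => η n = 1).Infinite := by
  classical
  intro hf
  have h2 : Tendsto (fun X : ℕ => (X : ℝ)⁻¹ * hf.toFinset.card) atTop (𝓝 0) := by
    simpa using tendsto_inv_atTop_nhds_zero_nat (𝕜 := ℝ).mul_const (hf.toFinset.card : ℝ)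
  have := le_of_tendsto_of_tendsto' h h2 fun X => by
    rw [← count_eq h01]
    exact mul_le_mul_of_nonneg_left (by exact_mod_cast Nat.count_le_card hf X) (by positivity)
  norm_num at this

lemma tendsto_per_point (h01 : ∀ x, η x = 0 ∨ η x = 1)
    (h : Tendsto (fun X : ℕ => (X : ℝ)⁻¹ * ∑ a ∈ range X, η a) atTop (𝓝 (1 / 2)))
    {s : ℕ → ℝ} {c : ℝ} (hs : Tendsto (fun X : ℕ => (X : ℝ)⁻¹ * s X) atTop (𝓝 c)) :
    Tendsto (fun N : ℕ => s (site η N) / N) atTop (𝓝 (2 * c)) := by
  classical
  have hinf := infinite_occ h01 h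
  have ht : Tendsto (site η) atTop atTop := (Nat.nth_strictMono hinf).tendsto_atTop
  have h1 := ((h.comp ht).inv₀ (by norm_num)).mul (hs.comp ht)
  rw [show (1 / 2 : ℝ)⁻¹ = 2 by norm_num] at h1
  refine h1.congr' ?_
  filter_upwards [ht.eventually_gt_atTop 0] with N hN
  have : (site η N : ℝ) ≠ 0 := by positivity
  simp only [Function.comp, ← count_eq h01]
  rw [show Nat.count (fun n : ℕ => η n = 1) (site η N) = N from Nat.count_nth_of_infinite hinf N]
  field_simp

lemma tendsto_count (h01 : ∀ x, η x = 0 ∨ η x = 1)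
    (h : Tendsto (fun X : ℕ => (X : ℝ)⁻¹ * ∑ a ∈ range X, η a) atTop (𝓝 (1 / 2))) :
    Tendsto (fun X : ℝ => (Set.ncard {j | (site η j : ℝ) / 2 ≤ X} : ℝ) / X) atTop (𝓝 1) := by
  classical
  have hinf := infinite_occ h01 h
  have ht : Tendsto (fun X : ℝ => ⌊2 * X⌋₊ + 1) atTop atTop :=
    (tendsto_add_atTop_nat 1).comp (tendsto_nat_floor_atTop.comp
      (tendsto_id.const_mul_atTop two_pos))
  have h1 := (h.comp ht).mul ((tendsto_nat_floor_mul_div_atTop (zero_le_two (α := ℝ))).add
    tendsto_inv_atTop_zero)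
  rw [show (1 / 2 : ℝ) * (2 + 0) = 1 by norm_num] at h1
  refine h1.congr' ?_
  filter_upwards [eventually_gt_atTop 0] with X hX
  have e : {j | (site η j : ℝ) / 2 ≤ X} =
      (range (Nat.count (fun n : ℕ => η n = 1) (⌊2 * X⌋₊ + 1)) : Set ℕ) := by
    ext j
    simp only [Set.mem_ofPred_eq, Finset.coe_range, Set.mem_Iio, Nat.lt_nth_iff_count_lt hinf,
      Nat.lt_add_one_iff, Nat.le_floor_iff (by positivity : (0 : ℝ) ≤ 2 * X), site]
    constructor <;> intro h <;> linarith
  rw [e, Set.ncard_coe_finset, Finset.card_range, count_eq h01]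
  simp only [Function.comp]
  push_cast
  field_simp

lemma site_succ (hinf : (Set.ofPred fun n : ℕ => η n = 1).Infinite) (j : ℕ) :
    site η (j + 1) = site η j + 5 ↔
      η (site η j + 5 : ℕ) = 1 ∧ ∀ t : ℕ, 1 ≤ t → t ≤ 4 → η (site η j + t : ℕ) ≠ 1 := by
  have hm : StrictMono (site η) := Nat.nth_strictMono hinf
  have hp : ∀ k, η (site η k) = 1 := Nat.nth_mem_of_infinite hinf
  have hs : ∀ n : ℕ, η n = 1 → ∃ k, site η k = n := fun n hn =>
    Nat.subset_range_nth (p := fun n : ℕ => η n = 1) hn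
  constructor
  · intro h
    refine ⟨h ▸ hp _, fun t h1 h2 c => ?_⟩
    obtain ⟨k, hk⟩ := hs _ c
    have a : j < k := hm.lt_iff_lt.1 (by omega)
    have b : k < j + 1 := hm.lt_iff_lt.1 (by omega)
    omega
  · rintro ⟨h1, h2⟩
    obtain ⟨k, hk⟩ := hs _ h1
    have a : j < k := hm.lt_iff_lt.1 (by omega)
    have b : site η (j + 1) ≤ site η k := hm.monotone a
    have c : site η j < site η (j + 1) := hm (Nat.lt_succ_self j)
    by_contra hne
    refine h2 (site η (j + 1) - site η j) (by omega) (by omega) ?_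
    rw [show site η j + (site η (j + 1) - site η j) = site η (j + 1) by omega]
    exact hp _

lemma site_succ' (hinf : (Set.ofPred fun n : ℕ => η n = 1).Infinite) (j : ℕ) :
    site η (j + 1) = site η j + 5 ↔ η (site η j + 5) = 1 ∧ η (site η j + 1) ≠ 1 ∧
      η (site η j + 2) ≠ 1 ∧ η (site η j + 3) ≠ 1 ∧ η (site η j + 4) ≠ 1 := by
  rw [site_succ hinf]
  push_cast
  refine and_congr_right fun _ => ⟨fun c => ⟨by simpa using c 1,
    by simpa using c 2, by simpa using c 3, by simpa using c 4⟩, fun c t h1 h2 => ?_⟩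
  interval_cases t
  exacts [by simpa using c.1, by simpa using c.2.1, by simpa using c.2.2.1,
    by simpa using c.2.2.2]

/-- The inclusion-exclusion expression for the gap of five sites. -/
def gapVal (ρ : Finset ℤ → ℝ) : ℝ :=
  ∑ B ∈ ({1, 2, 3, 4} : Finset ℤ).powerset, (-1) ^ #B * ρ (insert 0 (insert 5 B))

lemma tendsto_gap (h01 : ∀ x, η x = 0 ∨ η x = 1) (h0 : ρ {0} = 1 / 2)
    (h : ∀ A, Tendsto (fun X : ℕ => (X : ℝ)⁻¹ * ∑ a ∈ range X, ∏ t ∈ A, η (a + t)) atTop
      (𝓝 (ρ A))) :
    Tendsto (gapFreq (fun j => (site η j : ℝ) / 2) (5 / 2)) atTop (𝓝 (2 * gapVal ρ)) := by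
  classical
  have h1 : Tendsto (fun X : ℕ => (X : ℝ)⁻¹ * ∑ a ∈ range X, η a) atTop (𝓝 (1 / 2)) := by
    simpa [h0] using h {0}
  have hinf := infinite_occ h01 h1
  have hm : StrictMono (site η) := Nat.nth_strictMono hinf
  let F : ℕ → ℝ := fun a => η a * (η (a + 5) * ∏ t ∈ ({1, 2, 3, 4} : Finset ℤ), (1 - η (a + t)))
  have h2 : Tendsto (fun X : ℕ => (X : ℝ)⁻¹ * ∑ a ∈ range X, F a) atTop (𝓝 (gapVal ρ)) := by
    refine (tendsto_finsetSum _ fun B _ => (h _).const_mul _).congr fun X => ?_
    simp only [F, Finset.prod_sub, Finset.mul_sum]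
    rw [Finset.sum_comm]
    refine Finset.sum_congr rfl fun a _ => Finset.sum_congr rfl fun B hB => ?_
    have hB' := Finset.mem_powerset.1 hB
    have a5 : (5 : ℤ) ∉ B := fun c => by simpa using hB' c
    have a0 : (0 : ℤ) ∉ insert 5 B := by
      rw [Finset.mem_insert]; rintro (c | c)
      · omega
      · simpa using hB' c
    rw [Finset.prod_insert a0, Finset.prod_insert a5]
    simp only [Finset.prod_const_one, add_zero]; ring
  refine (tendsto_per_point h01 h1 h2).congr fun N => ?_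
  rw [gapFreq]
  congr 1
  let q : ℕ → Prop := fun a =>
    η a = 1 ∧ η (a + 5) = 1 ∧ η (a + 1) ≠ 1 ∧ η (a + 2) ≠ 1 ∧ η (a + 3) ≠ 1 ∧ η (a + 4) ≠ 1
  have e : site η '' {j | j < N ∧ |(site η (j + 1) : ℝ) / 2 - (site η j : ℝ) / 2 - 5 / 2| < 1 / 4}
      = ((range (site η N)).filter q : Set ℕ) := by
    have e1 : ∀ j, |(site η (j + 1) : ℝ) / 2 - (site η j : ℝ) / 2 - 5 / 2| < 1 / 4 ↔
        site η (j + 1) = site η j + 5 := by
      intro j
      constructor
      · intro c
        rw [abs_lt] at c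
        have a : (site η (j + 1) : ℝ) < (site η j + 6 : ℕ) := by push_cast; linarith
        have b : ((site η j + 4 : ℕ) : ℝ) < site η (j + 1) := by push_cast; linarith
        rw [Nat.cast_lt] at a b
        omega
      · intro c; rw [c]; push_cast; ring_nf; norm_num
    ext a
    simp only [Set.mem_image, Set.mem_ofPred_eq, Finset.coe_filter, Finset.mem_range, e1,
      site_succ' hinf, q]
    constructor
    · rintro ⟨j, ⟨a, b⟩, rfl⟩
      exact ⟨hm a, Nat.nth_mem_of_infinite hinf j, b⟩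
    · rintro ⟨a1, a2, a3⟩
      obtain ⟨j, rfl⟩ : ∃ k, site η k = a := Nat.subset_range_nth (p := fun n : ℕ => η n = 1) a2
      exact ⟨j, ⟨hm.lt_iff_lt.1 a1, a3⟩, rfl⟩
  rw [← Set.ncard_image_of_injective _ hm.injective, e, Set.ncard_coe_finset, Finset.card_filter]
  push_cast
  refine Finset.sum_congr rfl fun a _ => ?_
  simp only [q, F]
  rcases h01 a with a0 | a0 <;> rcases h01 (a + 5) with a5 | a5 <;>
    rcases h01 (a + 1) with a1 | a1 <;> rcases h01 (a + 2) with a2 | a2 <;>
    rcases h01 (a + 3) with a3 | a3 <;> rcases h01 (a + 4) with a4 | a4 <;>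
    simp [a0, a1, a2, a3, a4, a5]

lemma hasSum_points (h01 : ∀ x, η x = 0 ∨ η x = 1) (hneg : ∀ x < 0, η x = 0)
    (hinf : (Set.ofPred fun n : ℕ => η n = 1).Infinite) {m : ℕ} {f : (Fin (m + 1) → ℝ) → ℝ}
    (htr : ∀ (t : ℝ) (x : Fin (m + 1) → ℝ), f (fun i => x i + t) = f x)
    (hs : Summable fun z : Fin m → ℤ => |f (Fin.cons 0 fun i => (z i : ℝ) / 2)|) (N : ℕ) :
    HasSum (fun j : {j : Fin (m + 1) → ℕ // Function.Injective j ∧ j 0 < N} =>
        f (fun i => (site η (j.1 i) : ℝ) / 2))
      (∑' z : Fin m → ℤ, f (Fin.cons 0 fun i => (z i : ℝ) / 2) *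
        if Function.Injective (pts z) then
          ∑ a ∈ range (site η N), ∏ t ∈ univ.image (pts z), η (a + t) else 0) := by
  have hm : StrictMono (site η) := Nat.nth_strictMono hinf
  let Φ : (Fin m → ℤ) × Fin (site η N) → ℝ := fun q => f (Fin.cons 0 fun i => (q.1 i : ℝ) / 2) *
    if Function.Injective (pts q.1) then ∏ t ∈ univ.image (pts q.1), η ((q.2 : ℕ) + t) else 0
  have h1 : Summable Φ := by
    refine Summable.of_norm_bounded (Summable.mul_of_nonneg hs
      (Summable.of_finite (f := fun _ : Fin (site η N) => (1 : ℝ))) (fun _ => abs_nonneg _)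
      fun _ => zero_le_one) fun q => ?_
    simp only [Φ, Real.norm_eq_abs, abs_mul]
    refine mul_le_mul_of_nonneg_left ?_ (abs_nonneg _)
    have := prod_mem (univ.image (pts q.1)) (fun t => η ((q.2 : ℕ) + t)) fun t => h01 _
    split_ifs
    · rw [abs_of_nonneg this.1]; exact this.2
    · simp
  have h2 := (h1.hasSum.prod_fiberwise fun z => hasSum_fintype _).tsum_eq
  have h3 : ∀ z, ∑ a, Φ (z, a) = f (Fin.cons 0 fun i => (z i : ℝ) / 2) *
      if Function.Injective (pts z) then
        ∑ a ∈ range (site η N), ∏ t ∈ univ.image (pts z), η (a + t) else 0 := by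
    intro z
    simp only [Φ, ← Finset.mul_sum]
    split_ifs
    · rw [Finset.sum_range]
    · simp
  simp only [h3] at h2
  rw [h2]
  let ι : {j : Fin (m + 1) → ℕ // Function.Injective j ∧ j 0 < N} →
      (Fin m → ℤ) × Fin (site η N) := fun j =>
    (fun i => (site η (j.1 i.succ) : ℤ) - site η (j.1 0), ⟨site η (j.1 0), hm j.2.2⟩)
  have hι : ∀ j i, pts (ι j).1 i = (site η (j.1 i) : ℤ) - site η (j.1 0) := fun j i => by
    refine Fin.cases ?_ (fun k => ?_) i <;> simp [pts, ι]
  have hinj : Function.Injective ι := by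
    intro j j' e
    have a : site η (j.1 0) = site η (j'.1 0) := congrArg (fun q => (q.2 : ℕ)) e
    ext i
    have b := hι j i
    rw [e, hι, a] at b
    exact (hm.injective (by omega)).symm
  have h4 := (hinj.hasSum_iff (f := Φ) fun q hq => ?_).2 h1.hasSum
  · refine h4.congr_fun fun j => ?_
    have a : Function.Injective (pts (ι j).1) := fun i i' e => by
      rw [hι, hι] at e
      exact j.2.1 (hm.injective (by omega))
    simp only [Function.comp, Φ, if_pos a]
    rw [Finset.prod_eq_one, mul_one, ← htr (-(site η (j.1 0) : ℝ) / 2)]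
    · congr 1
      funext i
      refine Fin.cases ?_ (fun k => ?_) i
      · simp; ring
      · simp [ι]; ring
    · intro t ht
      obtain ⟨i, -, rfl⟩ := Finset.mem_image.1 ht
      rw [hι]
      simp only [ι, add_sub_cancel]
      exact Nat.nth_mem_of_infinite hinf _
  · by_contra hne
    apply hq
    have a := right_ne_zero_of_mul hne
    have b : Function.Injective (pts q.1) := by by_contra c; simp [c] at a
    rw [if_pos b, Finset.prod_ne_zero_iff] at a
    have c : ∀ i, ∃ k, (site η k : ℤ) = (q.2 : ℕ) + pts q.1 i := by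
      intro i
      have d := a _ (Finset.mem_image_of_mem _ (Finset.mem_univ i))
      have e : 0 ≤ (q.2 : ℕ) + pts q.1 i := by
        by_contra c; exact d (hneg _ (by omega))
      obtain ⟨n, hn⟩ := Int.eq_ofNat_of_zero_le e
      rw [hn] at d ⊢
      obtain ⟨k, hk⟩ : ∃ k, site η k = n := Nat.subset_range_nth (p := fun n : ℕ => η n = 1)
        ((h01 n).resolve_left d)
      exact ⟨k, by rw [hk]⟩
    choose k hk using c
    have k0 : site η (k 0) = q.2 := by
      have := hk 0
      simp only [pts, Fin.cons_zero] at this; omega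
    refine ⟨⟨k, fun i i' e => b ?_, hm.lt_iff_lt.1 (k0 ▸ q.2.2)⟩, Prod.ext ?_ (Fin.ext k0)⟩
    · have a1 := hk i
      have a2 := hk i'
      rw [e] at a1; omega
    · funext i
      have := hk i.succ
      simp only [pts, Fin.cons_succ] at this
      simp only [ι]; omega

theorem inS_site (h01 : ∀ x, η x = 0 ∨ η x = 1) (hneg : ∀ x < 0, η x = 0) (h0 : ρ {0} = 1 / 2)
    (h : ∀ A, Tendsto (fun X : ℕ => (X : ℝ)⁻¹ * ∑ a ∈ range X, ∏ t ∈ A, η (a + t)) atTop
      (𝓝 (ρ A)))
    (hc : ∀ m g, Nice m g → ∑' z : Fin m → ℤ, g (fun i => (z i : ℝ) / 2) *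
      (if Function.Injective (pts z) then (ρ (univ.image (pts z)) : ℂ) else 0) =
      1 / 2 * ∫ y, g y * corrW (Fin.cons 0 y : Fin (m + 1) → ℝ)) :
    InS fun j => (site η j : ℝ) / 2 := by
  have h1 : Tendsto (fun X : ℕ => (X : ℝ)⁻¹ * ∑ a ∈ range X, η a) atTop (𝓝 (1 / 2)) := by
    simpa [h0] using h {0}
  have hinf := infinite_occ h01 h1
  have hm : StrictMono (site η) := Nat.nth_strictMono hinf
  refine ⟨fun i j hij => ?_, tendsto_count h01 h1, ?_, fun m _ f hf => ?_⟩
  · have : (site η i : ℝ) ≤ site η j := by exact_mod_cast hm.monotone hij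
    linarith
  · refine tendsto_const_nhds.congr fun j => (Metric.infDist_zero_of_mem ?_).symm
    have : site η j < site η (j + 1) := hm (Nat.lt_succ_self j)
    exact ⟨(site η (j + 1) : ℤ) - site η j, by omega, by push_cast; ring⟩
  · have hn := nice_of_test hf
    have hs : Summable fun z : Fin m → ℤ => |f (Fin.cons 0 fun i => (z i : ℝ) / 2)| := by
      simpa using hn.summ
    refine ⟨_, hasSum_points h01 hneg hinf hf.2.1 hs, ?_⟩
    have h2 : ∑' z : Fin m → ℤ, f (Fin.cons 0 fun i => (z i : ℝ) / 2) *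
        (if Function.Injective (pts z) then ρ (univ.image (pts z)) else 0) =
        1 / 2 * ∫ y, f (Fin.cons 0 y) * corrW (Fin.cons 0 y : Fin (m + 1) → ℝ) := by
      apply Complex.ofReal_injective
      rw [Complex.ofReal_tsum, Complex.ofReal_mul, ← integral_complex_ofReal]
      have := hc m _ hn
      push_cast [apply_ite ((↑) : ℝ → ℂ)]
      exact this
    have h3 := tendsto_tsum_of_dominated_convergence (𝓕 := atTop)
      (f := fun (X : ℕ) (z : Fin m → ℤ) => f (Fin.cons 0 fun i => (z i : ℝ) / 2) *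
        if Function.Injective (pts z) then
          (X : ℝ)⁻¹ * ∑ a ∈ range X, ∏ t ∈ univ.image (pts z), η (a + t) else 0)
      (g := fun z => f (Fin.cons 0 fun i => (z i : ℝ) / 2) *
        (if Function.Injective (pts z) then ρ (univ.image (pts z)) else 0)) hs
      (fun z => Tendsto.const_mul _ (by split_ifs; exacts [h _, tendsto_const_nhds]))
      (Eventually.of_forall fun X z => by
        rw [Real.norm_eq_abs, abs_mul]
        refine mul_le_of_le_one_right (abs_nonneg _) ?_
        have := fun a : ℕ => prod_mem (univ.image (pts z)) (fun t => η (a + t)) fun t => h01 _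
        split_ifs
        · rw [abs_of_nonneg (mul_nonneg (by positivity) (Finset.sum_nonneg fun a _ => (this a).1))]
          exact inv_mul_le_one_of_le₀
            ((Finset.sum_le_sum fun a _ => (this a).2).trans (by simp)) (by positivity)
        · simp)
    rw [h2] at h3
    have h4 := tendsto_per_point h01 h1 (s := fun X => ∑' z : Fin m → ℤ,
      f (Fin.cons 0 fun i => (z i : ℝ) / 2) * if Function.Injective (pts z) then
        ∑ a ∈ range X, ∏ t ∈ univ.image (pts z), η (a + t) else 0) (h3.congr fun X => by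
      rw [← tsum_mul_left]
      refine tsum_congr fun z => ?_
      split_ifs <;> ring)
    rwa [← mul_assoc, show (2 : ℝ) * (1 / 2) = 1 by norm_num, one_mul] at h4

end Pool.Agent.P.MP_039ae7_nt
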