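import Pool.Agent.P.MP_039ae7_nt.Defs

/-! Band-limited sampling identity on the half-integer lattice. -/

namespace Pool.Agent.P.MP_039ae7_nt

open Filter Topology MeasureTheory FourierTransform

/-- `e(t) = exp (2 pi i t)`. -/
noncomputable def ee (t : ℝ) : ℂ := Complex.exp (2 * Real.pi * Complex.I * t)

lemma ee_add (s t : ℝ) : ee (s + t) = ee s * ee t := by
  unfold ee; rw [← Complex.exp_add]; push_cast; ring_nf

@[simp] lemma ee_zero : ee 0 = 1 := by simp [ee]

@[simp] lemma norm_ee (t : ℝ) : ‖ee t‖ = 1 := by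
  unfold ee
  rw [show (2 * Real.pi * Complex.I * t : ℂ) = ((2 * Real.pi * t : ℝ) : ℂ) * Complex.I by
    push_cast; ring, Complex.norm_exp_ofReal_mul_I]

lemma ee_sum {ι : Type*} (s : Finset ι) (t : ι → ℝ) : ee (∑ i ∈ s, t i) = ∏ i ∈ s, ee (t i) := by
  classical
  induction s using Finset.induction_on with
  | empty => simp
  | insert a s ha ih => rw [Finset.sum_insert ha, Finset.prod_insert ha, ee_add, ih]

lemma continuous_ee : Continuous ee := by unfold ee; fun_prop

lemma summable_pi_prod {m : ℕ} (φ : ℤ → ℝ) (h0 : ∀ k, 0 ≤ φ k) (hs : Summable φ) :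
    Summable fun z : Fin m → ℤ => ∏ i, φ (z i) := by
  classical
  refine summable_of_sum_le (c := ∏ _i : Fin m, ∑' k, φ k)
    (fun z => Finset.prod_nonneg fun i _ => h0 _) fun s => ?_
  calc ∑ z ∈ s, ∏ i, φ (z i)
      ≤ ∑ z ∈ Fintype.piFinset (fun i => s.image fun z => z i), ∏ i, φ (z i) := by
        refine Finset.sum_le_sum_of_subset_of_nonneg (fun z hz => ?_)
          fun z _ _ => Finset.prod_nonneg fun i _ => h0 _
        exact Fintype.mem_piFinset.2 fun i => Finset.mem_image_of_mem _ hz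
    _ = ∏ i : Fin m, ∑ k ∈ s.image (fun z => z i), φ k := (Finset.prod_univ_sum _ _).symm
    _ ≤ _ := Finset.prod_le_prod (fun i _ => Finset.sum_nonneg fun k _ => h0 k)
        fun i _ => hs.sum_le_tsum _ fun k _ => h0 k

lemma summable_phi : Summable fun k : ℤ => 4 / (1 + |(k : ℝ)|) ^ 2 := by
  have h : Summable fun n : ℕ => 4 / (1 + (n : ℝ)) ^ 2 := by
    have := (summable_nat_add_iff 1).2 (Real.summable_one_div_nat_pow.2 (by norm_num : 1 < 2))
    refine (this.mul_left 4).congr fun n => ?_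
    push_cast; ring
  refine Summable.of_nat_of_neg ?_ ?_
  · simpa using h
  · simpa using h

lemma summable_lattice {m : ℕ} (g : SchwartzMap (EuclideanSpace ℝ (Fin m)) ℂ) :
    Summable fun z : Fin m → ℤ => ‖g (WithLp.toLp 2 fun i => (z i : ℝ) / 2)‖ := by
  obtain ⟨C, hC⟩ : ∃ C : ℝ, ∀ x, (1 + ‖x‖) ^ (2 * m) * ‖g x‖ ≤ C := by
    have := fun x => SchwartzMap.one_add_le_sup_seminorm_apply (𝕜 := ℝ) (m := (2 * m, 0))
      (k := 2 * m) (n := 0) le_rfl le_rfl g x
    simp only [norm_iteratedFDeriv_zero] at this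
    exact ⟨_, this⟩
  have hC0 : 0 ≤ C := le_trans (by positivity) (hC 0)
  refine Summable.of_nonneg_of_le (fun _ => norm_nonneg _) (fun z => ?_)
    ((summable_pi_prod (m := m) _ (fun k => by positivity) summable_phi).mul_left C)
  set x : EuclideanSpace ℝ (Fin m) := WithLp.toLp 2 fun i => (z i : ℝ) / 2 with hx
  have h1 : 1 ≤ (∏ i, 4 / (1 + |(z i : ℝ)|) ^ 2) * (1 + ‖x‖) ^ (2 * m) := by
    have : (1 + ‖x‖) ^ (2 * m) = ∏ _i : Fin m, (1 + ‖x‖) ^ 2 := by
      simp [← pow_mul]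
    rw [this, ← Finset.prod_mul_distrib]
    refine Finset.one_le_prod fun i _ => ?_
    have h2 : |(z i : ℝ)| / 2 ≤ ‖x‖ := by
      have := PiLp.norm_apply_le x i
      simpa [hx, abs_div] using this
    rw [div_mul_eq_mul_div, le_div_iff₀ (by positivity)]
    have h3 : 0 ≤ |(z i : ℝ)| := abs_nonneg _
    nlinarith
  calc ‖g x‖ ≤ ((∏ i, 4 / (1 + |(z i : ℝ)|) ^ 2) * (1 + ‖x‖) ^ (2 * m)) * ‖g x‖ :=
        le_mul_of_one_le_left (norm_nonneg _) h1
    _ = (∏ i, 4 / (1 + |(z i : ℝ)|) ^ 2) * ((1 + ‖x‖) ^ (2 * m) * ‖g x‖) := by ring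
    _ ≤ (∏ i, 4 / (1 + |(z i : ℝ)|) ^ 2) * C :=
        mul_le_mul_of_nonneg_left (hC x) (Finset.prod_nonneg fun i _ => by positivity)
    _ = _ := mul_comm _ _

lemma mFourier_coe {m : ℕ} (z : Fin m → ℤ) (θ : Fin m → ℝ) :
    UnitAddTorus.mFourier z (fun i => ((θ i : ℝ) : UnitAddCircle)) = ee (∑ i, θ i * z i) := by
  rw [ee_sum]
  simp only [UnitAddTorus.mFourier, ContinuousMap.coe_mk, fourier_coe_apply, ee]
  refine Finset.prod_congr rfl fun i _ => ?_
  congr 1; push_cast; ring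

/-- A continuous function on the cube vanishing on its boundary descends to the torus. -/
lemma exists_torus {m : ℕ} (G : (Fin m → ℝ) → ℂ) (hG : Continuous G)
    (h0 : ∀ θ, G θ ≠ 0 → ∀ i, |θ i| < 1 / 2) :
    ∃ φ : C(UnitAddTorus (Fin m), ℂ), ∀ θ : Fin m → ℝ, (∀ i, |θ i| ≤ 1 / 2) →
      φ (fun i => ((θ i : ℝ) : UnitAddCircle)) = G θ := by
  let φ : UnitAddTorus (Fin m) → ℂ := fun t => G fun i => (AddCircle.equivIoc 1 (-1 / 2) (t i)).1
  have key : ∀ θ : Fin m → ℝ, (∀ i, |θ i| ≤ 1 / 2) →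
      φ (fun i => ((θ i : ℝ) : UnitAddCircle)) = G θ := by
    intro θ hθ
    by_cases h : ∀ i, -1 / 2 < θ i
    · have : (fun i => (AddCircle.equivIoc 1 (-1 / 2) ((θ i : ℝ) : UnitAddCircle)).1) = θ := by
        funext i
        have hm : θ i ∈ Set.Ioc (-1 / 2 : ℝ) (-1 / 2 + 1) :=
          ⟨h i, by linarith [(abs_le.1 (hθ i)).2]⟩
        rw [AddCircle.equivIoc_coe_eq hm]
      simp only [φ, this]
    · push Not at h
      obtain ⟨i, hi⟩ := h
      have hi' : θ i = -1 / 2 := le_antisymm hi (by linarith [(abs_le.1 (hθ i)).1])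
      have e1 : G θ = 0 := by
        by_contra hne
        have := h0 θ hne i
        rw [hi'] at this; norm_num [abs_lt] at this
      rw [e1]
      by_contra hne
      have := h0 _ hne i
      have hm : (1 / 2 : ℝ) ∈ Set.Ioc (-1 / 2 : ℝ) (-1 / 2 + 1) := ⟨by norm_num, by norm_num⟩
      have e2 : ((θ i : ℝ) : UnitAddCircle) = ((1 / 2 : ℝ) : UnitAddCircle) := by
        rw [hi', show (1 / 2 : ℝ) = -1 / 2 + 1 by norm_num, AddCircle.coe_add_period]
      simp only [e2, AddCircle.equivIoc_coe_eq hm] at this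
      norm_num at this
  let Q : Set (Fin m → ℝ) := Set.Icc (fun _ => -1 / 2) (fun _ => 1 / 2)
  have hQ : ∀ θ ∈ Q, ∀ i, |θ i| ≤ 1 / 2 := fun θ hθ i =>
    abs_le.2 ⟨by have := hθ.1 i; simp only at this; linarith, hθ.2 i⟩
  have : CompactSpace Q := isCompact_iff_compactSpace.1 isCompact_Icc
  let π : Q → UnitAddTorus (Fin m) := fun θ i => ((θ.1 i : ℝ) : UnitAddCircle)
  have hπ : Continuous π := continuous_pi fun i =>
    (AddCircle.continuous_mk' 1).comp ((continuous_apply i).comp continuous_subtype_val)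
  have hs : Function.Surjective π := by
    intro t
    refine ⟨⟨fun i => (AddCircle.equivIoc 1 (-1 / 2) (t i)).1, fun i => ?_, fun i => ?_⟩, ?_⟩
    · exact (AddCircle.equivIoc 1 (-1 / 2) (t i)).2.1.le
    · have := (AddCircle.equivIoc 1 (-1 / 2) (t i)).2.2
      simp only; linarith
    · funext i; exact AddCircle.coe_equivIoc
  have hq : IsQuotientMap π := hπ.isClosedMap.isQuotientMap hπ hs
  have hφ : Continuous φ := by
    rw [hq.continuous_iff]
    have : φ ∘ π = fun θ : Q => G θ.1 := funext fun θ => key θ.1 (hQ θ.1 θ.2)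
    rw [this]
    exact hG.comp continuous_subtype_val
  exact ⟨⟨φ, hφ⟩, key⟩

lemma fourier_eq_ee {m : ℕ} (g : EuclideanSpace ℝ (Fin m) → ℂ) (ξ : Fin m → ℝ) :
    𝓕 g (WithLp.toLp 2 ξ) = ∫ y : Fin m → ℝ, g (WithLp.toLp 2 y) * ee (-∑ i, ξ i * y i) := by
  rw [Real.fourier_eq', ← (PiLp.volume_preserving_toLp (Fin m)).integral_comp
    (MeasurableEquiv.toLp 2 (Fin m → ℝ)).measurableEmbedding]
  refine integral_congr_ae (Eventually.of_forall fun y => ?_)
  simp only [smul_eq_mul, ee, PiLp.inner_apply, RCLike.inner_apply, conj_trivial]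
  rw [mul_comm]; congr 2; push_cast; ring

lemma fourierInv_eq_ee {m : ℕ} (g : EuclideanSpace ℝ (Fin m) → ℂ) (ξ : Fin m → ℝ) :
    𝓕⁻ g (WithLp.toLp 2 ξ) = ∫ y : Fin m → ℝ, g (WithLp.toLp 2 y) * ee (∑ i, ξ i * y i) := by
  rw [Real.fourierInv_eq_fourier_neg]
  have := fourier_eq_ee g (-ξ)
  simp only [Pi.neg_apply, neg_mul, Finset.sum_neg_distrib, neg_neg] at this
  exact this

theorem poisson {m : ℕ} (g : SchwartzMap (EuclideanSpace ℝ (Fin m)) ℂ)
    (hs : ∀ ξ : Fin m → ℝ, 𝓕 (fun y => g y) (WithLp.toLp 2 ξ) ≠ 0 → ∀ i, |ξ i| < 1)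
    (θ : Fin m → ℝ) (hθ : ∀ i, |θ i| ≤ 1 / 2) :
    HasSum (fun z : Fin m → ℤ => g (WithLp.toLp 2 fun i => (z i : ℝ) / 2) * ee (∑ i, θ i * z i))
      (2 ^ m * 𝓕 (fun y => g y) (WithLp.toLp 2 fun i => -2 * θ i)) := by
  let G : (Fin m → ℝ) → ℂ := fun θ => 2 ^ m * 𝓕 (fun y => g y) (WithLp.toLp 2 fun i => -2 * θ i)
  have hc : Continuous (𝓕 (fun y => g y)) := (𝓕 g : SchwartzMap _ ℂ).continuous
  have hG : Continuous G := by
    refine continuous_const.mul (hc.comp ?_)
    exact (PiLp.continuous_toLp 2 _).comp (by fun_prop)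
  have h0 : ∀ θ, G θ ≠ 0 → ∀ i, |θ i| < 1 / 2 := by
    intro θ h i
    have := hs _ (right_ne_zero_of_mul h) i
    rw [abs_mul] at this
    norm_num at this; linarith
  obtain ⟨φ, hφ⟩ := exists_torus G hG h0
  have hcoef : ∀ z : Fin m → ℤ,
      UnitAddTorus.mFourierCoeff φ z = g (WithLp.toLp 2 fun i => (z i : ℝ) / 2) := by
    intro z
    rw [UnitAddTorus.mFourierCoeff_eq_integral _ _ (fun _ => -1 / 2)]
    have hmeas : MeasurableSet {x : Fin m → ℝ | ∀ i, x i ∈ Set.Ioc (-1 / 2 : ℝ) (-1 / 2 + 1)} :=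
      MeasurableSet.univ_pi' fun i => measurableSet_Ioc
    rw [setIntegral_congr_fun hmeas (g := fun x => ee (∑ i, x i * (-z) i) * G x)]
    · rw [setIntegral_eq_integral_of_forall_compl_eq_zero]
      · have h1 := Measure.integral_comp_smul (μ := (volume : Measure (Fin m → ℝ)))
          (fun ξ : Fin m → ℝ => 𝓕 (fun y => g y) (WithLp.toLp 2 ξ) *
            ee (∑ i, ((z i : ℝ) / 2) * ξ i)) (-2)
        have h2 : 𝓕⁻ (𝓕 (fun y => g y)) = fun y => g y :=
          g.continuous.fourierInv_fourier_eq g.integrable (𝓕 g : SchwartzMap _ ℂ).integrable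
        rw [← fourierInv_eq_ee, h2] at h1
        have h3 : (fun x : Fin m → ℝ => ee (∑ i, x i * (-z) i) * G x) = fun x => 2 ^ m *
            (𝓕 (fun y => g y) (WithLp.toLp 2 ((-2 : ℝ) • x)) *
              ee (∑ i, ((z i : ℝ) / 2) * ((-2 : ℝ) • x) i)) := by
          funext x
          have : ∑ i, x i * (-z) i = ∑ i, ((z i : ℝ) / 2) * ((-2 : ℝ) • x) i :=
            Finset.sum_congr rfl fun i _ => by simp; ring
          rw [this]
          simp only [G]
          rw [show ((-2 : ℝ) • x) = fun i => -2 * x i from rfl]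
          ring
        rw [h3, integral_const_mul, h1]
        simp [abs_inv, abs_pow]
      · intro x hx
        by_contra hne
        have := h0 x (right_ne_zero_of_mul hne)
        exact hx fun i => ⟨by linarith [(abs_lt.1 (this i)).1], by linarith [(abs_lt.1 (this i)).2]⟩
    · intro x hx
      have hx' : ∀ i, |x i| ≤ 1 / 2 := fun i =>
        abs_le.2 ⟨by linarith [(hx i).1], by linarith [(hx i).2]⟩
      simp only [smul_eq_mul]
      rw [mFourier_coe, hφ x hx']
  have hsum : Summable (UnitAddTorus.mFourierCoeff φ) := by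
    rw [funext hcoef]
    exact (summable_lattice g).of_norm
  have := UnitAddTorus.hasSum_mFourier_series_apply_of_summable hsum
    (fun i => ((θ i : ℝ) : UnitAddCircle))
  simp only [hcoef, mFourier_coe, smul_eq_mul, hφ θ hθ] at this
  exact this

end Pool.Agent.P.MP_039ae7_nt
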