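import Mathlib

/-! From finite-volume measures to a single sequence with prescribed pattern frequencies. -/

namespace Pool.Agent.P.MP_039ae7_nt

open Finset Filter Topology

/-- `r` is the averaged correlation function of a random pattern on a window of length `M`. -/
def Realizable (M : ℕ) (r : Finset ℤ → ℝ) : Prop :=
  ∃ (Ω : Type) (_ : Fintype Ω) (ν : Ω → ℝ) (pat : Ω → ℤ → ℝ), (∀ S, 0 ≤ ν S) ∧ ∑ S, ν S = 1 ∧
    (∀ S x, pat S x = 0 ∨ pat S x = 1) ∧
    ∀ A, r A = (M : ℝ)⁻¹ * ∑ a ∈ range M, ∑ S, ν S * ∏ t ∈ A, pat S (a + t)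

lemma prod_mem {ι : Type*} (A : Finset ι) (F : ι → ℝ) (h : ∀ t, F t = 0 ∨ F t = 1) :
    0 ≤ ∏ t ∈ A, F t ∧ ∏ t ∈ A, F t ≤ 1 :=
  ⟨Finset.prod_nonneg fun t _ => by rcases h t with h | h <;> simp [h],
    Finset.prod_le_one (fun t _ => by rcases h t with h | h <;> simp [h])
      fun t _ => by rcases h t with h | h <;> simp [h]⟩

lemma Realizable.mem {M : ℕ} {r : Finset ℤ → ℝ} (h : Realizable M r) (A : Finset ℤ) :
    r A ∈ Set.Icc (0 : ℝ) 1 := by
  obtain ⟨Ω, _, ν, pat, h0, h1, h2, h3⟩ := h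
  rw [h3]
  refine ⟨mul_nonneg (by positivity) (Finset.sum_nonneg fun a _ => Finset.sum_nonneg fun S _ =>
    mul_nonneg (h0 S) (prod_mem _ _ fun t => h2 S _).1), ?_⟩
  refine inv_mul_le_one_of_le₀ ?_ (by positivity)
  calc _ ≤ ∑ _a ∈ range M, (1 : ℝ) := Finset.sum_le_sum fun a _ => ?_
    _ = _ := by simp
  rw [← h1]
  exact Finset.sum_le_sum fun S _ =>
    mul_le_of_le_one_right (h0 S) (prod_mem _ _ fun t => h2 S _).2

lemma switch (u : ℤ → ℤ) (hu : Monotone u) (pat : ℤ → ℤ → ℝ)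
    (hp : ∀ k x, pat k x = 0 ∨ pat k x = 1) (A : Finset ℤ) (D : ℕ) (hA : ∀ t ∈ A, |t| ≤ D)
    (X : ℕ) : |∑ x ∈ range X, ∏ t ∈ A, pat (u (x + t)) (x + t) -
      ∑ x ∈ range X, ∏ t ∈ A, pat (u x) (x + t)| ≤ 2 * D * (u (X + D) - u (-D) : ℤ) := by
  let w : ℕ → ℤ := fun k => u (k - D)
  have h1 : ∀ x : ℕ, |∏ t ∈ A, pat (u (x + t)) (x + t) - ∏ t ∈ A, pat (u x) (x + t)| ≤
      (w (2 * D + x) - w x : ℤ) := by
    intro x
    have hle : w x ≤ w (2 * D + x) := hu (by push_cast; omega)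
    rcases hle.eq_or_lt with h | h
    · have : ∀ t : ℤ, |t| ≤ D → u (x + t) = w x := fun t ht => by
        rw [abs_le] at ht
        exact le_antisymm (h ▸ hu (by push_cast; omega)) (hu (by omega))
      have h0 := this 0 (by simp)
      rw [add_zero] at h0
      rw [Finset.prod_congr rfl fun t ht => by rw [this t (hA t ht), ← h0], sub_self, ← h]
      simp
    · have a := prod_mem A (fun t => pat (u (x + t)) (x + t)) fun t => hp _ _
      have b := prod_mem A (fun t => pat (u x) (x + t)) fun t => hp _ _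
      have c : (1 : ℝ) ≤ (w (2 * D + x) - w x : ℤ) := by exact_mod_cast (by omega)
      rw [abs_le]; constructor <;> linarith [a.1, a.2, b.1, b.2]
  rw [← Finset.sum_sub_distrib]
  refine (Finset.abs_sum_le_sum_abs _ _).trans ((Finset.sum_le_sum fun x _ => h1 x).trans ?_)
  have h2 := Finset.sum_range_add w (2 * D) X
  rw [add_comm, Finset.sum_range_add] at h2
  have h3 : ∑ j ∈ range (2 * D), (w (X + j) - w j) ≤
      ∑ _j ∈ range (2 * D), (u (X + D) - u (-D)) := Finset.sum_le_sum fun j hj => by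
    have := Finset.mem_range.1 hj
    exact sub_le_sub (hu (by push_cast; omega)) (hu (by omega))
  rw [Finset.sum_const, Finset.card_range, nsmul_eq_mul, Finset.sum_sub_distrib] at h3
  have h4 : ∑ x ∈ range X, (w (2 * D + x) - w x) ≤ 2 * D * (u (X + D) - u (-D)) := by
    rw [Finset.sum_sub_distrib]; push_cast at h3; linarith
  exact_mod_cast h4

lemma sum_range_mul (F : ℕ → ℝ) (M Q : ℕ) :
    ∑ x ∈ range (Q * M), F x = ∑ i ∈ range Q, ∑ a ∈ range M, F (i * M + a) := by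
  induction Q with
  | zero => simp
  | succ Q ih => rw [Nat.succ_mul, Finset.sum_range_add, ih, Finset.sum_range_succ]

lemma exists_periodic {M : ℕ} (hM : 0 < M) {r : Finset ℤ → ℝ} (hr : Realizable M r) {δ : ℝ}
    (hδ : 0 < δ) : ∃ P : ℕ, 0 < P ∧ ∃ ω : ℤ → ℝ, (∀ x, ω x = 0 ∨ ω x = 1) ∧
      (∀ x, ω (x + P) = ω x) ∧ ∀ (A : Finset ℤ) (D : ℕ), (∀ t ∈ A, |t| ≤ D) → D ≤ M →
        |(P : ℝ)⁻¹ * ∑ a ∈ range P, ∏ t ∈ A, ω (a + t) - r A| ≤ δ + 6 * D / M := by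
  classical
  have hr' := hr.mem
  obtain ⟨Ω, _, ν, pat, h0, h1, h2, h3⟩ := hr
  obtain ⟨Q, hQ⟩ := exists_nat_gt (Fintype.card Ω / δ)
  have hQ0 : (0 : ℝ) < Q := lt_of_le_of_lt (by positivity) hQ
  let m : Ω → ℕ := fun S => ⌈Q * ν S⌉₊
  obtain ⟨Q', hQ'⟩ : ∃ Q', Q' = ∑ S, m S := ⟨_, rfl⟩
  have hm1 : ∀ S, Q * ν S ≤ m S := fun S => Nat.le_ceil _
  have hm2 : ∀ S, (m S : ℝ) ≤ Q * ν S + 1 := fun S =>
    (Nat.ceil_lt_add_one (mul_nonneg hQ0.le (h0 S))).le
  have hQ1 : (Q : ℝ) ≤ Q' := by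
    rw [hQ']; push_cast
    calc (Q : ℝ) = ∑ S, Q * ν S := by rw [← Finset.mul_sum, h1, mul_one]
      _ ≤ _ := Finset.sum_le_sum fun S _ => hm1 S
  have hQ2 : (Q' : ℝ) ≤ Q + Fintype.card Ω := by
    rw [hQ']; push_cast
    calc _ ≤ ∑ S, (Q * ν S + 1) := Finset.sum_le_sum fun S _ => hm2 S
      _ = _ := by simp [Finset.sum_add_distrib, ← Finset.mul_sum, h1]
  have hQ3 : (0 : ℝ) < Q' := hQ0.trans_le hQ1
  have hQ4 : 0 < Q' := by exact_mod_cast hQ3
  let e : (Σ S, Fin (m S)) ≃ Fin Q' := Fintype.equivFinOfCardEq (by simp [hQ'])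
  let ℓ : ℤ → Ω := fun k => (e.symm ⟨(k % Q').toNat, by
    have := Int.emod_lt_of_pos k (show (0 : ℤ) < Q' by omega)
    omega⟩).1
  have hℓ : ∀ k, ℓ (k + Q') = ℓ k := fun k => by simp [ℓ]
  have hℓ' : ∀ φ : Ω → ℝ, ∑ i ∈ range Q', φ (ℓ i) = ∑ S, m S * φ S := by
    intro φ
    rw [Finset.sum_range, ← Equiv.sum_comp e, Fintype.sum_sigma]
    refine Finset.sum_congr rfl fun S _ => ?_
    have : ∀ j : Fin (m S), ℓ (e ⟨S, j⟩ : ℕ) = S := by
      intro j
      have h : (⟨(((e ⟨S, j⟩ : ℕ) : ℤ) % Q').toNat, by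
          have := Int.emod_lt_of_pos (e ⟨S, j⟩ : ℕ) (show (0 : ℤ) < Q' by omega)
          omega⟩ : Fin Q') = e ⟨S, j⟩ := by
        ext
        simp only
        rw [Int.emod_eq_of_lt (by omega) (by exact_mod_cast (e ⟨S, j⟩).2)]; simp
      simp only [ℓ, h, Equiv.symm_apply_apply]
    simp [this]
  have hM' : (0 : ℤ) < M := by omega
  have hMR : (0 : ℝ) < M := by exact_mod_cast hM
  refine ⟨Q' * M, by positivity, fun x => pat (ℓ (x / M)) (x - M * (x / M)), fun x => h2 _ _,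
    fun x => ?_, fun A D hA hD => ?_⟩
  · have : (x + (Q' * M : ℕ)) / M = x / M + Q' := by
      push_cast; rw [Int.add_mul_ediv_right _ _ hM'.ne']
    simp only [this, hℓ]
    congr 1; push_cast; ring
  have h4 := switch (fun x => x / M) (fun x y h => Int.ediv_le_ediv hM' h)
    (fun k x => pat (ℓ k) (x - M * k)) (fun k x => h2 _ _) A D hA (Q' * M)
  have h5 : (((Q' * M : ℕ) + D : ℤ) / M - (-D) / M : ℤ) ≤ Q' + 2 := by
    have a : ((Q' * M : ℕ) + D : ℤ) / M ≤ ((Q' + 1) * M) / M :=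
      Int.ediv_le_ediv hM' (by push_cast; nlinarith)
    have b : ((-1) * M : ℤ) / M ≤ (-D) / M := Int.ediv_le_ediv hM' (by omega)
    rw [Int.mul_ediv_cancel _ hM'.ne'] at a b
    omega
  let φ : Ω → ℝ := fun S => ∑ a ∈ range M, ∏ t ∈ A, pat S (a + t)
  have h6 : ∑ x ∈ range (Q' * M), ∏ t ∈ A, pat (ℓ ((x : ℤ) / M)) (x + t - M * ((x : ℤ) / M)) =
      ∑ S, m S * φ S := by
    rw [sum_range_mul, ← hℓ']
    refine Finset.sum_congr rfl fun i _ => Finset.sum_congr rfl fun a ha => ?_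
    have : ((i * M + a : ℕ) : ℤ) / M = i := by
      have := Finset.mem_range.1 ha
      push_cast
      rw [add_comm, Int.add_mul_ediv_right _ _ hM'.ne', Int.ediv_eq_zero_of_lt (by omega)
        (by omega), zero_add]
    rw [this]
    refine Finset.prod_congr rfl fun t _ => ?_
    congr 1; push_cast; ring
  simp only [h6] at h4
  have hφ : ∀ S, 0 ≤ φ S ∧ φ S ≤ M := fun S =>
    ⟨Finset.sum_nonneg fun a _ => (prod_mem _ _ fun t => h2 S _).1,
      (Finset.sum_le_sum fun a _ => (prod_mem _ _ fun t => h2 S _).2).trans (by simp)⟩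
  have h7 : ∑ S, ν S * φ S = M * r A := by
    rw [h3, ← mul_assoc, mul_inv_cancel₀ hMR.ne', one_mul, Finset.sum_comm]
    simp only [φ, Finset.mul_sum]
  have h8 : Q * (M * r A) ≤ ∑ S, m S * φ S := by
    rw [← h7, Finset.mul_sum]
    exact Finset.sum_le_sum fun S _ => by
      rw [← mul_assoc]; exact mul_le_mul_of_nonneg_right (hm1 S) (hφ S).1
  have h9 : ∑ S, m S * φ S ≤ Q * (M * r A) + Fintype.card Ω * M := by
    calc _ ≤ ∑ S, (Q * (ν S * φ S) + M) := Finset.sum_le_sum fun S _ => by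
          nlinarith [hm2 S, (hφ S).1, (hφ S).2]
      _ = _ := by rw [Finset.sum_add_distrib, ← Finset.mul_sum, h7]; simp
  have h10 : (Fintype.card Ω : ℝ) ≤ δ * Q' := by
    rw [div_lt_iff₀ hδ] at hQ; nlinarith
  have h11 : (((((Q' * M : ℕ) + D : ℤ) / M - (-D) / M : ℤ)) : ℝ) ≤ Q' + 2 := by exact_mod_cast h5
  have h12 := h4.trans (mul_le_mul_of_nonneg_left h11 (by positivity))
  obtain ⟨r0, r1⟩ := hr' A
  generalize ∑ x ∈ range (Q' * M), ∏ t ∈ A,
    pat (ℓ (((x : ℤ) + t) / M)) (x + t - M * ((x + t) / M)) = Y at h12 ⊢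
  generalize ∑ S, m S * φ S = Z at h8 h9 h12
  have hQ5 : (1 : ℝ) ≤ Q' := by exact_mod_cast hQ4
  have hD0 : (0 : ℝ) ≤ D := by positivity
  have h13 : |Z - Q' * (M * r A)| ≤ δ * Q' * M := by
    have a : 0 ≤ M * r A := by positivity
    have b : M * r A ≤ M := mul_le_of_le_one_right hMR.le r1
    have c : (0 : ℝ) ≤ Fintype.card Ω := by positivity
    rw [abs_le]; constructor <;> nlinarith
  have h14 : |Y - Q' * (M * r A)| ≤ 6 * D * Q' + δ * Q' * M := by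
    have := abs_sub_le Y Z (Q' * (M * r A))
    nlinarith
  rw [show (((Q' * M : ℕ) : ℝ))⁻¹ * Y - r A = (Y - Q' * (M * r A)) / (Q' * M) by
    push_cast; field_simp, abs_div, abs_of_pos (mul_pos hQ3 hMR), div_le_iff₀ (mul_pos hQ3 hMR)]
  refine h14.trans (le_of_eq ?_)
  field_simp; ring

lemma periodic_sum {P : ℕ} (hP : 0 < P) (Φ : ℕ → ℝ) (h0 : ∀ x, 0 ≤ Φ x ∧ Φ x ≤ 1)
    (hΦ : ∀ x, Φ (x + P) = Φ x) (X : ℕ) :
    |∑ x ∈ range X, (Φ x - (P : ℝ)⁻¹ * ∑ a ∈ range P, Φ a)| ≤ P := by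
  have hP' : (0 : ℝ) < P := by exact_mod_cast hP
  have hf0 : 0 ≤ (P : ℝ)⁻¹ * ∑ a ∈ range P, Φ a :=
    mul_nonneg (by positivity) (Finset.sum_nonneg fun a _ => (h0 a).1)
  have hf1 : (P : ℝ)⁻¹ * ∑ a ∈ range P, Φ a ≤ 1 := inv_mul_le_one_of_le₀
    ((Finset.sum_le_sum fun a _ => (h0 a).2).trans (by simp)) hP'.le
  induction X using Nat.strong_induction_on with
  | h X ih =>
  rcases lt_or_ge X P with h | h
  · refine (Finset.abs_sum_le_sum_abs _ _).trans ?_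
    calc _ ≤ ∑ _x ∈ range X, (1 : ℝ) := Finset.sum_le_sum fun x _ => by
          rw [abs_le]; constructor <;> linarith [(h0 x).1, (h0 x).2]
      _ ≤ _ := by simpa using h.le
  · obtain ⟨Y, rfl⟩ := Nat.exists_eq_add_of_le h
    rw [Finset.sum_range_add, Finset.sum_sub_distrib]
    simp only [add_comm P, hΦ, Finset.sum_const, Finset.card_range, nsmul_eq_mul]
    rw [mul_inv_cancel_left₀ hP'.ne', sub_self, zero_add]
    exact ih Y (by omega)

lemma exists_stage (C : ℕ → ℕ) : ∃ n : ℕ → ℕ, Monotone n ∧ Tendsto n atTop atTop ∧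
    ∀ x, n x * C (n x) ≤ x := by
  refine ⟨fun x => Nat.findGreatest (fun k => k * C k ≤ x) x, fun x y h =>
    Nat.findGreatest_mono (fun k hk => le_trans hk h) h, ?_, fun x => ?_⟩
  · refine tendsto_atTop.2 fun k => ?_
    filter_upwards [eventually_ge_atTop (max k (k * C k))] with x hx
    exact Nat.le_findGreatest (le_of_max_le_left hx) (le_of_max_le_right hx)
  · exact Nat.findGreatest_spec (P := fun k => k * C k ≤ x) (Nat.zero_le x) (by simp)

lemma glue (P : ℕ → ℕ) (hP : ∀ n, 0 < P n) (ω : ℕ → ℤ → ℝ) (h01 : ∀ n x, ω n x = 0 ∨ ω n x = 1)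
    (hper : ∀ n x, ω n (x + P n) = ω n x) (ρ : Finset ℤ → ℝ)
    (hρ : ∀ A, Tendsto (fun n => (P n : ℝ)⁻¹ * ∑ a ∈ range (P n), ∏ t ∈ A, ω n (a + t)) atTop
      (𝓝 (ρ A))) :
    ∃ η : ℤ → ℝ, (∀ x, η x = 0 ∨ η x = 1) ∧ (∀ x < 0, η x = 0) ∧ ∀ A,
      Tendsto (fun X : ℕ => (X : ℝ)⁻¹ * ∑ a ∈ range X, ∏ t ∈ A, η (a + t)) atTop (𝓝 (ρ A)) := by
  obtain ⟨n, hn1, hn2, hn3⟩ := exists_stage fun k => ∑ i ∈ range (k + 1), P i
  let u : ℤ → ℤ := fun x => if x < 0 then -1 else n x.toNat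
  let pat : ℤ → ℤ → ℝ := fun k x => if k < 0 then 0 else ω k.toNat x
  have hu : Monotone u := by
    intro x y h
    have := hn1 (Int.toNat_le_toNat h)
    simp only [u]; split_ifs <;> omega
  have hpat : ∀ k x, pat k x = 0 ∨ pat k x = 1 := fun k x => by
    simp only [pat]; split_ifs; exacts [Or.inl rfl, h01 _ _]
  refine ⟨fun x => pat (u x) x, fun x => hpat _ _, fun x hx => by simp [u, pat, hx], fun A => ?_⟩
  obtain ⟨D, hD⟩ : ∃ D : ℕ, ∀ t ∈ A, |t| ≤ D := ⟨A.sup fun t => t.natAbs, fun t ht => by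
    have := Finset.le_sup (f := fun t : ℤ => t.natAbs) ht
    rw [Int.abs_eq_natAbs]; exact_mod_cast this⟩
  let Φ : ℕ → ℕ → ℝ := fun k x => ∏ t ∈ A, ω k (x + t)
  let f : ℕ → ℝ := fun k => (P k : ℝ)⁻¹ * ∑ a ∈ range (P k), Φ k a
  let C : ℕ → ℝ := fun k => ∑ i ∈ range (k + 1), P i
  have hG : ∀ k X, |∑ x ∈ range X, (Φ k x - f k)| ≤ P k := fun k X =>
    periodic_sum (hP k) (Φ k) (fun x => prod_mem _ _ fun t => h01 _ _) (fun x =>
      Finset.prod_congr rfl fun t _ => by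
        rw [← hper k (x + t)]; congr 1; push_cast; ring) X
  have hE : ∀ X, |∑ x ∈ range X, (Φ (n x) x - f (n x)) - ∑ x ∈ range X, (Φ (n X) x - f (n X))| ≤
      2 * ∑ i ∈ range (n X), (P i : ℝ) + P (n X) := by
    intro X
    induction X with
    | zero => simp; positivity
    | succ X ih =>
      rcases (hn1 (Nat.le_succ X)).eq_or_lt with h | h
      · rw [Finset.sum_range_succ, Finset.sum_range_succ, ← h]
        rwa [add_sub_add_right_eq_sub]
      · have a := hG (n X) (X + 1)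
        have b := hG (n (X + 1)) (X + 1)
        have c : ∑ i ∈ range (n X + 1), (P i : ℝ) ≤ ∑ i ∈ range (n (X + 1)), (P i : ℝ) :=
          Finset.sum_le_sum_of_subset_of_nonneg (Finset.range_subset_range.2 h)
            fun _ _ _ => by positivity
        rw [Finset.sum_range_succ] at a c ⊢
        rw [abs_le] at *
        constructor <;> linarith [a.1, a.2, b.1, b.2, ih.1, ih.2]
  have hE' : ∀ X, |∑ x ∈ range X, (Φ (n x) x - f (n x))| ≤ 2 * C (n X) := by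
    intro X
    have a := hE X
    have b := hG (n X) X
    simp only [C]
    push_cast
    rw [Finset.sum_range_succ (fun i => (P i : ℝ))]
    rw [abs_le] at *
    constructor <;> linarith [a.1, a.2, b.1, b.2]
  have hS : ∀ X : ℕ, |∑ x ∈ range X, ∏ t ∈ A, pat (u (x + t)) (x + t) -
      ∑ x ∈ range X, Φ (n x) x| ≤ 2 * D * (n (X + D) + 1) := by
    intro X
    have a := switch u hu pat hpat A D hD X
    have b : ∀ x : ℕ, u x = n x := fun x => by simp [u]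
    have c : (u (X + D) - u (-D) : ℤ) ≤ n (X + D) + 1 := by
      rw [← Nat.cast_add, b]
      have : -1 ≤ u (-D) := by simp only [u]; split_ifs <;> omega
      omega
    have d : ∀ k : ℕ, pat k = ω k := fun k => by funext x; simp [pat]
    simp only [b, d] at a
    exact a.trans (mul_le_mul_of_nonneg_left (by exact_mod_cast c) (by positivity))
  have hC : ∀ x, (n x : ℝ) * C (n x) ≤ x := fun x => by
    simp only [C]; exact_mod_cast hn3 x
  have hC1 : ∀ k : ℕ, (k : ℝ) + 1 ≤ C k := fun k => by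
    have : ∑ _i ∈ range (k + 1), 1 ≤ ∑ i ∈ range (k + 1), P i :=
      Finset.sum_le_sum fun i _ => hP i
    simp only [C]
    simp only [Finset.sum_const, Finset.card_range, smul_eq_mul, mul_one] at this
    exact_mod_cast this
  have hinv : Tendsto (fun x => ((n x : ℝ))⁻¹) atTop (𝓝 0) :=
    tendsto_inv_atTop_zero.comp (tendsto_natCast_atTop_atTop.comp hn2)
  have hlim := ((hρ A).comp hn2).cesaro
  rw [tendsto_iff_norm_sub_tendsto_zero] at hlim ⊢
  have hz : Tendsto (fun X : ℕ => ‖(X : ℝ)⁻¹ * ∑ i ∈ range X, f (n i) - ρ A‖ +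
      (2 * ((n X : ℝ))⁻¹ + 4 * D * ((n (X + D) : ℝ))⁻¹)) atTop (𝓝 0) := by
    simpa using hlim.add ((hinv.const_mul 2).add
      ((hinv.comp (tendsto_add_atTop_nat D)).const_mul (4 * D : ℝ)))
  refine squeeze_zero' (Eventually.of_forall fun _ => norm_nonneg _) ?_ hz
  filter_upwards [hn2.eventually_gt_atTop 0, eventually_ge_atTop D, eventually_gt_atTop 0]
    with X h1 h2 h3
  have h4 : (0 : ℝ) < n X := by exact_mod_cast h1
  have h5 : (0 : ℝ) < n (X + D) := by exact_mod_cast h1.trans_le (hn1 (Nat.le_add_right _ _))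
  have h6 : (0 : ℝ) < X := by exact_mod_cast h3
  have h7 : (D : ℝ) ≤ X := by exact_mod_cast h2
  have a := hE' X
  have b := hS X
  have c : C (n X) ≤ X * ((n X : ℝ))⁻¹ := by
    rw [← div_eq_mul_inv, le_div_iff₀' h4]; exact hC X
  have d : (n (X + D) : ℝ) + 1 ≤ 2 * X * ((n (X + D) : ℝ))⁻¹ := by
    rw [← div_eq_mul_inv, le_div_iff₀' h5]
    have e1 := hC (X + D)
    have e2 := mul_le_mul_of_nonneg_left (hC1 (n (X + D))) h5.le
    push_cast at e1; linarith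
  rw [Finset.sum_sub_distrib] at a
  generalize ∑ x ∈ range X, ∏ t ∈ A, pat (u (x + t)) (x + t) = Y at b ⊢
  generalize ∑ x ∈ range X, Φ (n x) x = Z at a b
  generalize ∑ x ∈ range X, f (n x) = V at a ⊢
  have e : |Y - V| ≤ X * (2 * ((n X : ℝ))⁻¹ + 4 * D * ((n (X + D) : ℝ))⁻¹) := by
    have := abs_sub_le Y Z V
    have d' := mul_le_mul_of_nonneg_left d (by positivity : (0 : ℝ) ≤ 2 * D)
    nlinarith
  have e' : |(X : ℝ)⁻¹ * Y - (X : ℝ)⁻¹ * V| ≤
      2 * ((n X : ℝ))⁻¹ + 4 * D * ((n (X + D) : ℝ))⁻¹ := by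
    rw [← mul_sub, abs_mul, abs_of_pos (inv_pos.2 h6), inv_mul_le_iff₀ h6]; exact e
  have := abs_sub_le ((X : ℝ)⁻¹ * Y) ((X : ℝ)⁻¹ * V) (ρ A)
  simp only [Real.norm_eq_abs]
  linarith

theorem exists_seq (M : ℕ → ℕ) (hM0 : ∀ n, 0 < M n) (hM : Tendsto M atTop atTop)
    (r : ℕ → Finset ℤ → ℝ) (hr : ∀ n, Realizable (M n) (r n)) (ρ : Finset ℤ → ℝ)
    (hρ : ∀ A, Tendsto (fun n => r n A) atTop (𝓝 (ρ A))) :
    ∃ η : ℤ → ℝ, (∀ x, η x = 0 ∨ η x = 1) ∧ (∀ x < 0, η x = 0) ∧ ∀ A,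
      Tendsto (fun X : ℕ => (X : ℝ)⁻¹ * ∑ a ∈ range X, ∏ t ∈ A, η (a + t)) atTop (𝓝 (ρ A)) := by
  choose P hP ω h1 h2 h3 using fun n =>
    exists_periodic (hM0 n) (hr n) (δ := 1 / ((n : ℝ) + 1)) (by positivity)
  refine glue P hP ω h1 h2 ρ fun A => ?_
  obtain ⟨D, hD⟩ : ∃ D : ℕ, ∀ t ∈ A, |t| ≤ D := ⟨A.sup fun t => t.natAbs, fun t ht => by
    have := Finset.le_sup (f := fun t : ℤ => t.natAbs) ht
    rw [Int.abs_eq_natAbs]; exact_mod_cast this⟩
  refine (hρ A).congr_dist ?_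
  have hz : Tendsto (fun n : ℕ => 1 / ((n : ℝ) + 1) + 6 * D / M n) atTop (𝓝 0) := by
    simpa using tendsto_one_div_add_atTop_nhds_zero_nat.add
      ((tendsto_const_nhds (x := (6 * D : ℝ))).div_atTop (tendsto_natCast_atTop_atTop.comp hM))
  refine squeeze_zero' (Eventually.of_forall fun _ => dist_nonneg) ?_ hz
  filter_upwards [hM.eventually_ge_atTop D] with n hn
  rw [dist_comm]
  exact h3 n A D hD hn

end Pool.Agent.P.MP_039ae7_nt
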