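import Pool.Agent.P.MP_039ae7_nt.Circ

/-! The half-filled model on `ZMod (4 l)` and the spectral vanishing of the perturbation. -/

namespace Pool.Agent.P.MP_039ae7_nt

open Matrix Finset

set_option linter.unusedSectionVars false

variable (l : ℕ) [NeZero l]

/-- `+1` on the filled momenta, `-1` on the others. -/
def rho (p : ZMod (4 * l)) : ℂ := if p.val < 2 * l then 1 else -1

/-- The reflection `2 K - 1`. -/
noncomputable def RR : Matrix (ZMod (4 * l)) (ZMod (4 * l)) ℂ := circ (rho l)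

lemma RR_herm : (RR l)ᴴ = RR l := by
  rw [RR, circ_conjTranspose]; congr 1; funext p; unfold rho; split_ifs <;> simp

lemma RR_sq : RR l * RR l = 1 := by
  rw [RR, circ_mul, ← circ_one]; congr 1; funext p; unfold rho; split_ifs <;> simp

lemma Kp_RR : Kp (RR l) = circ fun p : ZMod (4 * l) => if p.val < 2 * l then 1 else 0 := by
  rw [Kp, RR, ← circ_one, smul_add, ← circ_lin]; congr 1; funext p
  unfold rho; split_ifs <;> norm_num

lemma Km_RR : Km (RR l) = circ fun p : ZMod (4 * l) => if p.val < 2 * l then 0 else 1 := by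
  rw [Km, RR, ← circ_one, smul_sub, sub_eq_add_neg, ← neg_smul, ← circ_lin]; congr 1; funext p
  unfold rho; split_ifs <;> norm_num

/-- The even sites. -/
abbrev Ev : Type := {t : ZMod (4 * l) // ((2 * l : ℕ) : ZMod (4 * l)) * t = 0}

lemma two_l_add : ((2 * l : ℕ) : ZMod (4 * l)) + ((2 * l : ℕ) : ZMod (4 * l)) = 0 := by
  rw [← Nat.cast_add, show 2 * l + 2 * l = 4 * l by ring, ZMod.natCast_self]

lemma rho_add (p : ZMod (4 * l)) : rho l (p + (2 * l : ℕ)) = -rho l p := by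
  have h : p + (2 * l : ℕ) = p - (2 * l : ℕ) := by linear_combination two_l_add l
  have hp := ZMod.val_lt p
  rw [rho, h, val_sub_nat p (by omega), rho]
  split_ifs <;> first | omega | simp

lemma RR_ev (t t' : Ev l) : RR l t.1 t'.1 = 0 := by
  have h : ∑ p, rho l p * ch (p * (t.1 - t'.1)) = -∑ p, rho l p * ch (p * (t.1 - t'.1)) := by
    conv_lhs => rw [← Equiv.sum_comp (Equiv.addRight ((2 * l : ℕ) : ZMod (4 * l)))]
    rw [← Finset.sum_neg_distrib]
    refine Finset.sum_congr rfl fun p _ => ?_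
    simp only [Equiv.coe_addRight, rho_add]
    rw [add_mul, mul_sub ((2 * l : ℕ) : ZMod (4 * l)), t.2, t'.2]; simp
  rw [RR, circ_apply, show ∑ p, rho l p * ch (p * (t.1 - t'.1)) = 0 by
    linear_combination (1 / 2 : ℂ) * h, mul_zero]

lemma sum_ev (F : ZMod (4 * l) → ℂ) :
    ∑ t : Ev l, F t.1 = ∑ t, (1 + ch (((2 * l : ℕ) : ZMod (4 * l)) * t)) / 2 * F t := by
  rw [← Finset.sum_subtype (univ.filter fun t => ((2 * l : ℕ) : ZMod (4 * l)) * t = 0)
    (by simp), Finset.sum_filter]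
  refine Finset.sum_congr rfl fun t _ => ?_
  split_ifs with h
  · rw [h]; simp
  · have h1 : ch (((2 * l : ℕ) : ZMod (4 * l)) * t) * ch (((2 * l : ℕ) : ZMod (4 * l)) * t)
        = 1 := by rw [← ch_add, ← add_mul, two_l_add]; simp
    rcases mul_self_eq_one_iff.1 h1 with h2 | h2
    · exact absurd (ch_eq_one h2) h
    · rw [h2]; simp

variable {l}

/-- The alternating sign on the even sites. -/
noncomputable def sR (t : Ev l) : ℝ := (ch ((l : ZMod (4 * l)) * t.1)).re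

lemma sR_coe (t : Ev l) : (sR t : ℂ) = ch ((l : ZMod (4 * l)) * t.1) := by
  have h1 : ch ((l : ZMod (4 * l)) * t.1) * ch ((l : ZMod (4 * l)) * t.1) = 1 := by
    have := t.2
    push_cast at this
    rw [← ch_add, ← add_mul, ← two_mul, this]; simp
  unfold sR
  rcases mul_self_eq_one_iff.1 h1 with h2 | h2 <;> rw [h2] <;> simp

lemma abs_sR (t : Ev l) : |sR t| ≤ 1 :=
  (Complex.abs_re_le_norm _).trans (norm_ch _).le

/-- The Fejer envelope. -/
noncomputable def aR (B : ℕ) (t : ZMod (4 * l)) : ℝ :=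
  Complex.normSq (∑ k : Fin B, ch (((k : ℕ) : ZMod (4 * l)) * t)) / B ^ 2

/-- The frequency of a pair. -/
def om {B : ℕ} (ω : Fin B × Fin B) : ℤ := (ω.1 : ℕ) - (ω.2 : ℕ)

lemma abs_om {B : ℕ} (ω : Fin B × Fin B) : |om ω| < B := by
  have := ω.1.2; have := ω.2.2
  rw [abs_lt, om]; omega

lemma aR_coe (B : ℕ) (t : ZMod (4 * l)) :
    (aR B t : ℂ) = ∑ ω : Fin B × Fin B, ((B : ℂ) ^ 2)⁻¹ * ch (((om ω : ℤ) : ZMod (4 * l)) * t) := by
  rw [aR, Complex.ofReal_div, ← Complex.mul_conj, map_sum, Finset.sum_mul_sum,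
    ← Finset.mul_sum, Fintype.sum_prod_type, div_eq_inv_mul]
  push_cast
  congr 1
  refine Finset.sum_congr rfl fun a _ => Finset.sum_congr rfl fun b _ => ?_
  rw [← Complex.star_def, ← ch_neg, ← ch_add]
  congr 1
  simp only [om]; push_cast; ring

lemma aR_nonneg (B : ℕ) (t : ZMod (4 * l)) : 0 ≤ aR B t :=
  div_nonneg (Complex.normSq_nonneg _) (by positivity)

lemma aR_zero {B : ℕ} (hB : 0 < B) : aR B (0 : ZMod (4 * l)) = 1 := by
  have : (B : ℝ) ≠ 0 := by positivity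
  simp [aR]; field_simp

lemma sum_aR {B : ℕ} (hB : 0 < B) (hB' : B ≤ 4 * l) :
    ∑ t : ZMod (4 * l), aR B t = 4 * l / B := by
  have h0 : (B : ℂ) ≠ 0 := by exact_mod_cast hB.ne'
  apply Complex.ofReal_injective
  push_cast
  simp only [aR_coe]
  rw [Finset.sum_comm]
  have : ∀ ω : Fin B × Fin B, ∑ t : ZMod (4 * l), ((B : ℂ) ^ 2)⁻¹ * ch (((om ω : ℤ) : ZMod (4 * l)) * t) =
      if ω.1 = ω.2 then ((B : ℂ) ^ 2)⁻¹ * (4 * l) else 0 := by
    intro ω
    simp only [← Finset.mul_sum, mul_comm ((om ω : ℤ) : ZMod (4 * l)), sum_ch]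
    have e : ((om ω : ℤ) : ZMod (4 * l)) = 0 ↔ ω.1 = ω.2 := by
      rw [ZMod.intCast_zmod_eq_zero_iff_dvd]
      constructor
      · intro h
        have := Int.eq_zero_of_abs_lt_dvd h ((abs_om ω).trans_le (by exact_mod_cast hB'))
        ext; unfold om at this; omega
      · intro h; simp [om, h]
    simp only [e]
    split_ifs <;> simp
  simp only [this, Fintype.sum_prod_type, Finset.sum_ite_eq, Finset.mem_univ, if_true,
    Finset.sum_const, Finset.card_univ, Fintype.card_fin, nsmul_eq_mul]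
  field_simp

/-- The one-site weight of a polymer centered at `c`. -/
noncomputable def hh (B : ℕ) (c : ZMod (4 * l)) (t : Ev l) : ℝ := sR t * aR B (t.1 - c)

lemma hh_coe (B : ℕ) (c : ZMod (4 * l)) (t : Ev l) : (hh B c t : ℂ) =
    ∑ ω : Fin B × Fin B, ((B : ℂ) ^ 2)⁻¹ * ch (-((om ω : ℤ) : ZMod (4 * l)) * c) *
      ch (((l + om ω : ℤ) : ZMod (4 * l)) * t.1) := by
  rw [hh, Complex.ofReal_mul, sR_coe, aR_coe, Finset.mul_sum]
  refine Finset.sum_congr rfl fun ω _ => ?_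
  rw [mul_left_comm, mul_assoc, ← ch_add, ← ch_add]
  congr 2; push_cast; ring

/-- Signed distance to the Fermi points. -/
def psi (p : ZMod (4 * l)) : ℤ :=
  if p.val < 2 * l then min (p.val : ℤ) (2 * l - p.val) else -min (p.val - 2 * l : ℤ) (4 * l - p.val)

lemma psi_lip (p q : ZMod (4 * l)) (k : ℤ) (h : (k : ZMod (4 * l)) = p - q) :
    psi q - psi p ≤ |k| := by
  have hp := ZMod.val_lt p
  have hq := ZMod.val_lt q
  have h1 : ((k - (p.val - q.val) : ℤ) : ZMod (4 * l)) = 0 := by push_cast; simp [h]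
  obtain ⟨t, ht⟩ := (ZMod.intCast_zmod_eq_zero_iff_dvd _ _).1 h1
  push_cast at ht
  have hl : (0 : ℤ) ≤ l := Int.natCast_nonneg l
  have h2 : 4 * (l : ℤ) * t = 0 ∨ 4 * (l : ℤ) * t = 4 * l ∨ 4 * (l : ℤ) * t = -(4 * l) ∨
      8 * (l : ℤ) ≤ 4 * l * t ∨ 4 * (l : ℤ) * t ≤ -(8 * l) := by
    rcases (by omega : t = 0 ∨ t = 1 ∨ t = -1 ∨ 2 ≤ t ∨ t ≤ -2) with h | h | h | h | h
    · simp [h]
    · simp [h]
    · simp [h]
    · right; right; right; left; nlinarith
    · right; right; right; right; nlinarith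
  generalize 4 * (l : ℤ) * t = w at ht h2
  unfold psi
  rcases abs_cases k with a | a <;> split_ifs <;> omega

lemma psi_jump (p q : ZMod (4 * l)) (hp' : p.val < 2 * l) (hq' : ¬ q.val < 2 * l) :
    0 ≤ psi p - psi q := by
  have hq := ZMod.val_lt q
  unfold psi
  split_ifs; omega

lemma psi_gap {B : ℕ} (hB : B ≤ l) (p q : ZMod (4 * l)) (hp' : p.val < 2 * l)
    (hq' : ¬ q.val < 2 * l) (w : ℤ) (hw : |w| < B)
    (h : ((l + w : ℤ) : ZMod (4 * l)) + (p - q) = 0 ∨
      ((2 * l : ℕ) : ZMod (4 * l)) + (((l + w : ℤ) : ZMod (4 * l)) + (p - q)) = 0) :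
    (l : ℤ) - B < psi p - psi q := by
  have hq := ZMod.val_lt q
  have h1 : (2 * l : ℤ) ∣ l + w + (p.val - q.val) := by
    rcases h with h | h
    · have : ((l + w + (p.val - q.val) : ℤ) : ZMod (4 * l)) = 0 := by
        rw [← h]; push_cast; simp
      exact Dvd.dvd.trans ⟨2, by push_cast; ring⟩ ((ZMod.intCast_zmod_eq_zero_iff_dvd _ _).1 this)
    · have : ((2 * l + (l + w + (p.val - q.val)) : ℤ) : ZMod (4 * l)) = 0 := by
        rw [← h]; push_cast; simp
      exact (dvd_add_right dvd_rfl).1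
        (Dvd.dvd.trans ⟨2, by push_cast; ring⟩ ((ZMod.intCast_zmod_eq_zero_iff_dvd _ _).1 this))
  obtain ⟨t, ht⟩ := h1
  have hl : (0 : ℤ) ≤ l := Int.natCast_nonneg l
  have h2 : 2 * (l : ℤ) * t = 0 ∨ 2 * (l : ℤ) * t = -(2 * l) ∨
      2 * (l : ℤ) ≤ 2 * l * t ∨ 2 * (l : ℤ) * t ≤ -(4 * l) := by
    rcases (by omega : t = 0 ∨ t = -1 ∨ 1 ≤ t ∨ t ≤ -2) with h | h | h | h
    · simp [h]
    · simp [h]
    · right; right; left; nlinarith
    · right; right; right; nlinarith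
  generalize 2 * (l : ℤ) * t = u at ht h2
  rw [abs_lt] at hw
  unfold psi
  split_ifs; omega

lemma hh_spec {B : ℕ} (hB : B ≤ l) (c p q : ZMod (4 * l)) (hp' : p.val < 2 * l)
    (hq' : ¬ q.val < 2 * l) (h : ∑ t : Ev l, (hh B c t : ℂ) * ch (t.1 * (p - q)) ≠ 0) :
    (l : ℤ) - B < psi p - psi q := by
  by_contra hne
  apply h
  simp only [hh_coe, Finset.sum_mul]
  rw [Finset.sum_comm]
  refine Finset.sum_eq_zero fun ω _ => ?_
  simp only [mul_assoc, ← Finset.mul_sum]
  rw [sum_ev l fun t => ch (((l + om ω : ℤ) : ZMod (4 * l)) * t) * ch (t * (p - q))]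
  have e : ∀ t : ZMod (4 * l), (1 + ch (((2 * l : ℕ) : ZMod (4 * l)) * t)) / 2 *
      (ch (((l + om ω : ℤ) : ZMod (4 * l)) * t) * ch (t * (p - q))) =
      (1 / 2) * ch (t * (((l + om ω : ℤ) : ZMod (4 * l)) + (p - q))) + (1 / 2) *
      ch (t * (((2 * l : ℕ) : ZMod (4 * l)) + (((l + om ω : ℤ) : ZMod (4 * l)) + (p - q)))) := by
    intro t
    rw [mul_add t, mul_add t, mul_add t, ch_add, ch_add, ch_add, mul_comm t, mul_comm t]; ring
  simp only [e, Finset.sum_add_distrib, ← Finset.mul_sum, sum_ch]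
  rw [if_neg fun c => hne (psi_gap hB p q hp' hq' _ (abs_om ω) (Or.inl c)),
    if_neg fun c => hne (psi_gap hB p q hp' hq' _ (abs_om ω) (Or.inr c))]
  simp

/-- Momentum expansion coefficients of the block matrix. -/
noncomputable def coef {X Y : Type*} : X ⊕ Y → X ⊕ Y → ZMod (4 * l) → ℂ
  | .inl _, .inl _, p => ((4 * l : ℕ) : ℂ)⁻¹ * if p.val < 2 * l then 1 else 0
  | .inl _, .inr _, p => -(((4 * l : ℕ) : ℂ)⁻¹ * if p.val < 2 * l then 0 else 1)
  | .inr _, .inl _, p => 2 * (((4 * l : ℕ) : ℂ)⁻¹ * if p.val < 2 * l then 1 else 0)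
  | .inr _, .inr _, _ => 0

lemma blk_apply {X Y : Type*} (x : X → ZMod (4 * l)) (y : Y → ZMod (4 * l)) (a b : X ⊕ Y) :
    blk (RR l) x y a b = ∑ p, coef a b p * ch (p * (Sum.elim x y a - Sum.elim x y b)) := by
  rcases a with a | a <;> rcases b with b | b <;>
    simp [blk, coef, Kp_RR, Km_RR, circ_apply, Finset.mul_sum, mul_assoc]

lemma det_blk_expand {X Y : Type*} [Fintype X] [DecidableEq X] [Fintype Y] [DecidableEq Y]
    (x : X → ZMod (4 * l)) (y : Y → ZMod (4 * l)) :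
    (blk (RR l) x y).det = ∑ π : Equiv.Perm (X ⊕ Y), ∑ p : X ⊕ Y → ZMod (4 * l),
      ((Equiv.Perm.sign π : ℤ) * ∏ a, coef (π a) a (p a)) *
        ∏ b, ch (Sum.elim x y b * (p (π.symm b) - p b)) := by
  rw [det_apply']
  refine Finset.sum_congr rfl fun π _ => ?_
  simp only [blk_apply]
  rw [Finset.prod_univ_sum, Fintype.piFinset_univ, Finset.mul_sum]
  refine Finset.sum_congr rfl fun p _ => ?_
  rw [Finset.prod_mul_distrib, mul_assoc, ← ch_sum, ← ch_sum]
  congr 3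
  simp only [mul_sub, Finset.sum_sub_distrib]
  congr 1
  · rw [← Equiv.sum_comp π (fun b => Sum.elim x y b * p (π.symm b))]
    simp only [Equiv.symm_apply_apply, mul_comm]
  · simp [mul_comm]

theorem spectral {B : ℕ} (hB : 3 * B ≤ l) {X Y : Type*} [Fintype X] [DecidableEq X] [Fintype Y]
    [DecidableEq Y] (F : (X → ZMod (4 * l)) → ℂ)
    (hF : ∀ θ : X → ZMod (4 * l), ∑ x, F x * ∏ i, ch (x i * θ i) ≠ 0 →
      ∃ k : X → ℤ, (∀ i, (k i : ZMod (4 * l)) = θ i) ∧ ∑ i, |k i| < 4 * l)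
    (c : ZMod (4 * l)) (y' : Y → ZMod (4 * l)) :
    ∑ x, F x * ∑ y : Fin 6 → Ev l, (∏ i, hh B c (y i) : ℝ) *
      (blk (RR l) x (Sum.elim (fun i => (y i).1) y')).det = 0 := by
  simp only [det_blk_expand, Finset.mul_sum]
  rw [Finset.sum_comm]
  simp only [Finset.sum_comm (s := (univ : Finset (X → ZMod (4 * l))))]
  rw [Finset.sum_comm]
  refine Finset.sum_eq_zero fun π _ => ?_
  rw [Finset.sum_comm]
  refine Finset.sum_eq_zero fun p _ => ?_
  set θ : X ⊕ Fin 6 ⊕ Y → ZMod (4 * l) := fun b => p (π.symm b) - p b with hθ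
  set C : ℂ := (Equiv.Perm.sign π : ℤ) * ∏ a, coef (π a) a (p a) with hC
  have e : ∑ y : Fin 6 → Ev l, ∑ x : X → ZMod (4 * l), F x * ((∏ i, hh B c (y i) : ℝ) * (C *
      ∏ b, ch (Sum.elim x (Sum.elim (fun i => (y i).1) y') b * θ b))) =
      C * (∑ x, F x * ∏ i, ch (x i * θ (.inl i))) *
        (∏ i : Fin 6, ∑ t : Ev l, (hh B c t : ℂ) * ch (t.1 * θ (.inr (.inl i)))) *
        ∏ j, ch (y' j * θ (.inr (.inr j))) := by
    rw [Finset.prod_univ_sum, Fintype.piFinset_univ]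
    simp only [Finset.mul_sum, Finset.sum_mul]
    refine Finset.sum_congr rfl fun y _ => Finset.sum_congr rfl fun x _ => ?_
    simp only [Fintype.prod_sum_type, Sum.elim_inl, Sum.elim_inr, Finset.prod_mul_distrib]
    push_cast; ring
  rw [e]
  by_contra hne
  have h1 := right_ne_zero_of_mul (left_ne_zero_of_mul (left_ne_zero_of_mul hne))
  have h2 := Finset.prod_ne_zero_iff.1 (right_ne_zero_of_mul (left_ne_zero_of_mul hne))
  have h3 := Finset.prod_ne_zero_iff.1
    (right_ne_zero_of_mul (left_ne_zero_of_mul (left_ne_zero_of_mul (left_ne_zero_of_mul hne))))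
  have h4 : ∀ j, (p (π.symm (.inr j))).val < 2 * l ∧ ¬ (p (.inr j)).val < 2 * l := by
    intro j
    constructor
    · have := h3 (π.symm (.inr j)) (Finset.mem_univ _)
      rw [Equiv.apply_symm_apply] at this
      rcases e : π.symm (.inr j) with i | i <;> rw [e] at this
      · by_contra c; simp [coef, c] at this
      · simp [coef] at this
    · have := h3 (.inr j) (Finset.mem_univ _)
      rcases e : π (.inr j) with i | i <;> rw [e] at this
      · intro c; simp [coef, c] at this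
      · simp [coef] at this
  obtain ⟨k, hk, hk'⟩ := hF _ h1
  have h5 : ∑ b, (psi (p (π.symm b)) - psi (p b)) = 0 := by
    rw [Finset.sum_sub_distrib, Equiv.sum_comp π.symm (fun b => psi (p b)), sub_self]
  rw [Fintype.sum_sum_type, Fintype.sum_sum_type] at h5
  have h6 : -∑ i, |k i| ≤ ∑ i, (psi (p (π.symm (.inl i))) - psi (p (.inl i))) := by
    rw [← Finset.sum_neg_distrib]
    exact Finset.sum_le_sum fun i _ => by linarith [psi_lip _ _ _ (hk i)]
  have h7 : ∑ _i : Fin 6, ((l : ℤ) - B) ≤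
      ∑ i : Fin 6, (psi (p (π.symm (.inr (.inl i)))) - psi (p (.inr (.inl i)))) :=
    Finset.sum_le_sum fun i _ =>
      (hh_spec (by omega) c _ _ (h4 _).1 (h4 _).2 (h2 i (Finset.mem_univ _))).le
  have h8 : 0 ≤ ∑ j : Y, (psi (p (π.symm (.inr (.inr j)))) - psi (p (.inr (.inr j)))) :=
    Finset.sum_nonneg fun j _ => psi_jump _ _ (h4 _).1 (h4 _).2
  simp only [Finset.sum_const, Finset.card_univ, Fintype.card_fin, nsmul_eq_mul] at h7
  have : (3 * B : ℤ) ≤ l := by exact_mod_cast hB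
  push_cast at h7
  linarith

end Pool.Agent.P.MP_039ae7_nt
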