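import Pool.Agent.P.MP_039ae7_nt.Model
import Pool.Agent.P.MP_039ae7_nt.Seq

/-! The two families of finite-volume correlation functions. -/

namespace Pool.Agent.P.MP_039ae7_nt

open Matrix Finset Filter Topology MeasureTheory

/-- The pattern `0, z_1, ..., z_m`. -/
def pts {m : ℕ} (z : Fin m → ℤ) : Fin (m + 1) → ℤ := Fin.cons 0 z

lemma det_Kp_pos {l : ℕ} [NeZero l] {m : ℕ} (a : ZMod (4 * l)) (z : Fin m → ℤ) :
    ((Kp (RR l)).submatrix (pos a z) (pos a z)).det =
      Theta (4 * l) (2 * l) (Fin.cons 0 (fun i => (z i : ℝ)) : Fin (m + 1) → ℝ) := by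
  rw [Theta]
  congr 1
  ext i j
  have h : ∀ i, (Fin.cons 0 (fun i => (z i : ℝ)) : Fin (m + 1) → ℝ) i =
      ((Fin.cons 0 z : Fin (m + 1) → ℤ) i : ℤ) := fun i => by
    refine Fin.cases ?_ (fun j => ?_) i <;> simp
  simp only [submatrix_apply, of_apply, pos, Kp_RR, add_comm a, circ_shift, h]
  exact circ_lt (by omega) _ _

theorem stage {l B : ℕ} [NeZero l] (hB : 0 < B) (hB' : 3 * B ≤ l) {ε : ℝ} (hε : 0 ≤ ε)
    (hε' : 2 ^ 6 * (ε * (6 * (4 * l / B) ^ 6)) ≤ 1 / 2) :
    ∃ r : Finset ℤ → ℝ, Realizable (4 * l) r ∧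
      (∀ m g, Nice m g → HasSum (fun z : Fin m → ℤ => g (fun i => (z i : ℝ) / 2) *
        (if Function.Injective (fun i => (pts z i : ZMod (4 * l))) then
          (r (univ.image (pts z)) : ℂ) else 0))
        (2 ^ m * ∫ y, g y * Theta (4 * l) (2 * l)
          fun i => 2 * (Fin.cons 0 y : Fin (m + 1) → ℝ) i)) ∧
      (∀ A : Finset ℤ, (∀ t ∈ A, 0 ≤ t ∧ t < 6) → A.card < 6 → (r A : ℂ) = ((4 * l : ℕ) : ℂ)⁻¹ *
        ∑ a : ZMod (4 * l), ((Kp (RR l)).submatrix (fun t : A => a + t.1) fun t => a + t.1).det) ∧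
      (r (univ.image fun i : Fin 6 => ((i : ℕ) : ℤ)) : ℂ) = ((4 * l : ℕ) : ℂ)⁻¹ *
        ∑ a : ZMod (4 * l), (((Kp (RR l)).submatrix (fun i : Fin 6 => a + (i : ℕ))
          fun i : Fin 6 => a + (i : ℕ)).det + ε * ∑ c, ∑ y : Fin 6 → Ev l,
          ((∏ i, hh B c (y i) : ℝ) : ℂ) *
            (blk (RR l) (fun i : Fin 6 => a + (i : ℕ)) fun i => (y i).1).det) := by
  obtain ⟨ν, hν, cc, hc, h⟩ := exists_measure (l := l) hB (by omega) hε hε'
  let r : Finset ℤ → ℝ := fun A => ((4 * l : ℕ) : ℝ)⁻¹ * ∑ a ∈ range (4 * l),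
    ∑ S, ν S * ∏ t ∈ A, ind S (((a : ℤ) + t : ℤ) : ZMod (4 * l))
  have hr : ∀ (X : Type) [Fintype X] [DecidableEq X] (x : X → ℤ),
      Function.Injective (fun i => (x i : ZMod (4 * l))) → (r (univ.image x) : ℂ) =
      ((4 * l : ℕ) : ℂ)⁻¹ * ∑ a : ZMod (4 * l), (((Kp (RR l)).submatrix (fun i => a + x i)
        fun i => a + x i).det + ε * pert B cc fun i => a + x i) := by
    intro X _ _ x hx
    have hx' : Function.Injective x := fun i j e => hx (by simp only [e])
    simp only [r]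
    rw [Complex.ofReal_mul, Complex.ofReal_sum, sum_zmod]
    congr 1
    · simp
    refine Finset.sum_congr rfl fun a _ => ?_
    rw [← h X _ fun i j e => hx (add_left_cancel e)]
    simp only [Finset.prod_image fun i _ j _ e => hx' e, Int.cast_add, Int.cast_natCast]
  have hsmall : ∀ s t : ℤ, 0 ≤ s → s < 6 → 0 ≤ t → t < 6 → (s : ZMod (4 * l)) = t → s = t := by
    intro s t a b c d e
    rw [ZMod.intCast_eq_intCast_iff_dvd_sub] at e
    have := Int.eq_zero_of_abs_lt_dvd e (by rw [abs_lt]; push_cast; omega)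
    omega
  have hM : ((4 * l : ℕ) : ℂ) ≠ 0 := Nat.cast_ne_zero.2 (NeZero.ne _)
  refine ⟨r, ⟨Finset (ZMod (4 * l)), inferInstance, ν, fun S x => ind S x, hν, ?_,
    fun S x => by simp only [ind]; split_ifs <;> simp, fun A => rfl⟩, fun m g hg => ?_,
    fun A hA hA' => ?_, ?_⟩
  · have := h Empty Empty.elim fun a => a.elim
    rw [pert_small _ _ _ (by simp)] at this
    simp only [Finset.univ_eq_empty, Finset.prod_empty, mul_one, det_isEmpty, mul_zero,
      add_zero] at this
    exact_mod_cast this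
  · have h1 := (hasSum_Theta hg (M := 4 * l) (k := 2 * l) (NeZero.pos _) (by omega)).add
      ((hasSum_pert hB' cc hg).mul_left (((4 * l : ℕ) : ℂ)⁻¹ * ε))
    rw [mul_zero, add_zero] at h1
    refine h1.congr_fun fun z => ?_
    have h2 : ∀ a : ZMod (4 * l), (fun i => a + (pts z i : ZMod (4 * l))) = pos a z :=
      fun a => rfl
    split_ifs with hz
    · rw [hr _ _ hz]
      simp only [h2, det_Kp_pos, Finset.sum_add_distrib, Finset.sum_const, Finset.card_univ,
        ZMod.card, nsmul_eq_mul, ← Finset.mul_sum]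
      field_simp
    · have h3 : ∀ a : ZMod (4 * l), ¬ Function.Injective (pos a z) := fun a c =>
        hz fun i j e => c (congrArg (a + ·) e)
      have h4 := blk_det_eq_zero_left (RR l) (pos 0 z) (Empty.elim : Empty → _) (h3 0)
      rw [blk_det_empty, det_Kp_pos] at h4
      simp only [h4, pert_not_inj _ _ _ (h3 _)]
      simp
  · have := hr A (fun t => t.1) fun s t e =>
      Subtype.ext (hsmall _ _ (hA _ s.2).1 (hA _ s.2).2 (hA _ t.2).1 (hA _ t.2).2 e)
    rw [show univ.image (fun t : A => t.1) = A by simp] at this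
    rw [this]
    simp only [pert_small B cc (X := A) _ (by simpa using hA'), mul_zero, add_zero]
  · rw [hr (Fin 6) (fun i => ((i : ℕ) : ℤ)) fun s t e =>
      Fin.ext (by have := hsmall _ _ (by omega) (by omega) (by omega) (by omega) e; omega)]
    simp only [pert_six B cc hc, Int.cast_natCast]

theorem model : ∃ δ : ℝ, 0 < δ ∧ ∃ l : ℕ → ℕ, (∀ n, 0 < l n) ∧ Tendsto l atTop atTop ∧
    ∃ r : Bool → ℕ → Finset ℤ → ℝ, (∀ e n, Realizable (4 * l n) (r e n)) ∧
      (∀ e n, r e n {0} = 1 / 2) ∧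
      (∀ e n m g, Nice m g → HasSum (fun z : Fin m → ℤ => g (fun i => (z i : ℝ) / 2) *
        (if Function.Injective (fun i => (pts z i : ZMod (4 * l n))) then
          (r e n (univ.image (pts z)) : ℂ) else 0))
        (2 ^ m * ∫ y, g y * Theta (4 * l n) (2 * l n)
          fun i => 2 * (Fin.cons 0 y : Fin (m + 1) → ℝ) i)) ∧
      (∀ n (A : Finset ℤ), (∀ t ∈ A, 0 ≤ t ∧ t < 6) → A.card < 6 → r true n A = r false n A) ∧
      ∀ n, r false n (univ.image fun i : Fin 6 => ((i : ℕ) : ℤ)) + δ ≤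
        r true n (univ.image fun i : Fin 6 => ((i : ℕ) : ℤ)) := by
  obtain ⟨δ, hδ, b, B0, hb, hG⟩ := exists_params
  have hb' : (0 : ℝ) < b := by exact_mod_cast (by omega)
  let ε : ℝ := (2 ^ 6 * (6 * (4 * (b : ℝ)) ^ 6))⁻¹ / 2
  have hε : 0 < ε := by positivity
  let l : ℕ → ℕ := fun n => b * (n + B0 + 1)
  have hl : ∀ n, 0 < l n := fun n => by positivity
  have : ∀ n, NeZero (l n) := fun n => ⟨(hl n).ne'⟩
  have hs := fun (e : Bool) n => stage (l := l n) (B := n + B0 + 1) (by omega)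
    (Nat.mul_le_mul_right _ hb) (ε := if e then ε else 0) (by split_ifs <;> positivity) (by
      have : (4 * (l n : ℝ) / (n + B0 + 1 : ℕ)) = 4 * b := by
        simp only [l]; push_cast; field_simp
      rw [this]
      split_ifs
      · simp only [ε]; field_simp; rfl
      · simp)
  choose r h1 h2 h3 h4 using hs
  refine ⟨ε * (46080 * δ), by positivity, l, hl, tendsto_atTop_mono (fun n => ?_) tendsto_id,
    r, h1, fun e n => ?_, h2, fun n A hA hA' => ?_, fun n => ?_⟩
  · simp only [l, id]; nlinarith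
  · have hM : ((4 * l n : ℕ) : ℂ) ≠ 0 := Nat.cast_ne_zero.2 (NeZero.ne _)
    apply Complex.ofReal_injective
    rw [h3 e n {0} (by simp) (by simp)]
    have : ∀ a : ZMod (4 * l n), Kp (RR (l n)) a a = 1 / 2 := fun a => by
      have := circ_shift (rho (l n)) 0 0 a
      rw [zero_add] at this
      have h0 : RR (l n) a a = 0 := this.trans (RR_ev (l n) ⟨0, by simp⟩ ⟨0, by simp⟩)
      simp [Kp, h0]
    simp only [det_unique, submatrix_apply, this, Finset.sum_const, Finset.card_univ, ZMod.card,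
      nsmul_eq_mul]
    rw [inv_mul_cancel_left₀ hM]; simp
  · apply Complex.ofReal_injective
    rw [h3 _ _ _ hA hA', h3 _ _ _ hA hA']
  · have hM : (0 : ℝ) < (4 * l n : ℕ) := by exact_mod_cast NeZero.pos (4 * l n)
    have a := congrArg Complex.re (h4 true n)
    have b := congrArg Complex.re (h4 false n)
    have c := gap_lower (l := l n) (B := n + B0 + 1) (by omega) hδ.le
      (hG _ _ (by omega) rfl)
    rw [← Complex.ofReal_natCast, ← Complex.ofReal_inv, Complex.re_ofReal_mul, Complex.re_sum,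
      Complex.ofReal_re] at a b
    simp only [Complex.add_re, Complex.re_ofReal_mul, Finset.sum_add_distrib, if_true,
      Bool.false_eq_true, if_false, zero_mul, Finset.sum_const_zero, add_zero] at a b
    rw [a, b, mul_add]
    refine add_le_add le_rfl ?_
    rw [le_inv_mul_iff₀ hM]
    refine le_trans ?_ (Finset.sum_le_sum fun a _ => mul_le_mul_of_nonneg_left (c a) hε.le)
    simp

end Pool.Agent.P.MP_039ae7_nt
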